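import Pool.Agent.Lib.MP_58f2bb_an.Defs

/-!
# Unbounded operators: `T†T`, heat semigroups
-/

noncomputable section

set_option linter.unusedSectionVars false

open scoped InnerProductSpace ComplexConjugate Topology
open Filter

namespace Pool.Agent.Lib.MP_58f2bb_an

variable {H K : Type*} [NormedAddCommGroup H] [InnerProductSpace ℂ H] [CompleteSpace H]
  [NormedAddCommGroup K] [InnerProductSpace ℂ K] [CompleteSpace K]

open LinearPMap

/-! ### `T†T` -/

theorem mem_normalOp_graph {T : H →ₗ.[ℂ] K} {x y : H} :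
    (x, y) ∈ (normalOp T).graph ↔ ∃ z, (x, z) ∈ T.graph ∧ (z, y) ∈ T†.graph := by
  have h : (normalOp T).graph = normalGraph T := by
    apply Submodule.toLinearPMap_graph_eq
    rintro ⟨x, y⟩ ⟨z, h1, h2⟩ (rfl : x = 0)
    have : z = 0 := LinearPMap.graph_fst_eq_zero_snd T h1 rfl
    subst this
    exact LinearPMap.graph_fst_eq_zero_snd _ h2 rfl
  rw [h]
  rfl

theorem adjoint_graph_iff {T : H →ₗ.[ℂ] K} (hT : Dense (T.domain : Set H)) {z : K} {y : H} :
    (z, y) ∈ T†.graph ↔ ∀ u w, (u, w) ∈ T.graph → ⟪w, z⟫_ℂ = ⟪u, y⟫_ℂ := by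
  rw [LinearPMap.adjoint_graph_eq_graph_adjoint hT, Submodule.mem_adjoint_iff]
  simp only [sub_eq_zero]

/-- von Neumann: `1 + T†T` is onto for `T` closed and densely defined. -/
theorem one_add_normalOp_surj {T : H →ₗ.[ℂ] K} (hT : Dense (T.domain : Set H))
    (hc : T.IsClosed) (h : H) : ∃ x y, (x, y) ∈ (normalOp T).graph ∧ x + y = h := by
  let G : Submodule ℂ (WithLp 2 (H × K)) :=
    T.graph.comap (WithLp.linearEquiv 2 ℂ (H × K)).toLinearMap
  have hG : IsClosed (G : Set (WithLp 2 (H × K))) :=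
    hc.preimage (WithLp.prod_continuous_ofLp 2 H K)
  have : CompleteSpace G := hG.completeSpace_coe
  obtain ⟨g, hg, w, hw, hgw⟩ := G.exists_add_mem_mem_orthogonal (WithLp.toLp 2 (h, (0 : K)))
  have hg' : (g.fst, g.snd) ∈ T.graph := hg
  have h1 : g.fst + w.fst = h := by
    have := congrArg (fun v : WithLp 2 (H × K) => v.fst) hgw
    simpa using this.symm
  have h2 : g.snd + w.snd = 0 := by
    have := congrArg (fun v : WithLp 2 (H × K) => v.snd) hgw
    simpa using this.symm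
  refine ⟨g.fst, w.fst, mem_normalOp_graph.2 ⟨g.snd, hg', ?_⟩, h1⟩
  rw [adjoint_graph_iff hT]
  intro u v huv
  have := (Submodule.mem_orthogonal _ _).1 hw (WithLp.toLp 2 (u, v)) huv
  rw [WithLp.prod_inner_apply] at this
  have h3 : g.snd = - w.snd := by
    rw [eq_neg_iff_add_eq_zero]; exact h2
  rw [h3, inner_neg_right]
  simp only at this
  have h4 : ⟪u, w.fst⟫_ℂ + ⟪v, w.snd⟫_ℂ = 0 := this
  linear_combination -h4

theorem normalOp_symm {T : H →ₗ.[ℂ] K} (hT : Dense (T.domain : Set H)) {x y x' y' : H}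
    (h : (x, y) ∈ (normalOp T).graph) (h' : (x', y') ∈ (normalOp T).graph) :
    ⟪y, x'⟫_ℂ = ⟪x, y'⟫_ℂ := by
  obtain ⟨z, h1, h2⟩ := mem_normalOp_graph.1 h
  obtain ⟨z', h1', h2'⟩ := mem_normalOp_graph.1 h'
  have e1 := (adjoint_graph_iff hT).1 h2' _ _ h1
  have e2 := (adjoint_graph_iff hT).1 h2 _ _ h1'
  rw [← e1, ← inner_conj_symm, ← e2, inner_conj_symm]

theorem normalOp_nonneg {T : H →ₗ.[ℂ] K} (hT : Dense (T.domain : Set H)) {x y : H}
    (h : (x, y) ∈ (normalOp T).graph) : 0 ≤ (⟪x, y⟫_ℂ).re := by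
  obtain ⟨z, h1, h2⟩ := mem_normalOp_graph.1 h
  have e1 := (adjoint_graph_iff hT).1 h2 _ _ h1
  rw [← e1]
  exact inner_self_nonneg (𝕜 := ℂ)

/-- A symmetric nonnegative operator `Δ` with `1 + Δ` onto is self-adjoint. -/
theorem isSelfAdjoint_of_surj {Δ : H →ₗ.[ℂ] H}
    (symm : ∀ {x y x' y'}, (x, y) ∈ Δ.graph → (x', y') ∈ Δ.graph → ⟪y, x'⟫_ℂ = ⟪x, y'⟫_ℂ)
    (nonneg : ∀ {x y}, (x, y) ∈ Δ.graph → 0 ≤ (⟪x, y⟫_ℂ).re)
    (surj : ∀ h, ∃ x y, (x, y) ∈ Δ.graph ∧ x + y = h) : IsSelfAdjoint Δ := by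
  have hdense : Dense (Δ.domain : Set H) := by
    rw [Submodule.dense_iff_topologicalClosure_eq_top, Submodule.topologicalClosure_eq_top_iff,
      Submodule.eq_bot_iff]
    intro v hv
    obtain ⟨x, y, hxy, hv'⟩ := surj v
    have hx : x ∈ Δ.domain := LinearPMap.mem_domain_of_mem_graph hxy
    have h0 := (Submodule.mem_orthogonal _ _).1 hv x hx
    rw [← hv', inner_add_right] at h0
    have h1 := nonneg hxy
    have h2 : (⟪x, x⟫_ℂ).re + (⟪x, y⟫_ℂ).re = 0 := by
      rw [← Complex.add_re, h0]; rfl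
    have h3 : (⟪x, x⟫_ℂ).re = ‖x‖ ^ 2 := by
      rw [inner_self_eq_norm_sq_to_K]; norm_cast
    have h4 : ‖x‖ ^ 2 = 0 := by nlinarith [sq_nonneg ‖x‖]
    have h5 : x = 0 := by simpa using h4
    subst h5
    have : y = 0 := LinearPMap.graph_fst_eq_zero_snd _ hxy rfl
    rw [← hv', this, add_zero]
  rw [LinearPMap.isSelfAdjoint_def]
  apply LinearPMap.eq_of_eq_graph
  ext ⟨z, y⟩
  rw [adjoint_graph_iff hdense]
  constructor
  · intro h
    obtain ⟨x, y', hxy, hs⟩ := surj (z + y)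
    have hzx : z - x = 0 := by
      obtain ⟨u, v, huv, hs'⟩ := surj (z - x)
      have e1 := h u v huv
      have e2 := symm huv hxy
      have : ⟪z - x, z - x⟫_ℂ = 0 := by
        nth_rewrite 1 [← hs']
        have hy : y' = z + y - x := by rw [← hs]; abel
        rw [hy] at e2
        rw [inner_add_left, inner_sub_right, inner_sub_right, e1, e2, inner_sub_right,
          inner_add_right]
        ring
      simpa using this
    rw [sub_eq_zero] at hzx
    subst hzx
    have : y = y' := by simpa using hs.symm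
    rw [this]
    exact hxy
  · intro h u w huw
    exact symm huw h

theorem isSelfAdjoint_normalOp {T : H →ₗ.[ℂ] K} (hT : Dense (T.domain : Set H))
    (hc : T.IsClosed) : IsSelfAdjoint (normalOp T) :=
  isSelfAdjoint_of_surj (normalOp_symm hT) (normalOp_nonneg hT) (one_add_normalOp_surj hT hc)

end Pool.Agent.Lib.MP_58f2bb_an
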