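import Pool.Agent.Lib.MP_58f2bb_an.Limit
import Pool.Agent.Lib.MP_58f2bb_an.Unbounded

/-!
# Free difference quotients in the limit
-/

noncomputable section

set_option linter.unusedSectionVars false
set_option linter.unusedVariables false
set_option linter.unusedSimpArgs false

open scoped TensorProduct InnerProductSpace ComplexConjugate Topology ENNReal
open MeasureTheory Filter

namespace Pool.Agent.Lib.MP_58f2bb_an

variable {m : ℕ} [NeZero m]

/-! ### The formal adjoint -/

/-- slice on the right. -/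
def slR : NCPoly m ⊗[ℂ] NCPoly m →ₗ[ℂ] NCPoly m :=
  (TensorProduct.rid ℂ (NCPoly m)).toLinearMap ∘ₗ TensorProduct.map LinearMap.id tau

/-- slice on the left. -/
def slL : NCPoly m ⊗[ℂ] NCPoly m →ₗ[ℂ] NCPoly m :=
  (TensorProduct.lid ℂ (NCPoly m)).toLinearMap ∘ₗ TensorProduct.map tau LinearMap.id

theorem slR_tmul (p q : NCPoly m) : slR (p ⊗ₜ q) = tau q • p := by simp [slR]

theorem slL_tmul (p q : NCPoly m) : slL (p ⊗ₜ q) = tau p • q := by simp [slL]

/-- bilinear form of the adjoint. -/
def dst₂ (i : Fin m) : NCPoly m →ₗ[ℂ] NCPoly m →ₗ[ℂ] NCPoly m :=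
  LinearMap.mk₂ ℂ (fun u v => u * Jp i * v - slR (fdq i u) * v - u * slL (fdq i v))
    (fun u u' v => by simp only [add_mul, map_add]; abel)
    (fun c u v => by simp only [smul_mul_assoc, map_smul, smul_sub])
    (fun u v v' => by simp only [mul_add, map_add]; abel)
    (fun c u v => by simp only [mul_smul_comm, map_smul, smul_sub])

/-- the adjoint of the free difference quotient, on polynomials. -/
def dst (i : Fin m) : NCPoly m ⊗[ℂ] NCPoly m →ₗ[ℂ] NCPoly m := TensorProduct.lift (dst₂ i)

theorem dst_tmul (i : Fin m) (u v : NCPoly m) :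
    dst i (u ⊗ₜ v) = u * Jp i * v - slR (fdq i u) * v - u * slL (fdq i v) := by
  simp [dst, dst₂]

/-- auxiliary functional `a ⊗ b ↦ τ(v a) τ(b u)`. -/
def Ph (u v : NCPoly m) : NCPoly m ⊗[ℂ] NCPoly m →ₗ[ℂ] ℂ :=
  tt ∘ₗ TensorProduct.map (LinearMap.mulLeft ℂ v) (LinearMap.mulRight ℂ u)

theorem Ph_tmul (u v a b : NCPoly m) : Ph u v (a ⊗ₜ b) = tau (v * a) * tau (b * u) := by
  simp [Ph, tt_tmul]

theorem tt_slR (x : NCPoly m) (t : NCPoly m ⊗[ℂ] NCPoly m) :
    tt ((x ⊗ₜ 1) * t) = tau (x * slR t) := by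
  induction t using TensorProduct.induction_on with
  | zero => simp
  | tmul a b =>
    rw [Algebra.TensorProduct.tmul_mul_tmul, tt_tmul, slR_tmul, one_mul, mul_smul_comm, map_smul,
      smul_eq_mul, mul_comm]
  | add s t hs ht => rw [mul_add, map_add, hs, ht, map_add, mul_add, map_add]

theorem tt_slL (x : NCPoly m) (t : NCPoly m ⊗[ℂ] NCPoly m) :
    tt (t * (1 ⊗ₜ x)) = tau (slL t * x) := by
  induction t using TensorProduct.induction_on with
  | zero => simp
  | tmul a b =>
    rw [Algebra.TensorProduct.tmul_mul_tmul, tt_tmul, slL_tmul, mul_one, smul_mul_assoc, map_smul,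
      smul_eq_mul]
  | add s t hs ht => rw [add_mul, map_add, hs, ht, map_add, add_mul, map_add]

theorem tt_Ph (u v : NCPoly m) (t : NCPoly m ⊗[ℂ] NCPoly m) :
    tt ((v ⊗ₜ 1) * t * (1 ⊗ₜ u)) = Ph u v t := by
  induction t using TensorProduct.induction_on with
  | zero => simp
  | tmul a b =>
    rw [Algebra.TensorProduct.tmul_mul_tmul, Algebra.TensorProduct.tmul_mul_tmul, tt_tmul,
      Ph_tmul, mul_one, one_mul]
  | add s t hs ht => rw [mul_add, add_mul, map_add, hs, ht, map_add]

theorem Ph_fdq (i : Fin m) (u v w : NCPoly m) :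
    Ph u v (fdq i w) = tau (w * dst i (u ⊗ₜ v)) := by
  have h := sd i (v * w * u)
  rw [fdq_mul, fdq_mul, add_mul, map_add, map_add, tt_slR, tt_Ph, mul_assoc (fdq i v),
    Algebra.TensorProduct.tmul_mul_tmul, one_mul, tt_slL] at h
  rw [dst_tmul, mul_sub, mul_sub, map_sub, map_sub]
  have e1 : tau (w * (u * Jp i * v)) = tau (v * w * u * Jp i) := by
    rw [tau_comm w, mul_assoc _ v w, tau_comm, ← mul_assoc]
  have e2 : tau (w * (slR (fdq i u) * v)) = tau (v * w * slR (fdq i u)) := by
    rw [← mul_assoc, tau_comm, ← mul_assoc]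
  have e3 : tau (w * (u * slL (fdq i v))) = tau (slL (fdq i v) * (w * u)) := by
    rw [← mul_assoc, tau_comm]
  rw [e1, e2, e3, h]
  ring

theorem splits_reverse (i : Fin m) (w : List (Fin m)) :
    splits i w.reverse = ((splits i w).map fun s => (s.2.reverse, s.1.reverse)).reverse := by
  induction w with
  | nil => simp [splits]
  | cons j w ih =>
    rw [List.reverse_cons, splits_append, ih]
    simp only [splits, List.map_append, List.reverse_append, List.map_reverse, List.map_map,
      List.map_nil, List.append_nil]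
    congr 1
    · congr 1
      apply List.map_congr_left
      intro s _
      simp
    · split_ifs <;> simp

variable {H : Type*} [NormedAddCommGroup H] [InnerProductSpace ℂ H] [CompleteSpace H]

/-- limit triples, through their moments. -/
structure Good (a : Fin m → H →L[ℂ] H) (Ω : H) : Prop where
  selfAdjoint : ∀ i, IsSelfAdjoint (a i)
  cyclic : Dense (Set.range fun p : NCPoly m => ev a p Ω)
  moments : ∀ p, ⟪Ω, ev a p Ω⟫_ℂ = tau p

theorem IsLimit.good {a : Fin m → H →L[ℂ] H} {Ω : H} (h : IsLimit (crit m) a Ω) : Good a Ω where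
  selfAdjoint := h.selfAdjoint
  cyclic := h.cyclic
  moments p := tau_unique h.converges p

theorem Good.isLimit {a : Fin m → H →L[ℂ] H} {Ω : H} (h : Good a Ω) : IsLimit (crit m) a Ω where
  selfAdjoint := h.selfAdjoint
  norm_one := by
    have h1 := h.moments 1
    rw [map_one, tau_one, one_apply_eq_self] at h1
    have h2 : ‖Ω‖ ^ 2 = 1 := by
      rw [← inner_self_eq_norm_sq (𝕜 := ℂ), h1]; simp
    nlinarith [norm_nonneg Ω]
  cyclic := h.cyclic
  tracial p q := by rw [h.moments, h.moments, tau_comm]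
  converges := by
    have : (fun q => ⟪Ω, ev a q Ω⟫_ℂ) = tau (m := m) := funext h.moments
    rw [this]
    exact modelConverges

variable {a : Fin m → H →L[ℂ] H} {Ω : H}

theorem Good.inner_cls (h : Good a Ω) (p q : NCPoly m) :
    ⟪cls a Ω p, cls a Ω q⟫_ℂ = tau (adj p * q) := by
  have h1 : ev a (adj p) = star (ev a p) := ev_adj a (fun i => h.selfAdjoint i) p
  rw [← h.moments, map_mul, h1, mul_apply_eq_comp,
    ContinuousLinearMap.star_eq_adjoint, ContinuousLinearMap.adjoint_inner_right]
  rfl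

omit [NeZero m] in
theorem cls₂_tmul (p q : NCPoly m) :
    cls₂ a Ω (p ⊗ₜ q) = ((cls a Ω p ⊗ₜ[ℂ] cls a Ω q : H ⊗[ℂ] H) : HTensor H) := rfl

theorem Good.inner_cls₂ (h : Good a Ω) (p q u v : NCPoly m) :
    ⟪cls₂ a Ω (p ⊗ₜ q), cls₂ a Ω (u ⊗ₜ v)⟫_ℂ = tau (adj p * u) * tau (adj q * v) := by
  rw [cls₂_tmul, cls₂_tmul, UniformSpace.Completion.inner_coe, TensorProduct.inner_tmul,
    h.inner_cls, h.inner_cls]

/-- pairing of free difference quotients with elementary tensors. -/
theorem Good.inner_fdq_tmul (h : Good a Ω) (i : Fin m) (p u v : NCPoly m) :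
    ⟪cls₂ a Ω (fdq i p), cls₂ a Ω (u ⊗ₜ v)⟫_ℂ = Ph u v (fdq i (adj p)) := by
  induction p using lm_induction with
  | zero => simp [adj_zero]
  | add p q hp hq => rw [map_add, map_add, inner_add_left, hp, hq, adj_add, map_add, map_add]
  | smul c w =>
    rw [map_smul, map_smul, inner_smul_left, adj_smul, map_smul, map_smul, smul_eq_mul]
    congr 1
    rw [adj_lm, fdq_lm, fdq_lm, splits_reverse, List.map_reverse, List.sum_reverse,
      List.map_map, map_list_sum, map_list_sum, List.map_map, List.map_map]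
    generalize splits i w = L
    induction L with
    | nil => simp
    | cons s L ih =>
      rw [List.map_cons, List.sum_cons, inner_add_left, ih, List.map_cons, List.sum_cons]
      congr 1
      simp only [Function.comp]
      rw [h.inner_cls₂, Ph_tmul, adj_lm, adj_lm, tau_comm (lm s.2.reverse) v, mul_comm]

theorem Good.inner_fdq (h : Good a Ω) (i : Fin m) (p : NCPoly m) (t : NCPoly m ⊗[ℂ] NCPoly m) :
    ⟪cls₂ a Ω (fdq i p), cls₂ a Ω t⟫_ℂ = ⟪cls a Ω p, cls a Ω (dst i t)⟫_ℂ := by
  induction t using TensorProduct.induction_on with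
  | zero => simp
  | tmul u v => rw [h.inner_fdq_tmul, Ph_fdq, h.inner_cls]
  | add s t hs ht => rw [map_add, inner_add_right, hs, ht, map_add, map_add, inner_add_right]

/-! ### Density -/

theorem Good.dense_cls (h : Good a Ω) : Dense (Set.range (cls a Ω)) := h.cyclic

theorem Good.dense_cls₂ (h : Good a Ω) : Dense (Set.range (cls₂ a Ω)) := by
  -- the closure of the range is a closed subspace
  set K : Submodule ℂ (HTensor H) := (LinearMap.range (cls₂ a Ω)).topologicalClosure with hK
  have hKc : IsClosed (K : Set (HTensor H)) := Submodule.isClosed_topologicalClosure _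
  have h0 : ∀ p q : NCPoly m, ((cls a Ω p ⊗ₜ[ℂ] cls a Ω q : H ⊗[ℂ] H) : HTensor H) ∈ K := by
    intro p q
    apply Submodule.le_topologicalClosure
    exact ⟨p ⊗ₜ q, rfl⟩
  have hcont1 : ∀ y : H, Continuous fun x : H => ((x ⊗ₜ[ℂ] y : H ⊗[ℂ] H) : HTensor H) := by
    intro y
    refine (UniformSpace.Completion.continuous_coe _).comp ?_
    exact ((TensorProduct.mk ℂ H H).flip y).mkContinuous ‖y‖ (fun x => by
      simp [mul_comm]) |>.continuous
  have hcont2 : ∀ x : H, Continuous fun y : H => ((x ⊗ₜ[ℂ] y : H ⊗[ℂ] H) : HTensor H) := by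
    intro x
    refine (UniformSpace.Completion.continuous_coe _).comp ?_
    exact ((TensorProduct.mk ℂ H H) x).mkContinuous ‖x‖ (fun y => by
      simp) |>.continuous
  have h1 : ∀ (x : H) (q : NCPoly m), ((x ⊗ₜ[ℂ] cls a Ω q : H ⊗[ℂ] H) : HTensor H) ∈ K := by
    intro x q
    have := (hKc.preimage (hcont1 (cls a Ω q)))
    have h2 : (Set.univ : Set H) ⊆
        (fun x : H => ((x ⊗ₜ[ℂ] cls a Ω q : H ⊗[ℂ] H) : HTensor H)) ⁻¹' K := by
      rw [← h.dense_cls.closure_eq]
      apply closure_minimal _ this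
      rintro _ ⟨p, rfl⟩
      exact h0 p q
    exact h2 (Set.mem_univ x)
  have h2 : ∀ (x y : H), ((x ⊗ₜ[ℂ] y : H ⊗[ℂ] H) : HTensor H) ∈ K := by
    intro x y
    have := (hKc.preimage (hcont2 x))
    have h2 : (Set.univ : Set H) ⊆
        (fun y : H => ((x ⊗ₜ[ℂ] y : H ⊗[ℂ] H) : HTensor H)) ⁻¹' K := by
      rw [← h.dense_cls.closure_eq]
      apply closure_minimal _ this
      rintro _ ⟨q, rfl⟩
      exact h1 x q
    exact h2 (Set.mem_univ y)
  have h3 : ∀ t : H ⊗[ℂ] H, (t : HTensor H) ∈ K := by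
    intro t
    induction t using TensorProduct.induction_on with
    | zero => rw [UniformSpace.Completion.coe_zero]; exact K.zero_mem
    | tmul x y => exact h2 x y
    | add s t hs ht => rw [UniformSpace.Completion.coe_add]; exact K.add_mem hs ht
  have h4 : (K : Set (HTensor H)) = Set.univ := by
    apply Set.eq_univ_of_univ_subset
    rw [← (UniformSpace.Completion.denseRange_coe (α := H ⊗[ℂ] H)).closure_eq]
    apply closure_minimal _ hKc
    rintro _ ⟨t, rfl⟩
    exact h3 t
  rw [dense_iff_closure_eq]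
  have h5 : closure (Set.range (cls₂ a Ω)) = (K : Set (HTensor H)) := by
    rw [hK, Submodule.topologicalClosure_coe, LinearMap.coe_range]
  rw [h5, h4]

end Pool.Agent.Lib.MP_58f2bb_an
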