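import Pool.Agent.Lib.MP_58f2bb_an.Moments

/-!
# Uniform bounds for expectations of trace polynomials
-/

noncomputable section

set_option linter.unusedSectionVars false
set_option linter.unusedVariables false
set_option linter.unusedSimpArgs false

open scoped TensorProduct InnerProductSpace ComplexConjugate Topology ENNReal
open MeasureTheory Filter

namespace Pool.Agent.Lib.MP_58f2bb_an

variable {m n : ℕ} [NeZero m]

theorem Mo_zero (hn : 1 ≤ n) : Mo m n 0 = 1 := by
  have := isProbability_law (m := m) hn
  simp [Mo, mk_zero hn]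

theorem Mo_two_le (hn : 1 ≤ n) : Mo m n 2 ≤ 5 / 2 := by
  have := isProbability_law (m := m) hn
  have h1 := Mo_rec (m := m) hn 1
  have h2 : Mo m n 2 ≤ Mo m n 4 / 4 + 1 := by
    unfold Mo
    rw [← integral_div]
    have h3 : ∫ x, (mk x 4 / 4 + 1) ∂(law (crit m) n) = ∫ x, mk x 4 / 4 ∂(law (crit m) n) + 1 := by
      rw [integral_add ((integrable_mk hn 4).div_const 4) (integrable_const _)]
      simp
    rw [← h3]
    exact integral_mono (integrable_mk hn 2) (((integrable_mk hn 4).div_const 4).add
      (integrable_const _)) fun x => mk_two_le hn x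
  norm_num [mk_zero hn] at h1
  rw [h1] at h2
  linarith

theorem int_mk_mul_le (hn : 1 ≤ n) (i j l : ℕ) (h : i + j = 2 * l) :
    ∫ x, mk x i * mk x j ∂(law (crit m) n) ≤ Mo m n (2 * l) := by
  unfold Mo
  refine integral_mono (integrable_mk_mul hn i j) (integrable_mk hn _) fun x => ?_
  calc mk x i * mk x j ≤ |mk x i * mk x j| := le_abs_self _
    _ = |mk x i| * |mk x j| := abs_mul _ _
    _ ≤ ak x i * ak x j := mul_le_mul (abs_mk_le x i) (abs_mk_le x j) (abs_nonneg _)
        (ak_nonneg _ _)
    _ ≤ ak x (i + j) := ak_mul_le hn x i j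
    _ = mk x (2 * l) := by rw [h, ak_even]

theorem Mo_bdd (l : ℕ) : ∃ C : ℝ, ∀ n, 1 ≤ n → Mo m n (2 * l) ≤ C := by
  induction l using Nat.strong_induction_on with
  | _ l ih =>
    rcases l with _ | _ | l
    · exact ⟨1, fun n hn => by simp [Mo_zero hn]⟩
    · exact ⟨5 / 2, fun n hn => Mo_two_le hn⟩
    · obtain ⟨C1, h1⟩ := ih (l + 1) (by omega)
      obtain ⟨C0, h0⟩ := ih l (by omega)
      refine ⟨2 * C1 + (2 * l + 1 : ℕ) * C0, fun n hn => ?_⟩
      have h2 := Mo_rec (m := m) hn (2 * l + 1)
      rw [show 2 * (l + 1 + 1) = 2 * l + 1 + 3 by ring, h2]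
      have h3 := h1 n hn
      rw [show 2 * (l + 1) = 2 * l + 1 + 1 by ring] at h3
      have h4 : ∑ j ∈ Finset.range (2 * l + 1),
          ∫ x, mk x j * mk x (2 * l + 1 - 1 - j) ∂(law (crit m) n) ≤
          ∑ j ∈ Finset.range (2 * l + 1), C0 := by
        apply Finset.sum_le_sum
        intro j hj
        rw [Finset.mem_range] at hj
        exact (int_mk_mul_le hn _ _ l (by omega)).trans (h0 n hn)
      rw [Finset.sum_const, Finset.card_range, nsmul_eq_mul] at h4
      linarith

/-- bounded expectation. -/
def Bdd (F : TP m) : Prop := ∃ C : ℝ, ∀ n, 1 ≤ n → ‖Ex m n (fun x => tpe x F)‖ ≤ C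

theorem Bdd.zero : Bdd (0 : TP m) := ⟨0, fun n hn => by simp [Ex]⟩

theorem Bdd.add {F G : TP m} (hF : Bdd F) (hG : Bdd G) : Bdd (F + G) := by
  obtain ⟨C, hC⟩ := hF
  obtain ⟨D, hD⟩ := hG
  refine ⟨C + D, fun n hn => ?_⟩
  simp only [map_add]
  rw [Ex_add hn (PG.tpe F) (PG.tpe G)]
  exact (norm_add_le _ _).trans (add_le_add (hC n hn) (hD n hn))

theorem Bdd.smul {F : TP m} (c : ℂ) (hF : Bdd F) : Bdd (c • F) := by
  obtain ⟨C, hC⟩ := hF
  refine ⟨‖c‖ * C, fun n hn => ?_⟩
  simp only [map_smul, smul_eq_mul]
  rw [Ex_const_mul, norm_mul]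
  exact mul_le_mul_of_nonneg_left (hC n hn) (norm_nonneg _)

theorem Bdd.listSum {ι : Type*} (l : List ι) {f : ι → TP m} (h : ∀ i ∈ l, Bdd (f i)) :
    Bdd (l.map f).sum := by
  induction l with
  | nil => simpa using Bdd.zero
  | cons a l ih =>
    rw [List.map_cons, List.sum_cons]
    exact (h a (by simp)).add (ih fun i hi => h i (by simp [hi]))

/-- product of traces of a list of words. -/
def TL (L : List (List (Fin m))) : TP m := (L.map MvPolynomial.X).prod

theorem TL_cons (w : List (Fin m)) (L : List (List (Fin m))) :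
    TL (w :: L) = MvPolynomial.X w * TL L := by simp [TL]

/-- number of letters different from `0`. -/
def cnt (w : List (Fin m)) : ℕ := w.countP (fun j => j ≠ 0)

/-- total number of letters different from `0`. -/
def cntL (L : List (List (Fin m))) : ℕ := (L.map cnt).sum

theorem cnt_append (u w : List (Fin m)) : cnt (u ++ w) = cnt u + cnt w := by
  simp [cnt, List.countP_append]

theorem cnt_cons_ne {i : Fin m} (hi : i ≠ 0) (w : List (Fin m)) :
    cnt (i :: w) = cnt w + 1 := by
  simp [cnt, List.countP_cons, hi]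

theorem cnt_cons_le (i : Fin m) (w : List (Fin m)) : cnt w ≤ cnt (i :: w) := by
  simp [cnt, List.countP_cons]

theorem cntL_cons (w : List (Fin m)) (L : List (List (Fin m))) :
    cntL (w :: L) = cnt w + cntL L := by simp [cntL]

theorem eq_replicate_of_cnt {w : List (Fin m)} (h : cnt w = 0) :
    w = List.replicate w.length 0 := by
  rw [List.eq_replicate_iff]
  refine ⟨rfl, fun b hb => ?_⟩
  rw [cnt, List.countP_eq_zero] at h
  simpa using h b hb

/-- span of products of traces with at most `d` letters different from `0`. -/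
def Sp (m d : ℕ) [NeZero m] : Submodule ℂ (TP m) :=
  Submodule.span ℂ {F | ∃ L, cntL L ≤ d ∧ F = TL L}

theorem TL_mem {L : List (List (Fin m))} {d : ℕ} (h : cntL L ≤ d) : TL L ∈ Sp m d :=
  Submodule.subset_span ⟨L, h, rfl⟩

theorem X_mul_mem {F : TP m} {d : ℕ} (hF : F ∈ Sp m d) {w : List (Fin m)} {e : ℕ}
    (h : cnt w + d ≤ e) : MvPolynomial.X w * F ∈ Sp m e := by
  induction hF using Submodule.span_induction with
  | mem F hF =>
    obtain ⟨L, hL, rfl⟩ := hF
    rw [← TL_cons]
    exact TL_mem (by rw [cntL_cons]; omega)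
  | zero => rw [mul_zero]; exact Submodule.zero_mem _
  | add F G _ _ hF hG => rw [mul_add]; exact Submodule.add_mem _ hF hG
  | smul c F _ hF => rw [mul_smul_comm]; exact Submodule.smul_mem _ _ hF

theorem Gam_mem (i : Fin m) (w : List (Fin m)) (L : List (List (Fin m))) :
    Gam i w (TL L) ∈ Sp m (cnt w + cntL L) := by
  induction L with
  | nil =>
    have : (TL [] : TP m) = 1 := by simp [TL]
    rw [this, Derivation.map_one_eq_zero]
    exact Submodule.zero_mem _
  | cons w' L ih =>
    rw [TL_cons, Derivation.leibniz, Gam, MvPolynomial.mkDerivation_X, smul_eq_mul, smul_eq_mul]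
    apply Submodule.add_mem
    · exact X_mul_mem ih (by rw [cntL_cons]; omega)
    · rw [mul_comm, ← List.sum_map_mul_right]
      apply list_sum_mem
      intro F hF
      rw [List.mem_map] at hF
      obtain ⟨s, hs, rfl⟩ := hF
      have h1 := splits_spec i w' hs
      rw [← TL_cons]
      apply TL_mem
      have h2 : cnt w' = cnt s.1 + cnt (i :: s.2) := by
        conv_lhs => rw [h1]
        exact cnt_append _ _
      have h3 := cnt_cons_le i s.2
      rw [cntL_cons, cntL_cons, cnt_append, cnt_append]
      omega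

theorem tpe_TL_perm (x : Coord m n) {L L' : List (List (Fin m))} (h : L.Perm L') :
    TL L = TL L' := by
  unfold TL
  exact (h.map _).prod_eq

theorem tpe_X_rotate (x : Coord m n) (u v : List (Fin m)) :
    tpe x (MvPolynomial.X (u ++ v)) = tpe x (MvPolynomial.X (v ++ u)) := by
  rw [tpe_X, tpe_X, wv_append, wv_append, Matrix.trace_mul_comm]

/-- products of traces of words in the first letter. -/
theorem norm_tpe_TL_le (hn : 1 ≤ n) (x : Coord m n) (L : List (List (Fin m)))
    (h : cntL L = 0) : ‖tpe x (TL L)‖ ≤ ak x (L.map List.length).sum := by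
  induction L with
  | nil => simp [TL, ak_zero hn]
  | cons w L ih =>
    rw [cntL_cons] at h
    have h1 : cnt w = 0 := by omega
    have h2 := ih (by omega)
    rw [TL_cons, map_mul, norm_mul, List.map_cons, List.sum_cons]
    refine le_trans ?_ (ak_mul_le hn x _ _)
    gcongr
    · exact ak_nonneg _ _
    · rw [eq_replicate_of_cnt h1, tpe_replicate, Complex.norm_real, Real.norm_eq_abs,
        List.length_replicate]
      exact abs_mk_le x _

theorem Bdd_base (L : List (List (Fin m))) (h : cntL L = 0) : Bdd (TL L) := by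
  obtain ⟨C, hC⟩ := Mo_bdd (m := m) (L.map List.length).sum
  refine ⟨1 + C, fun n hn => ?_⟩
  have := isProbability_law (m := m) hn
  unfold Ex
  refine (norm_integral_le_integral_norm _).trans ?_
  have h1 : ∫ x, ‖tpe x (TL L)‖ ∂(law (crit m) n) ≤
      ∫ x, (1 + mk x (2 * (L.map List.length).sum)) ∂(law (crit m) n) := by
    refine integral_mono ((PG.tpe _).integrable_law hn).norm
      ((integrable_const _).add (integrable_mk hn _)) fun x => ?_
    exact (norm_tpe_TL_le hn x L h).trans (ak_le_one_add hn x _)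
  refine h1.trans ?_
  rw [integral_add (integrable_const _) (integrable_mk hn _)]
  simp only [integral_const, probReal_univ, smul_eq_mul, mul_one]
  have := hC n hn
  unfold Mo at this
  linarith

theorem exists_letter {L : List (List (Fin m))} (h : cntL L ≠ 0) :
    ∃ w L', L.Perm (w :: L') ∧ ∃ u i v, w = u ++ i :: v ∧ i ≠ 0 := by
  induction L with
  | nil => simp [cntL] at h
  | cons w L ih =>
    by_cases hw : cnt w = 0
    · rw [cntL_cons, hw, zero_add] at h
      obtain ⟨w', L', h1, h2⟩ := ih h
      exact ⟨w', w :: L', (h1.cons w).trans (List.Perm.swap _ _ _), h2⟩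
    · refine ⟨w, L, List.Perm.refl _, ?_⟩
      rw [cnt, List.countP_eq_zero] at hw
      push Not at hw
      obtain ⟨i, hi, hi'⟩ := hw
      obtain ⟨u, v, huv⟩ := List.append_of_mem hi
      exact ⟨u, i, v, huv, by simpa using hi'⟩

theorem cntL_perm {L L' : List (List (Fin m))} (h : L.Perm L') : cntL L = cntL L' :=
  (h.map _).sum_eq

theorem Bdd_TL (d : ℕ) : ∀ L : List (List (Fin m)), cntL L ≤ d → Bdd (TL L) := by
  induction d with
  | zero => exact fun L h => Bdd_base L (by omega)
  | succ d ih =>
    intro L hL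
    by_cases h0 : cntL L = 0
    · exact Bdd_base L h0
    have hspan : ∀ F ∈ Sp m d, Bdd F := by
      intro F hF
      induction hF using Submodule.span_induction with
      | mem F hF => obtain ⟨L, hL, rfl⟩ := hF; exact ih L hL
      | zero => exact Bdd.zero
      | add F G _ _ hF hG => exact hF.add hG
      | smul c F _ hF => exact hF.smul c
    obtain ⟨w, L', hperm, u, i, v, rfl, hi⟩ := exists_letter h0
    rw [tpe_TL_perm (m := m) (n := 0) 0 hperm]
    rw [cntL_perm hperm, cntL_cons, cnt_append, cnt_cons_ne hi] at hL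
    -- rotate
    have hrot : Bdd (MvPolynomial.X ((v ++ u) ++ [i]) * TL L' : TP m) →
        Bdd (TL ((u ++ i :: v) :: L')) := by
      rintro ⟨C, hC⟩
      refine ⟨C, fun n hn => ?_⟩
      have e1 : (fun x : Coord m n => tpe x (TL ((u ++ i :: v) :: L'))) =
          fun x => tpe x (MvPolynomial.X ((v ++ u) ++ [i]) * TL L') := by
        ext x
        rw [TL_cons, map_mul, map_mul]
        congr 1
        have : u ++ i :: v = (u ++ [i]) ++ v := by simp
        rw [this, tpe_X_rotate, ← List.append_assoc]
      rw [e1]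
      exact hC n hn
    apply hrot
    set w' := v ++ u with hw'
    have hdel : (MvPolynomial.X (w' ++ [i]) * TL L' : TP m) = (1 / 2 : ℂ) • (del i w' * TL L' +
        ((splits i w').map fun s => (MvPolynomial.X s.1 * (MvPolynomial.X s.2 * TL L') : TP m)).sum) := by
      have e2 : ((splits i w').map fun s =>
          (MvPolynomial.X s.1 * (MvPolynomial.X s.2 * TL L') : TP m)).sum =
          ((splits i w').map fun s => (MvPolynomial.X s.1 * MvPolynomial.X s.2 : TP m)).sum *
            TL L' := by
        rw [← List.sum_map_mul_right]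
        congr 1
        apply List.map_congr_left
        intro s _
        ring
      rw [e2, del, if_neg hi, ← add_mul, sub_add_cancel, mul_assoc, ← smul_mul_assoc]
      rw [show (1 / 2 : ℂ) • (2 : TP m) = 1 by
        rw [MvPolynomial.smul_eq_C_mul, show (2 : TP m) = MvPolynomial.C 2 from
          (map_ofNat MvPolynomial.C 2).symm, ← map_mul]
        norm_num]
      rw [one_mul]
    rw [hdel]
    apply Bdd.smul
    apply Bdd.add
    · -- loop equation
      obtain ⟨C, hC⟩ := hspan (Gam i w' (TL L')) (by
        have := Gam_mem i w' L'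
        refine Submodule.span_mono ?_ this
        rintro F ⟨L, hL1, rfl⟩
        refine ⟨L, ?_, rfl⟩
        rw [hw', cnt_append] at hL1
        omega)
      refine ⟨C, fun n hn => ?_⟩
      rw [loop hn, norm_mul]
      have h1 : ‖(n : ℂ)⁻¹ ^ 2‖ ≤ 1 := by
        rw [norm_pow, norm_inv, Complex.norm_natCast]
        apply pow_le_one₀ (by positivity)
        apply inv_le_one_of_one_le₀
        exact_mod_cast hn
      have h2 := hC n hn
      calc _ ≤ 1 * ‖Ex m n (fun x => tpe x (Gam i w' (TL L')))‖ := by gcongr
        _ ≤ C := by rw [one_mul]; exact h2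
    · apply Bdd.listSum
      intro s hs
      rw [← TL_cons, ← TL_cons]
      apply ih
      have h1 := splits_spec i w' hs
      have h2 : cnt w' = cnt s.1 + cnt (i :: s.2) := by
        conv_lhs => rw [h1]
        exact cnt_append _ _
      have h3 := cnt_cons_le i s.2
      have h4 : cnt w' = cnt v + cnt u := by rw [hw', cnt_append]
      rw [cntL_cons, cntL_cons]
      omega

/-- Every trace polynomial has bounded expectation, uniformly in `n`. -/
theorem Bdd_all (F : TP m) : Bdd F := by
  have h : F ∈ Submodule.span ℂ (Set.range (TL (m := m))) := by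
    induction F using MvPolynomial.induction_on with
    | C a =>
      have : (MvPolynomial.C a : TP m) = a • TL [] := by
        simp [TL, MvPolynomial.smul_eq_C_mul]
      rw [this]
      exact Submodule.smul_mem _ _ (Submodule.subset_span ⟨[], rfl⟩)
    | add p q hp hq => exact Submodule.add_mem _ hp hq
    | mul_X p w hp =>
      induction hp using Submodule.span_induction with
      | mem F hF =>
        obtain ⟨L, rfl⟩ := hF
        rw [mul_comm, ← TL_cons]
        exact Submodule.subset_span ⟨_, rfl⟩
      | zero => rw [zero_mul]; exact Submodule.zero_mem _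
      | add F G _ _ hF hG => rw [add_mul]; exact Submodule.add_mem _ hF hG
      | smul c F _ hF => rw [smul_mul_assoc]; exact Submodule.smul_mem _ _ hF
  induction h using Submodule.span_induction with
  | mem F hF => obtain ⟨L, rfl⟩ := hF; exact Bdd_TL _ L le_rfl
  | zero => exact Bdd.zero
  | add F G _ _ hF hG => exact hF.add hG
  | smul c F _ hF => exact hF.smul c

/-! ### Conjugation and second moments -/

/-- formal conjugation of trace polynomials. -/
def stp (F : TP m) : TP m :=
  MvPolynomial.map (starRingEnd ℂ) (MvPolynomial.rename List.reverse F)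

theorem stp_add (F G : TP m) : stp (F + G) = stp F + stp G := by simp [stp]

theorem stp_mul (F G : TP m) : stp (F * G) = stp F * stp G := by simp [stp]

theorem stp_X (w : List (Fin m)) : stp (MvPolynomial.X w : TP m) = MvPolynomial.X w.reverse := by
  simp [stp]

theorem conjTranspose_wv (x : Coord m n) (w : List (Fin m)) :
    (wv (hermTuple x) w).conjTranspose = wv (hermTuple x) w.reverse := by
  induction w with
  | nil => simp
  | cons a w ih =>
    rw [wv_cons, Matrix.conjTranspose_mul, ih, (hermTuple_isHermitian x a).eq]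
    simp

theorem conj_tpe (x : Coord m n) (F : TP m) : conj (tpe x F) = tpe x (stp F) := by
  induction F using MvPolynomial.induction_on with
  | C a => simp [stp, tpe]
  | add p q hp hq => rw [map_add, map_add, stp_add, map_add, hp, hq]
  | mul_X p w hp =>
    rw [map_mul, map_mul, stp_mul, map_mul, hp, stp_X, tpe_X, tpe_X, ← conjTranspose_wv,
      Matrix.trace_conjTranspose]
    simp

theorem integrable_norm_sq (hn : 1 ≤ n) (F : TP m) :
    Integrable (fun x => ‖tpe x F‖ ^ 2) (law (crit m) n) := by
  have := ((PG.tpe (n := n) (F * stp F)).integrable_law hn).norm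
  refine this.congr (Filter.Eventually.of_forall fun x => ?_)
  simp only [map_mul, ← conj_tpe, norm_mul, RCLike.norm_conj, sq]

theorem int_norm_sq (hn : 1 ≤ n) (F : TP m) :
    ((∫ x, ‖tpe x F‖ ^ 2 ∂(law (crit m) n) : ℝ) : ℂ) = Ex m n (fun x => tpe x (F * stp F)) := by
  unfold Ex
  rw [← integral_complex_ofReal]
  congr 1
  ext x
  simp only
  rw [map_mul, ← conj_tpe, Complex.mul_conj']
  push_cast
  rfl

/-- second moments of trace polynomials are bounded. -/
theorem second_moment (F : TP m) : ∃ C : ℝ, ∀ n, 1 ≤ n →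
    ∫ x, ‖tpe x F‖ ^ 2 ∂(law (crit m) n) ≤ C := by
  obtain ⟨C, hC⟩ := Bdd_all (F * stp F)
  refine ⟨C, fun n hn => ?_⟩
  have h1 := hC n hn
  rw [← int_norm_sq hn, Complex.norm_real, Real.norm_eq_abs] at h1
  exact (le_abs_self _).trans h1

/-- the loop defects are small in `L²`. -/
theorem del_L2 (i : Fin m) (w : List (Fin m)) : ∃ C : ℝ, ∀ n : ℕ, 1 ≤ n →
    ∫ x, ‖tpe x (del i w)‖ ^ 2 ∂(law (crit m) n) ≤ C / n ^ 2 := by
  obtain ⟨C, hC⟩ := Bdd_all (Gam i w (stp (del i w)))
  refine ⟨C, fun n hn => ?_⟩
  have h1 := hC n hn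
  have h2 := int_norm_sq hn (del i w)
  rw [loop hn] at h2
  have h3 := congrArg norm h2
  rw [Complex.norm_real, Real.norm_eq_abs, norm_mul, norm_pow, norm_inv,
    Complex.norm_natCast] at h3
  calc _ ≤ |∫ x, ‖tpe x (del i w)‖ ^ 2 ∂(law (crit m) n)| := le_abs_self _
    _ = _ := h3
    _ ≤ (n : ℝ)⁻¹ ^ 2 * C := by gcongr
    _ = C / n ^ 2 := by rw [inv_pow]; ring

end Pool.Agent.Lib.MP_58f2bb_an
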