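import Pool.Agent.Lib.MP_58f2bb_an.Abstract

/-!
# Closability, conjugate variables, the free Laplacian
-/

noncomputable section

set_option linter.unusedSectionVars false
set_option linter.unusedVariables false
set_option linter.unusedSimpArgs false

open scoped TensorProduct InnerProductSpace ComplexConjugate Topology ENNReal LinearPMap
open MeasureTheory Filter

namespace Pool.Agent.Lib.MP_58f2bb_an

section General

variable {H K : Type*} [NormedAddCommGroup H] [InnerProductSpace ℂ H] [CompleteSpace H]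
  [NormedAddCommGroup K] [InnerProductSpace ℂ K] [CompleteSpace K]

theorem closure_pairing (G : Submodule ℂ (H × K)) {z : K} {y : H}
    (h : ∀ p ∈ G, ⟪p.2, z⟫_ℂ = ⟪p.1, y⟫_ℂ) {p : H × K} (hp : p ∈ G.topologicalClosure) :
    ⟪p.2, z⟫_ℂ = ⟪p.1, y⟫_ℂ := by
  have hc : IsClosed {p : H × K | ⟪p.2, z⟫_ℂ = ⟪p.1, y⟫_ℂ} :=
    isClosed_eq (by fun_prop) (by fun_prop)
  exact closure_minimal (s := (G : Set (H × K))) h hc hp

theorem graph_functional (G : Submodule ℂ (H × K)) (D : Set K)
    (hD : ∀ w, (∀ z ∈ D, ⟪w, z⟫_ℂ = 0) → w = 0)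
    (hadj : ∀ z ∈ D, ∃ y, ∀ p ∈ G, ⟪p.2, z⟫_ℂ = ⟪p.1, y⟫_ℂ) :
    ∀ p ∈ G.topologicalClosure, p.1 = 0 → p.2 = 0 := by
  intro p hp hp1
  apply hD
  intro z hz
  obtain ⟨y, hy⟩ := hadj z hz
  rw [closure_pairing G hy hp, hp1, inner_zero_left]

theorem closable_of_total (T : H →ₗ.[ℂ] K) (D : Set K)
    (hD : ∀ w, (∀ z ∈ D, ⟪w, z⟫_ℂ = 0) → w = 0)
    (hadj : ∀ z ∈ D, ∃ y, ∀ p ∈ T.graph, ⟪p.2, z⟫_ℂ = ⟪p.1, y⟫_ℂ) : T.IsClosable := by
  have h := graph_functional T.graph D hD hadj
  exact ⟨T.graph.topologicalClosure.toLinearPMap, (Submodule.toLinearPMap_graph_eq _ h).symm⟩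

end General

variable {m : ℕ} [NeZero m]
variable {H : Type*} [NormedAddCommGroup H] [InnerProductSpace ℂ H] [CompleteSpace H]
variable {a : Fin m → H →L[ℂ] H} {Ω : H}

theorem Good.total₂ (h : Good a Ω) (w : HTensor H) (hw : ∀ t, ⟪w, cls₂ a Ω t⟫_ℂ = 0) : w = 0 := by
  have hc : IsClosed {z : HTensor H | ⟪w, z⟫_ℂ = 0} := isClosed_eq (by fun_prop) (by fun_prop)
  have h1 : (Set.univ : Set (HTensor H)) ⊆ {z : HTensor H | ⟪w, z⟫_ℂ = 0} := by
    rw [← h.dense_cls₂.closure_eq]
    apply closure_minimal _ hc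
    rintro _ ⟨t, rfl⟩
    exact hw t
  have h2 := h1 (Set.mem_univ w)
  exact inner_self_eq_zero.1 h2

theorem Good.fdqGraph_functional (h : Good a Ω) (i : Fin m) :
    ∀ p ∈ (fdqGraph a Ω i).topologicalClosure, p.1 = 0 → p.2 = 0 := by
  apply graph_functional (fdqGraph a Ω i) (Set.range (cls₂ a Ω))
  · intro w hw
    exact h.total₂ w fun t => hw _ ⟨t, rfl⟩
  · rintro _ ⟨t, rfl⟩
    refine ⟨cls a Ω (dst i t), ?_⟩
    rintro _ ⟨p, rfl⟩
    exact h.inner_fdq i p t

theorem Good.graph_fdqOp (h : Good a Ω) (i : Fin m) : (fdqOp a Ω i).graph = fdqGraph a Ω i := by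
  apply Submodule.toLinearPMap_graph_eq
  intro p hp
  exact h.fdqGraph_functional i p (Submodule.le_topologicalClosure _ hp)

theorem Good.mem_graph_fdqOp (h : Good a Ω) (i : Fin m) (p : NCPoly m) :
    (cls a Ω p, cls₂ a Ω (fdq i p)) ∈ (fdqOp a Ω i).graph := by
  rw [h.graph_fdqOp]
  exact ⟨p, rfl⟩

theorem Good.domain_fdqOp (h : Good a Ω) (i : Fin m) :
    ((fdqOp a Ω i).domain : Set H) = Set.range (cls a Ω) := by
  ext x
  constructor
  · intro hx
    have h1 : x ∈ (fdqOp a Ω i).domain := hx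
    rw [LinearPMap.mem_domain_iff] at h1
    obtain ⟨y, hy⟩ := h1
    rw [h.graph_fdqOp] at hy
    obtain ⟨p, hp⟩ := hy
    exact ⟨p, congrArg Prod.fst hp⟩
  · rintro ⟨p, rfl⟩
    exact LinearPMap.mem_domain_of_mem_graph (h.mem_graph_fdqOp i p)

theorem Good.dense_domain (h : Good a Ω) (i : Fin m) :
    Dense ((fdqOp a Ω i).domain : Set H) := by
  rw [h.domain_fdqOp]; exact h.dense_cls

theorem Good.adjoint_iff (h : Good a Ω) (i : Fin m) {z : HTensor H} {y : H} :
    (z, y) ∈ (fdqOp a Ω i)†.graph ↔ ∀ p, ⟪cls₂ a Ω (fdq i p), z⟫_ℂ = ⟪cls a Ω p, y⟫_ℂ := by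
  rw [adjoint_graph_iff (h.dense_domain i)]
  constructor
  · intro h1 p
    exact h1 _ _ (h.mem_graph_fdqOp i p)
  · intro h1 u w huw
    rw [h.graph_fdqOp] at huw
    obtain ⟨p, hp⟩ := huw
    have e1 : cls a Ω p = u := congrArg Prod.fst hp
    have e2 : cls₂ a Ω (fdq i p) = w := congrArg Prod.snd hp
    rw [← e1, ← e2, h1]

theorem Good.mem_adjoint (h : Good a Ω) (i : Fin m) (t : NCPoly m ⊗[ℂ] NCPoly m) :
    (cls₂ a Ω t, cls a Ω (dst i t)) ∈ (fdqOp a Ω i)†.graph := by
  rw [h.adjoint_iff]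
  exact fun p => h.inner_fdq i p t

/-- the conjugate variables exist and are the cyclic gradients of the potential. -/
theorem Good.conjugate (h : Good a Ω) (i : Fin m) :
    (cls₂ a Ω (1 ⊗ₜ 1), cls a Ω (Jp i)) ∈ (fdqOp a Ω i)†.graph := by
  have := h.mem_adjoint i (1 ⊗ₜ 1)
  rw [dst_tmul, fdq_one, map_zero, map_zero] at this
  simpa using this

theorem Good.isClosable (h : Good a Ω) (i : Fin m) : (fdqOp a Ω i).IsClosable := by
  apply closable_of_total _ (Set.range (cls₂ a Ω))
  · intro w hw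
    exact h.total₂ w fun t => hw _ ⟨t, rfl⟩
  · rintro _ ⟨t, rfl⟩
    refine ⟨cls a Ω (dst i t), ?_⟩
    rw [h.graph_fdqOp]
    rintro _ ⟨p, rfl⟩
    exact h.inner_fdq i p t

/-! ### The gradient -/

/-- the gradient of a polynomial. -/
def gr (a : Fin m → H →L[ℂ] H) (Ω : H) (p : NCPoly m) : PiLp 2 fun _ : Fin m => HTensor H :=
  WithLp.toLp 2 fun i => cls₂ a Ω (fdq i p)

theorem mem_gradGraph_iff {x : H} {z : PiLp 2 fun _ : Fin m => HTensor H} :
    (x, z) ∈ gradGraph a Ω ↔ ∃ p, cls a Ω p = x ∧ gr a Ω p = z := by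
  constructor
  · rintro ⟨p, hp⟩
    exact ⟨p, congrArg Prod.fst hp, congrArg Prod.snd hp⟩
  · rintro ⟨p, rfl, rfl⟩
    exact ⟨p, rfl⟩

theorem Good.grad_pair (h : Good a Ω) (i : Fin m) (t : NCPoly m ⊗[ℂ] NCPoly m) :
    ∀ p ∈ gradGraph a Ω, ⟪p.2, WithLp.toLp 2 (Pi.single i (cls₂ a Ω t))⟫_ℂ =
      ⟪p.1, cls a Ω (dst i t)⟫_ℂ := by
  rintro _ ⟨p, rfl⟩
  rw [PiLp.inner_apply, Finset.sum_eq_single i]
  · simp only [Pi.single_eq_same]
    exact h.inner_fdq i p t
  · intro j _ hj
    simp only [Pi.single_eq_of_ne hj, inner_zero_right]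
  · intro hi; exact absurd (Finset.mem_univ i) hi

theorem Good.grad_total (h : Good a Ω) (w : PiLp 2 fun _ : Fin m => HTensor H)
    (hw : ∀ z ∈ Set.range fun s : Fin m × (NCPoly m ⊗[ℂ] NCPoly m) =>
      (WithLp.toLp 2 (Pi.single s.1 (cls₂ a Ω s.2)) : PiLp 2 fun _ : Fin m => HTensor H),
      ⟪w, z⟫_ℂ = 0) : w = 0 := by
  ext i
  refine h.total₂ (w i) fun t => ?_
  have := hw _ ⟨(i, t), rfl⟩
  rw [PiLp.inner_apply, Finset.sum_eq_single i] at this
  · simpa using this
  · intro j _ hj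
    simp only [Pi.single_eq_of_ne hj, inner_zero_right]
  · intro hi; exact absurd (Finset.mem_univ i) hi

theorem Good.gradGraph_functional (h : Good a Ω) :
    ∀ p ∈ (gradGraph a Ω).topologicalClosure, p.1 = 0 → p.2 = 0 := by
  apply graph_functional (gradGraph a Ω) _ h.grad_total
  rintro _ ⟨⟨i, t⟩, rfl⟩
  exact ⟨_, h.grad_pair i t⟩

theorem Good.graph_gradOp (h : Good a Ω) : (gradOp a Ω).graph = gradGraph a Ω := by
  apply Submodule.toLinearPMap_graph_eq
  intro p hp
  exact h.gradGraph_functional p (Submodule.le_topologicalClosure _ hp)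

theorem Good.closable_gradOp (h : Good a Ω) : (gradOp a Ω).IsClosable := by
  apply closable_of_total _ _ h.grad_total
  rintro _ ⟨⟨i, t⟩, rfl⟩
  refine ⟨cls a Ω (dst i t), ?_⟩
  rw [h.graph_gradOp]
  exact h.grad_pair i t

theorem Good.mem_graph_gradOp (h : Good a Ω) (p : NCPoly m) :
    (cls a Ω p, gr a Ω p) ∈ (gradOp a Ω).graph := by
  rw [h.graph_gradOp]
  exact mem_gradGraph_iff.2 ⟨p, rfl, rfl⟩

theorem Good.dense_gradOp (h : Good a Ω) :
    Dense ((gradOp a Ω).closure.domain : Set H) := by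
  refine h.dense_cls.mono ?_
  rintro _ ⟨p, rfl⟩
  have h1 : (cls a Ω p, gr a Ω p) ∈ (gradOp a Ω).closure.graph :=
    LinearPMap.le_graph_of_le (LinearPMap.le_closure _) (h.mem_graph_gradOp p)
  exact LinearPMap.mem_domain_of_mem_graph h1

/-- the free Laplacian is a positive self-adjoint operator agreeing with `∑ ∂_i* ∂_i`. -/
theorem Good.isFreeLaplacian (h : Good a Ω) : IsFreeLaplacian a Ω (freeLaplacian a Ω) where
  selfAdjoint := isSelfAdjoint_normalOp h.dense_gradOp h.closable_gradOp.closure_isClosed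
  nonneg x y hxy := normalOp_nonneg h.dense_gradOp hxy
  agrees p y hy := by
    rw [freeLaplacian, mem_normalOp_graph]
    have h1 : (cls a Ω p, gr a Ω p) ∈ (gradOp a Ω).closure.graph :=
      LinearPMap.le_graph_of_le (LinearPMap.le_closure _) (h.mem_graph_gradOp p)
    refine ⟨gr a Ω p, h1, ?_⟩
    rw [adjoint_graph_iff h.dense_gradOp]
    intro u w huw
    rw [← h.closable_gradOp.graph_closure_eq_closure_graph, h.graph_gradOp] at huw
    have h2 : ∀ s ∈ gradGraph a Ω, ⟪s.2, gr a Ω p⟫_ℂ = ⟪s.1, ∑ i, y i⟫_ℂ := by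
      rintro _ ⟨q, rfl⟩
      rw [PiLp.inner_apply, inner_sum]
      refine Finset.sum_congr rfl fun i _ => ?_
      exact (h.adjoint_iff i).1 (hy i) q
    have h3 := closure_pairing (gradGraph a Ω) (p := (u, w)) h2 huw
    exact h3

/-- the Laplacian on polynomials. -/
def Lp (p : NCPoly m) : NCPoly m := ∑ i, dst i (fdq i p)

theorem IsFreeLaplacian.mem_graph {Δ : H →ₗ.[ℂ] H} (hΔ : IsFreeLaplacian a Ω Δ) (h : Good a Ω)
    (p : NCPoly m) : (cls a Ω p, cls a Ω (Lp p)) ∈ Δ.graph := by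
  rw [Lp, map_sum]
  exact hΔ.agrees p _ fun i => h.mem_adjoint i (fdq i p)

theorem Good.energy (h : Good a Ω) (p : NCPoly m) :
    ⟪cls a Ω p, cls a Ω (Lp p)⟫_ℂ = ∑ i, ((‖cls₂ a Ω (fdq i p)‖ ^ 2 : ℝ) : ℂ) := by
  rw [Lp, map_sum, inner_sum]
  refine Finset.sum_congr rfl fun i _ => ?_
  rw [← h.inner_fdq, inner_self_eq_norm_sq_to_K]
  push_cast
  rfl

/-! ### No polynomial relations -/

theorem cls_eq_zero_fdq (h : Good a Ω) {q : NCPoly m} (hq : cls a Ω q = 0) (i : Fin m) :
    cls₂ a Ω (fdq i q) = 0 :=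
  LinearPMap.graph_fst_eq_zero_snd _ (hq ▸ h.mem_graph_fdqOp i q) rfl

omit [NeZero m] in
theorem basis_constr_lm {M : Type*} [AddCommGroup M] [Module ℂ M] (f : FreeMonoid (Fin m) → M)
    (w : List (Fin m)) :
    (MonoidAlgebra.basis (FreeMonoid (Fin m)) ℂ).constr ℂ f (lm w) = f (FreeMonoid.ofList w) := by
  have h1 : lm w = (MonoidAlgebra.basis (FreeMonoid (Fin m)) ℂ) (FreeMonoid.ofList w) := rfl
  rw [h1, Module.Basis.constr_basis]

/-- strip the first letter. -/
def strip (i : Fin m) : NCPoly m →ₗ[ℂ] NCPoly m :=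
  (MonoidAlgebra.basis (FreeMonoid (Fin m)) ℂ).constr ℂ fun w =>
    match w.toList with
    | [] => 0
    | j :: v => if j = i then lm v else 0

/-- constant coefficient. -/
def c0 : NCPoly m →ₗ[ℂ] ℂ :=
  (MonoidAlgebra.basis (FreeMonoid (Fin m)) ℂ).constr ℂ fun w =>
    match w.toList with
    | [] => 1
    | _ :: _ => 0

omit [NeZero m] in
theorem strip_nil (i : Fin m) : strip i (lm []) = 0 := by
  rw [strip, basis_constr_lm]; rfl

omit [NeZero m] in
theorem strip_cons (i j : Fin m) (v : List (Fin m)) :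
    strip i (lm (j :: v)) = if j = i then lm v else 0 := by
  rw [strip, basis_constr_lm]; rfl

omit [NeZero m] in
theorem c0_nil : c0 (lm ([] : List (Fin m))) = 1 := by
  rw [c0, basis_constr_lm]; rfl

omit [NeZero m] in
theorem c0_cons (j : Fin m) (v : List (Fin m)) : c0 (lm (j :: v)) = 0 := by
  rw [c0, basis_constr_lm]; rfl

omit [NeZero m] in
theorem strip_decomp (q : NCPoly m) : q = ∑ i, X i * strip i q + c0 q • 1 := by
  have h : (LinearMap.id : NCPoly m →ₗ[ℂ] NCPoly m) =
      ∑ i, (LinearMap.mulLeft ℂ (X i)) ∘ₗ strip i + (LinearMap.toSpanSingleton ℂ _ 1) ∘ₗ c0 := by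
    apply lm_ext
    intro w
    simp only [LinearMap.id_apply, LinearMap.add_apply, LinearMap.sum_apply, LinearMap.comp_apply,
      LinearMap.mulLeft_apply, LinearMap.toSpanSingleton_apply]
    rcases w with _ | ⟨j, v⟩
    · simp only [strip_nil, c0_nil, mul_zero, Finset.sum_const_zero, one_smul, zero_add]
      rfl
    · simp only [strip_cons, c0_cons, zero_smul, add_zero, mul_ite, mul_zero,
        Finset.sum_ite_eq, Finset.mem_univ, if_true]
      exact lm_cons j v
  have h2 := congrArg (fun f : NCPoly m →ₗ[ℂ] NCPoly m => f q) h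
  simpa only [LinearMap.id_apply, LinearMap.add_apply, LinearMap.sum_apply, LinearMap.comp_apply,
      LinearMap.mulLeft_apply, LinearMap.toSpanSingleton_apply] using h2

/-- polynomials of degree less than `d`. -/
def Vd (m d : ℕ) : Submodule ℂ (NCPoly m) := Submodule.span ℂ (lm '' {w | w.length < d})

omit [NeZero m] in
theorem lm_mem_Vd {w : List (Fin m)} {d : ℕ} (h : w.length < d) : lm w ∈ Vd m d :=
  Submodule.subset_span ⟨w, h, rfl⟩

omit [NeZero m] in
theorem map_Vd {M : Type*} [AddCommGroup M] [Module ℂ M] (f : NCPoly m →ₗ[ℂ] M) (d : ℕ)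
    (N : Submodule ℂ M) (h : ∀ w : List (Fin m), w.length < d → f (lm w) ∈ N) {q : NCPoly m}
    (hq : q ∈ Vd m d) : f q ∈ N := by
  have : Vd m d ≤ N.comap f := by
    rw [Vd, Submodule.span_le]
    rintro _ ⟨w, hw, rfl⟩
    exact h w hw
  exact this hq

omit [NeZero m] in
theorem strip_mem_Vd (i : Fin m) {d : ℕ} {q : NCPoly m} (hq : q ∈ Vd m (d + 1)) :
    strip i q ∈ Vd m d := by
  refine map_Vd (strip i) (d + 1) _ (fun w hw => ?_) hq
  rcases w with _ | ⟨j, v⟩
  · rw [strip_nil]; exact Submodule.zero_mem _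
  · rw [strip_cons]
    split_ifs
    · exact lm_mem_Vd (by simpa using hw)
    · exact Submodule.zero_mem _

/-- partial evaluation of the free difference quotient. -/
def rr (i : Fin m) (u : NCPoly m) : NCPoly m →ₗ[ℂ] NCPoly m :=
  slR ∘ₗ (LinearMap.mulLeft ℂ ((1 : NCPoly m) ⊗ₜ[ℂ] u)) ∘ₗ fdq i

theorem rr_lm (i : Fin m) (u : NCPoly m) (w : List (Fin m)) :
    rr i u (lm w) = ((splits i w).map fun s => tau (u * lm s.2) • lm s.1).sum := by
  simp only [rr, LinearMap.comp_apply, LinearMap.mulLeft_apply]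
  rw [fdq_lm, sum_map_mul_left', map_list_sum, List.map_map]
  apply list_sum_congr_map
  intro s
  simp only [Function.comp, Algebra.TensorProduct.tmul_mul_tmul, one_mul, slR_tmul]

theorem rr_mem_Vd (i : Fin m) (u : NCPoly m) {d : ℕ} {q : NCPoly m} (hq : q ∈ Vd m (d + 1)) :
    rr i u q ∈ Vd m d := by
  refine map_Vd (rr i u) (d + 1) _ (fun w hw => ?_) hq
  rw [rr_lm]
  have hmem : ∀ s ∈ splits i w, s.1.length < d := by
    intro s hs
    have h1 := splits_spec i w hs
    have h2 : w.length = s.1.length + (s.2.length + 1) := by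
      conv_lhs => rw [h1]
      simp
    omega
  generalize splits i w = L at hmem
  induction L with
  | nil => simp
  | cons s L ih =>
    rw [List.map_cons, List.sum_cons]
    exact Submodule.add_mem _ (Submodule.smul_mem _ _ (lm_mem_Vd (hmem s (by simp))))
      (ih fun s hs => hmem s (by simp [hs]))

theorem c0_rr (i : Fin m) (u q : NCPoly m) : c0 (rr i u q) = tau (u * strip i q) := by
  have h : c0 ∘ₗ rr i u = tau ∘ₗ (LinearMap.mulLeft ℂ u) ∘ₗ strip i := by
    apply lm_ext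
    intro w
    simp only [LinearMap.comp_apply, LinearMap.mulLeft_apply]
    rw [rr_lm]
    rcases w with _ | ⟨j, v⟩
    · simp [splits, strip_nil]
    · rw [strip_cons, splits, List.map_append, List.sum_append, map_add, List.map_map]
      have h0 : c0 (((splits i v).map ((fun s : List (Fin m) × List (Fin m) =>
          tau (u * lm s.2) • lm s.1) ∘ fun s => (j :: s.1, s.2))).sum) = 0 := by
        rw [map_list_sum, List.map_map]
        apply List.sum_eq_zero
        intro x hx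
        rw [List.mem_map] at hx
        obtain ⟨s, _, rfl⟩ := hx
        simp [c0_cons]
      rw [h0, add_zero]
      split_ifs with hj
      · simp [c0_nil]
      · simp
  exact congrArg (fun f : NCPoly m →ₗ[ℂ] ℂ => f q) h

theorem Good.inj_Vd (h : Good a Ω) (d : ℕ) : ∀ q ∈ Vd m d, cls a Ω q = 0 → q = 0 := by
  induction d with
  | zero =>
    intro q hq _
    have : Vd m 0 = ⊥ := by simp [Vd]
    rw [this, Submodule.mem_bot] at hq
    exact hq
  | succ d ih =>
    intro q hq h0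
    have h1 : ∀ i, strip i q = 0 := by
      intro i
      apply ih _ (strip_mem_Vd i hq)
      have h2 : ∀ u, tau (u * strip i q) = 0 := by
        intro u
        rw [← c0_rr]
        have h3 : rr i u q = 0 := by
          apply ih _ (rr_mem_Vd i u hq)
          refine inner_self_eq_zero (𝕜 := ℂ).1 ?_
          rw [h.inner_cls]
          simp only [rr, LinearMap.comp_apply, LinearMap.mulLeft_apply]
          rw [← tt_slR, ← mul_assoc, Algebra.TensorProduct.tmul_mul_tmul, mul_one, one_mul]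
          -- pairing with zero
          set r := adj ((slR (((1 : NCPoly m) ⊗ₜ[ℂ] u) * (fdq i) q))) with hr
          have h4 : ∀ t, tt ((r ⊗ₜ[ℂ] u) * t) = ⟪cls₂ a Ω (adj r ⊗ₜ adj u), cls₂ a Ω t⟫_ℂ := by
            intro t
            induction t using TensorProduct.induction_on with
            | zero => simp
            | tmul x y =>
              rw [h.inner_cls₂, Algebra.TensorProduct.tmul_mul_tmul, tt_tmul, adj_adj, adj_adj]
            | add s t hs ht => rw [mul_add, map_add, hs, ht, map_add, inner_add_right]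
          rw [h4, cls_eq_zero_fdq h h0, inner_zero_right]
        rw [h3, map_zero]
      refine inner_self_eq_zero (𝕜 := ℂ).1 ?_
      rw [h.inner_cls, h2]
    have h5 := strip_decomp q
    simp only [h1, mul_zero, Finset.sum_const_zero, zero_add] at h5
    have h6 : cls a Ω q = c0 q • Ω := by
      conv_lhs => rw [h5]
      rw [map_smul]
      congr 1
      change ev a 1 Ω = Ω
      rw [map_one, one_apply_eq_self]
    rw [h0] at h6
    have h7 : c0 q = 0 := by
      rcases smul_eq_zero.1 h6.symm with h8 | h8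
      · exact h8
      · have := h.isLimit.norm_one
        rw [h8] at this
        simp at this
    rw [h5, h7, zero_smul]

omit [NeZero m] in
theorem exists_mem_Vd (q : NCPoly m) : ∃ d, q ∈ Vd m d := by
  have hmono : ∀ {d e : ℕ}, d ≤ e → Vd m d ≤ Vd m e := by
    intro d e hde
    apply Submodule.span_mono
    apply Set.image_mono
    intro w hw
    exact lt_of_lt_of_le hw hde
  induction q using lm_induction with
  | zero => exact ⟨0, Submodule.zero_mem _⟩
  | add p q hp hq =>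
    obtain ⟨d, hd⟩ := hp
    obtain ⟨e, he⟩ := hq
    exact ⟨max d e, Submodule.add_mem _ (hmono (le_max_left _ _) hd)
      (hmono (le_max_right _ _) he)⟩
  | smul c w => exact ⟨w.length + 1, Submodule.smul_mem _ _ (lm_mem_Vd (Nat.lt_succ_self _))⟩

/-- There are no polynomial relations. -/
theorem Good.cls_injective (h : Good a Ω) {q : NCPoly m} (hq : cls a Ω q = 0) : q = 0 := by
  obtain ⟨d, hd⟩ := exists_mem_Vd q
  exact h.inj_Vd d q hd hq

theorem Good.no_relations (h : Good a Ω) {q : NCPoly m} (hq : ev a q = 0) : q = 0 := by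
  apply h.cls_injective
  change ev a q Ω = 0
  rw [hq]; rfl

end Pool.Agent.Lib.MP_58f2bb_an
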