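import Mathlib

/-!
# The discriminant argument
-/

noncomputable section

set_option linter.unusedSectionVars false
set_option linter.unusedVariables false
set_option linter.unusedSimpArgs false

open scoped ComplexConjugate Topology
open Filter Polynomial

namespace Pool.Agent.Lib.MP_58f2bb_an

/-- The polynomial `z^6 - 4 z^4 - 4 a z - c`. -/
def disc (a c : ℝ) (z : ℂ) : ℂ := z ^ 6 - 4 * z ^ 4 - 4 * a * z - c

/-- Nonreal zeros of `disc` are simple. -/
theorem disc_simple {a c : ℝ} {z : ℂ} (hz : z.im ≠ 0) (h0 : disc a c z = 0) :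
    6 * z ^ 5 - 16 * z ^ 3 - 4 * a ≠ 0 := by
  intro h1
  obtain ⟨u, v⟩ := z
  simp only at hz
  have h2 : -5 * (⟨u, v⟩ : ℂ) ^ 6 + 12 * (⟨u, v⟩ : ℂ) ^ 4 - c = 0 := by
    unfold disc at h0
    linear_combination h0 - (⟨u, v⟩ : ℂ) * h1
  have i1 := congrArg Complex.im h1
  have i2 := congrArg Complex.im h2
  simp only [pow_succ, pow_zero, one_mul, Complex.sub_im, Complex.add_im, Complex.mul_im,
    Complex.mul_re, Complex.neg_im, Complex.neg_re, Complex.ofReal_im, Complex.ofReal_re,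
    Complex.zero_im, Complex.re_ofNat, Complex.im_ofNat] at i1 i2
  have j1 : v * (6 * (5 * u ^ 4 - 10 * u ^ 2 * v ^ 2 + v ^ 4) - 16 * (3 * u ^ 2 - v ^ 2)) = 0 := by
    linear_combination i1
  have j2 : v * (u * (-5 * (6 * u ^ 4 - 20 * u ^ 2 * v ^ 2 + 6 * v ^ 4) +
      48 * (u ^ 2 - v ^ 2))) = 0 := by
    linear_combination i2
  have k1 := (mul_eq_zero.1 j1).resolve_left hz
  have k2 := (mul_eq_zero.1 j2).resolve_left hz
  have hv : 0 < v ^ 2 := by positivity
  rcases mul_eq_zero.1 k2 with hu | k3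
  · subst hu
    nlinarith
  · have k4 : v ^ 2 * (40 * u ^ 2 - 24 * v ^ 2 - 32) = 0 := by linear_combination k1 + k3
    have k5 := (mul_eq_zero.1 k4).resolve_left hv.ne'
    have k6 : u ^ 2 = (3 * v ^ 2 + 4) / 5 := by linarith
    have k7 : u ^ 4 = ((3 * v ^ 2 + 4) / 5) ^ 2 := by rw [← k6]; ring
    rw [k6, k7] at k1
    nlinarith [sq_nonneg (v ^ 2)]

/-- all complex roots are real. -/
def RR (p : ℝ[X]) : Prop := ∀ z : ℂ, aeval z p = 0 → z.im = 0

/-- Laguerre functional at zero. -/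
def Lag (p : ℝ[X]) : ℝ :=
  (derivative p).eval 0 ^ 2 - p.eval 0 * (derivative (derivative p)).eval 0

theorem lag_mul (r : ℝ) (q : ℝ[X]) :
    Lag ((X - C r) * q) = q.eval 0 ^ 2 + r ^ 2 * Lag q := by
  simp only [Lag, derivative_mul, derivative_sub, derivative_X, derivative_C, sub_zero, one_mul,
    derivative_add, eval_add, eval_mul, eval_sub, eval_X, eval_C, zero_sub]
  ring

theorem lag_nonneg (d : ℕ) : ∀ p : ℝ[X], p.natDegree = d → p ≠ 0 → RR p →
    0 ≤ Lag p ∧ (p.eval 0 ≠ 0 → d ≠ 0 → 0 < Lag p) := by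
  induction d with
  | zero =>
    intro p hd hp hr
    obtain ⟨c, hc⟩ := Polynomial.natDegree_eq_zero.1 hd
    subst hc
    simp [Lag]
  | succ d ih =>
    intro p hd hp hr
    have hdeg : (p.map (algebraMap ℝ ℂ)).degree ≠ 0 := by
      rw [degree_map]
      intro h
      rw [degree_eq_natDegree hp, hd] at h
      exact absurd h (by exact_mod_cast Nat.succ_ne_zero d)
    obtain ⟨z, hz⟩ := IsAlgClosed.exists_root _ hdeg
    have hz' : aeval z p = 0 := by
      rw [IsRoot, eval_map_algebraMap] at hz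
      exact hz
    have him := hr z hz'
    have hzr : z = ((z.re : ℝ) : ℂ) := by
      apply Complex.ext <;> simp [him]
    rw [hzr] at hz'
    have hroot : p.IsRoot z.re := by
      have h1 : aeval ((z.re : ℝ) : ℂ) p = ((p.eval z.re : ℝ) : ℂ) := by
        have := Polynomial.aeval_algebraMap_apply ℂ z.re p
        simpa using this
      rw [h1] at hz'
      exact_mod_cast hz'
    obtain ⟨q, hq⟩ := dvd_iff_isRoot.2 hroot
    have hq0 : q ≠ 0 := by
      rintro rfl
      rw [mul_zero] at hq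
      exact hp hq
    have hdq : q.natDegree = d := by
      have := natDegree_mul (X_sub_C_ne_zero z.re) hq0
      rw [← hq, hd, natDegree_X_sub_C] at this
      omega
    have hrq : RR q := by
      intro w hw
      apply hr w
      rw [hq, map_mul, hw, mul_zero]
    obtain ⟨h1, h2⟩ := ih q hdq hq0 hrq
    rw [hq, lag_mul]
    constructor
    · positivity
    · intro h3 _
      have h4 : q.eval 0 ≠ 0 := by
        intro h5
        apply h3
        rw [eval_mul, h5, mul_zero]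
      positivity

/-- the discriminant polynomial. -/
def Pd (a c : ℝ) : ℝ[X] := X ^ 6 - 4 * X ^ 4 - C (4 * a) * X - C c

theorem aeval_Pd (a c : ℝ) (z : ℂ) : aeval z (Pd a c) = disc a c z := by
  have h4 : aeval z (4 : ℝ[X]) = 4 := map_ofNat _ 4
  simp [Pd, disc, h4]

theorem natDegree_Pd (a c : ℝ) : (Pd a c).natDegree = 6 := by
  unfold Pd; compute_degree!

theorem derivative_Pd (a c : ℝ) : derivative (Pd a c) = 6 * X ^ 5 - 16 * X ^ 3 - C (4 * a) := by
  simp only [Pd, derivative_sub, derivative_mul, derivative_pow, derivative_X, derivative_C,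
    derivative_ofNat]
  simp only [map_mul, map_ofNat, Nat.cast_ofNat]
  norm_num
  ring

theorem natDegree_dPd (a c : ℝ) : (derivative (Pd a c)).natDegree = 5 := by
  rw [derivative_Pd]; compute_degree!

/-- If all the roots of the discriminant are real then `a = c = 0`. -/
theorem disc_real {a c : ℝ} (h : ∀ z : ℂ, disc a c z = 0 → z.im = 0) : a = 0 ∧ c = 0 := by
  have hRR : RR (Pd a c) := fun z hz => h z (by rwa [← aeval_Pd])
  have hP0 : Pd a c ≠ 0 := by
    intro h0
    have := natDegree_Pd a c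
    rw [h0] at this
    simp at this
  have hRR' : RR (derivative (Pd a c)) := by
    intro z hz
    have hd : 0 < ((Pd a c).map (algebraMap ℝ ℂ)).degree := by
      rw [degree_map, degree_eq_natDegree hP0, natDegree_Pd]
      norm_num
    have h1 := rootSet_derivative_subset_convexHull_rootSet hd
    have h2 : z ∈ (derivative ((Pd a c).map (algebraMap ℝ ℂ))).rootSet ℂ := by
      rw [mem_rootSet]
      constructor
      · rw [derivative_map]
        intro h3
        have h4 := natDegree_dPd a c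
        rw [Polynomial.map_eq_zero] at h3
        rw [h3] at h4
        simp at h4
      · rw [derivative_map, aeval_map_algebraMap]
        exact hz
    have h3 := h1 h2
    have h4 : ((Pd a c).map (algebraMap ℝ ℂ)).rootSet ℂ ⊆ {w : ℂ | w.im = 0} := by
      intro w hw
      rw [mem_rootSet, aeval_map_algebraMap] at hw
      exact hRR w hw.2
    have h5 : Convex ℝ {w : ℂ | w.im = 0} := by
      intro x hx y hy s t _ _ _
      simp only [Set.mem_ofPred_eq] at hx hy ⊢
      simp [hx, hy]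
    exact (convexHull_min h4 h5) h3
  have hD0 : derivative (Pd a c) ≠ 0 := by
    intro h0
    have := natDegree_dPd a c
    rw [h0] at this
    simp at this
  have ha : a = 0 := by
    by_contra ha
    have h1 := (lag_nonneg 5 _ (natDegree_dPd a c) hD0 hRR').2
    have h2 : (derivative (Pd a c)).eval 0 ≠ 0 := by
      rw [derivative_Pd]
      simp [ha]
    have h3 := h1 h2 (by norm_num)
    rw [Lag, derivative_Pd] at h3
    simp at h3
  refine ⟨ha, ?_⟩
  by_contra hc
  have h1 := (lag_nonneg 6 _ (natDegree_Pd a c) hP0 hRR).2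
  have h2 : (Pd a c).eval 0 ≠ 0 := by
    simp [Pd, hc]
  have h3 := h1 h2 (by norm_num)
  subst ha
  rw [Lag, derivative_Pd] at h3
  simp at h3

/-- `P'` (copy). -/
def dP' (z : ℂ) : ℂ := z ^ 3 - 2 * z

/-- The defect of abstract data. -/
def dd (G : ℂ → ℂ) (m1 m2 : ℝ) (z : ℂ) : ℂ :=
  G z ^ 2 - dP' z * G z + (z ^ 2 + z * m1 + m2 - 2)

/-- Lipschitz property of Stieltjes transforms. -/
def LipG (G : ℂ → ℂ) : Prop :=
  ∀ z w : ℂ, 0 < z.im → 0 < w.im → ‖G z - G w‖ ≤ ‖z - w‖ * (z.im⁻¹ * w.im⁻¹)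

theorem sq_identity (G : ℂ → ℂ) (m1 m2 : ℝ) (z : ℂ) :
    (dP' z - 2 * G z) ^ 2 = disc m1 (4 * (m2 - 2)) z + 4 * dd G m1 m2 z := by
  simp only [dP', disc, dd]
  push_cast
  ring

/-- The limit of data with vanishing defect. -/
theorem limit_data {ι : Type*} {l : Filter ι} [NeBot l] {G : ι → ℂ → ℂ} {m1 m2 : ι → ℝ} {a b : ℝ}
    (h1 : Tendsto m1 l (𝓝 a)) (h2 : Tendsto m2 l (𝓝 b)) (hG : ∀ i, LipG (G i))
    (hd : ∀ z : ℂ, 0 < z.im → Tendsto (fun i => dd (G i) (m1 i) (m2 i) z) l (𝓝 0)) :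
    a = 0 ∧ b = 2 := by
  have hlim : ∀ z : ℂ, 0 < z.im → Tendsto (fun i => (dP' z - 2 * G i z) ^ 2) l
      (𝓝 (disc a (4 * (b - 2)) z)) := by
    intro z hz
    have h3 : Tendsto (fun i => disc (m1 i) (4 * (m2 i - 2)) z + 4 * dd (G i) (m1 i) (m2 i) z) l
        (𝓝 (disc a (4 * (b - 2)) z + 4 * 0)) := by
      refine Tendsto.add ?_ ((hd z hz).const_mul 4)
      have c1 : Tendsto (fun i => ((m1 i : ℝ) : ℂ)) l (𝓝 (a : ℂ)) :=
        (Complex.continuous_ofReal.tendsto a).comp h1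
      have c2 : Tendsto (fun i => ((4 * (m2 i - 2) : ℝ) : ℂ)) l (𝓝 ((4 * (b - 2) : ℝ) : ℂ)) :=
        (Complex.continuous_ofReal.tendsto _).comp ((h2.sub_const 2).const_mul 4)
      unfold disc
      exact (tendsto_const_nhds.sub ((c1.const_mul 4).mul_const z)).sub c2
    rw [mul_zero, add_zero] at h3
    refine h3.congr fun i => ?_
    rw [sq_identity (G i)]
  have hreal : ∀ z : ℂ, 0 < z.im → disc a (4 * (b - 2)) z ≠ 0 := by
    intro z hz h0
    -- local Lipschitz bound
    have hC : ∃ K : ℝ, 0 ≤ K ∧ ∀ᶠ w in 𝓝 z, 0 < w.im ∧ ∀ i,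
        ‖(dP' w - 2 * G i w) - (dP' z - 2 * G i z)‖ ≤ K * ‖w - z‖ := by
      have hdp : HasDerivAt dP' (3 * z ^ 2 - 2) z := by
        have h3 : HasDerivAt dP' (((3 : ℕ) : ℂ) * z ^ (3 - 1) - 2 * 1) z :=
          (hasDerivAt_pow 3 z).sub ((hasDerivAt_id z).const_mul 2)
        exact h3.congr_deriv (by norm_num)
      have hO := hdp.isBigO_sub
      obtain ⟨K, hK, hb⟩ := hO.exists_nonneg
      refine ⟨K + 2 * ((z.im / 2)⁻¹ * z.im⁻¹), by positivity, ?_⟩
      have him : ∀ᶠ w in 𝓝 z, z.im / 2 < w.im :=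
        (Complex.continuous_im.tendsto z).eventually (lt_mem_nhds (by linarith))
      filter_upwards [him, hb.bound] with w hw hb
      have hw0 : 0 < w.im := by linarith
      refine ⟨hw0, fun i => ?_⟩
      have h3 := hG i w z hw0 hz
      have h4 : w.im⁻¹ ≤ (z.im / 2)⁻¹ := inv_anti₀ (by positivity) hw.le
      calc ‖(dP' w - 2 * G i w) - (dP' z - 2 * G i z)‖
          = ‖(dP' w - dP' z) - 2 * (G i w - G i z)‖ := by congr 1; ring
        _ ≤ ‖dP' w - dP' z‖ + ‖2 * (G i w - G i z)‖ := norm_sub_le _ _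
        _ ≤ K * ‖w - z‖ + 2 * (‖w - z‖ * (w.im⁻¹ * z.im⁻¹)) := by
            rw [norm_mul]
            have : ‖(2 : ℂ)‖ = 2 := by simp
            rw [this]
            gcongr
        _ ≤ K * ‖w - z‖ + 2 * (‖w - z‖ * ((z.im / 2)⁻¹ * z.im⁻¹)) := by gcongr
        _ = _ := by ring
    obtain ⟨K, hK, hev⟩ := hC
    have hz0 : Tendsto (fun i => ‖dP' z - 2 * G i z‖) l (𝓝 0) := by
      have h3 := (hlim z hz).norm
      rw [h0, norm_zero] at h3
      have h4 : Tendsto (fun i => Real.sqrt ‖(dP' z - 2 * G i z) ^ 2‖) l (𝓝 (Real.sqrt 0)) :=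
        (Real.continuous_sqrt.tendsto 0).comp h3
      rw [Real.sqrt_zero] at h4
      refine h4.congr fun i => ?_
      rw [norm_pow, Real.sqrt_sq (norm_nonneg _)]
    have hbound : ∀ᶠ w in 𝓝 z, ‖disc a (4 * (b - 2)) w‖ ≤ K ^ 2 * ‖w - z‖ ^ 2 := by
      filter_upwards [hev] with w hw
      have h3 := (hlim w hw.1).norm
      have h4 : Tendsto (fun i => (‖dP' z - 2 * G i z‖ + K * ‖w - z‖) ^ 2) l
          (𝓝 ((0 + K * ‖w - z‖) ^ 2)) := (hz0.add_const _).pow 2
      have h5 := le_of_tendsto_of_tendsto' h3 h4 fun i => by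
        rw [norm_pow]
        gcongr
        calc ‖dP' w - 2 * G i w‖ = ‖(dP' z - 2 * G i z) +
              ((dP' w - 2 * G i w) - (dP' z - 2 * G i z))‖ := by congr 1; ring
          _ ≤ _ := (norm_add_le _ _).trans (add_le_add le_rfl (hw.2 i))
      rw [zero_add, mul_pow] at h5
      exact h5
    have hder : HasDerivAt (disc a (4 * (b - 2))) 0 z := by
      rw [hasDerivAt_iff_isLittleO]
      simp only [h0, smul_zero, sub_zero]
      rw [Asymptotics.isLittleO_iff]
      intro ε hε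
      have h6 : ∀ᶠ w in 𝓝 z, K ^ 2 * ‖w - z‖ < ε := by
        have : Tendsto (fun w => K ^ 2 * ‖w - z‖) (𝓝 z) (𝓝 (K ^ 2 * ‖z - z‖)) :=
          (Continuous.tendsto (by fun_prop) z)
        rw [sub_self, norm_zero, mul_zero] at this
        exact this.eventually (gt_mem_nhds hε)
      filter_upwards [hbound, h6] with w h7 h8
      calc _ ≤ K ^ 2 * ‖w - z‖ ^ 2 := h7
        _ = (K ^ 2 * ‖w - z‖) * ‖w - z‖ := by ring
        _ ≤ ε * ‖w - z‖ := by gcongr
    have hder2 : HasDerivAt (disc a (4 * (b - 2))) (6 * z ^ 5 - 16 * z ^ 3 - 4 * a) z := by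
      have h3 : HasDerivAt (disc a (4 * (b - 2))) (((6 : ℕ) : ℂ) * z ^ (6 - 1) -
          4 * (((4 : ℕ) : ℂ) * z ^ (4 - 1)) - 4 * (a : ℂ) * 1) z :=
        (((hasDerivAt_pow 6 z).sub ((hasDerivAt_pow 4 z).const_mul 4)).sub
        ((hasDerivAt_id z).const_mul (4 * (a : ℂ)))).sub_const ((4 * (b - 2) : ℝ) : ℂ)
      refine h3.congr_deriv ?_
      norm_num
      ring
    exact disc_simple hz.ne' h0 (hder2.unique hder)
  have hconj : ∀ z : ℂ, disc a (4 * (b - 2)) z = 0 → z.im = 0 := by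
    intro z hz
    rcases lt_trichotomy z.im 0 with h3 | h3 | h3
    · exfalso
      have h4 : disc a (4 * (b - 2)) (conj z) = 0 := by
        have : disc a (4 * (b - 2)) (conj z) = conj (disc a (4 * (b - 2)) z) := by
          simp only [disc, map_sub, map_mul, map_pow, Complex.conj_ofReal, map_ofNat]
        rw [this, hz, map_zero]
      exact hreal (conj z) (by simpa using h3) h4
    · exact h3
    · exact absurd hz (hreal z h3)
  have := disc_real hconj
  exact ⟨this.1, by linarith [this.2]⟩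

/-- Compactness: small defects at finitely many points force the first two moments. -/
theorem compactness (K ε : ℝ) (hε : 0 < ε) : ∃ Z : Finset ℂ, (∀ z ∈ Z, 0 < z.im) ∧ ∃ δ > 0,
    ∀ (G : ℂ → ℂ) (m1 m2 : ℝ), LipG G → |m1| ≤ K → |m2| ≤ K →
      (∀ z ∈ Z, ‖dd G m1 m2 z‖ ≤ δ) → |m1| < ε ∧ |m2 - 2| < ε := by
  by_contra hcon
  push Not at hcon
  -- choose bad data
  have hch : ∀ p : Finset {z : ℂ // 0 < z.im} × ℕ, ∃ d : (ℂ → ℂ) × ℝ × ℝ, LipG d.1 ∧ |d.2.1| ≤ K ∧
      |d.2.2| ≤ K ∧ (∀ z ∈ p.1, ‖dd d.1 d.2.1 d.2.2 z‖ ≤ 1 / ((p.2 : ℝ) + 1)) ∧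
      (|d.2.1| < ε → ε ≤ |d.2.2 - 2|) := by
    rintro ⟨Z, k⟩
    obtain ⟨G, m1, m2, h1, h2, h3, h4, h5⟩ := hcon (Z.map ⟨Subtype.val, Subtype.val_injective⟩)
      (by intro z hz; simp only [Finset.mem_map, Function.Embedding.coeFn_mk] at hz
          obtain ⟨w, -, rfl⟩ := hz; exact w.2) (1 / ((k : ℝ) + 1)) (by positivity)
    refine ⟨(G, m1, m2), h1, h2, h3, ?_, h5⟩
    intro z hz
    apply h4
    simp only [Finset.mem_map, Function.Embedding.coeFn_mk]
    exact ⟨z, hz, rfl⟩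
  choose d hd1 hd2 hd3 hd4 hd5 using hch
  let U : Ultrafilter (Finset {z : ℂ // 0 < z.im} × ℕ) := Ultrafilter.of atTop
  have hU : (U : Filter (Finset {z : ℂ // 0 < z.im} × ℕ)) ≤ atTop := Ultrafilter.of_le atTop
  obtain ⟨a, -, ha⟩ := (isCompact_Icc (a := -K) (b := K)).ultrafilter_le_nhds
    (U.map fun p => (d p).2.1) (by
      rw [Ultrafilter.coe_map, le_principal_iff, mem_map]
      exact univ_mem' fun p => abs_le.1 (hd2 p))
  obtain ⟨b, -, hb⟩ := (isCompact_Icc (a := -K) (b := K)).ultrafilter_le_nhds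
    (U.map fun p => (d p).2.2) (by
      rw [Ultrafilter.coe_map, le_principal_iff, mem_map]
      exact univ_mem' fun p => abs_le.1 (hd3 p))
  have ha' : Tendsto (fun p => (d p).2.1) U (𝓝 a) := ha
  have hb' : Tendsto (fun p => (d p).2.2) U (𝓝 b) := hb
  have hdef : ∀ z : ℂ, 0 < z.im →
      Tendsto (fun p => dd (d p).1 (d p).2.1 (d p).2.2 z) U (𝓝 0) := by
    intro z hz
    apply Tendsto.mono_left _ hU
    rw [Metric.tendsto_nhds]
    intro η hη
    obtain ⟨k, hk⟩ := exists_nat_one_div_lt hη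
    filter_upwards [eventually_ge_atTop (({⟨z, hz⟩}, k) : Finset {z : ℂ // 0 < z.im} × ℕ)]
      with p hp
    rw [dist_zero_right]
    have h6 : (⟨z, hz⟩ : {z : ℂ // 0 < z.im}) ∈ p.1 := by
      have := hp.1
      exact this (Finset.mem_singleton_self _)
    refine (hd4 p ⟨z, hz⟩ h6).trans_lt (lt_of_le_of_lt ?_ hk)
    have h7 : (k : ℝ) ≤ p.2 := by exact_mod_cast hp.2
    gcongr
  obtain ⟨ha0, hb0⟩ := limit_data ha' hb' hd1 hdef
  subst ha0; subst hb0
  have e1 : ∀ᶠ p in (U : Filter _), |(d p).2.1| < ε := by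
    have := ha'.abs
    rw [abs_zero] at this
    exact this.eventually (gt_mem_nhds hε)
  have e2 : ∀ᶠ p in (U : Filter _), |(d p).2.2 - 2| < ε := by
    have := (hb'.sub_const 2).abs
    rw [sub_self, abs_zero] at this
    exact this.eventually (gt_mem_nhds hε)
  obtain ⟨p, hp1, hp2⟩ := (e1.and e2).exists
  exact absurd hp2 (not_lt.2 (hd5 p hp1))

end Pool.Agent.Lib.MP_58f2bb_an
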