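import Mathlib

/-!
# The free Jacobi matrix and the moments of `x^2` times the semicircle law
-/

noncomputable section

set_option linter.unusedSectionVars false
set_option linter.unusedVariables false
set_option linter.unusedSimpArgs false

open scoped ComplexConjugate Topology
open Filter

namespace Pool.Agent.Lib.MP_58f2bb_an

/-- basis vectors. -/
def ee (k : ℕ) : ℕ →₀ ℂ := Finsupp.single k 1

/-- left shift. -/
def Sl : Module.End ℂ (ℕ →₀ ℂ) :=
  Finsupp.linearCombination ℂ fun k => if k = 0 then 0 else ee (k - 1)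

/-- free Jacobi matrix. -/
def Xj : Module.End ℂ (ℕ →₀ ℂ) :=
  Finsupp.linearCombination ℂ fun k => ee (k + 1) + if k = 0 then 0 else ee (k - 1)

theorem Sl_ee (k : ℕ) : Sl (ee k) = if k = 0 then 0 else ee (k - 1) := by
  simp only [Sl, ee, Finsupp.linearCombination_single, one_smul]

theorem Xj_ee (k : ℕ) : Xj (ee k) = ee (k + 1) + if k = 0 then 0 else ee (k - 1) := by
  simp only [Xj, ee, Finsupp.linearCombination_single, one_smul]

theorem end_ext {M : Type*} [AddCommMonoid M] [Module ℂ M] {f g : (ℕ →₀ ℂ) →ₗ[ℂ] M}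
    (h : ∀ k, f (ee k) = g (ee k)) : f = g := by
  apply Finsupp.lhom_ext'
  intro k
  apply LinearMap.ext_ring
  exact h k

theorem Sl_apply (u : ℕ →₀ ℂ) (k : ℕ) : Sl u k = u (k + 1) := by
  have h : (Finsupp.lapply k : (ℕ →₀ ℂ) →ₗ[ℂ] ℂ) ∘ₗ Sl = Finsupp.lapply (k + 1) := by
    apply end_ext
    intro l
    simp only [LinearMap.comp_apply, Sl_ee, Finsupp.lapply_apply]
    rcases l with _ | l
    · simp [ee]
    · simp [ee, Finsupp.single_apply]
  exact congrArg (fun f : (ℕ →₀ ℂ) →ₗ[ℂ] ℂ => f u) h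

theorem Xj_apply (u : ℕ →₀ ℂ) (k : ℕ) :
    Xj u k = u (k + 1) + if k = 0 then 0 else u (k - 1) := by
  have h : (Finsupp.lapply k : (ℕ →₀ ℂ) →ₗ[ℂ] ℂ) ∘ₗ Xj = Finsupp.lapply (k + 1) +
      if k = 0 then 0 else Finsupp.lapply (k - 1) := by
    apply end_ext
    intro l
    simp only [LinearMap.comp_apply, Xj_ee, Finsupp.lapply_apply, LinearMap.add_apply]
    rcases l with _ | l <;> rcases k with _ | k
    · simp [ee]
    · simp only [ee, Finsupp.single_apply, Finsupp.add_apply, Nat.succ_ne_zero, if_false,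
        Nat.add_sub_cancel, Finsupp.lapply_apply, if_true, Finsupp.zero_apply]
      split_ifs <;> first | (exfalso; omega) | simp
    · simp only [ee, Finsupp.single_apply, Finsupp.add_apply, Nat.succ_ne_zero, if_false,
        Nat.add_sub_cancel, Finsupp.lapply_apply, if_true, LinearMap.zero_apply]
      split_ifs <;> first | (exfalso; omega) | simp
    · simp only [ee, Finsupp.single_apply, Finsupp.add_apply, Nat.succ_ne_zero, if_false,
        Nat.add_sub_cancel, Finsupp.lapply_apply]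
      rw [add_comm]
      split_ifs <;> first | (exfalso; omega) | simp
  have h2 := congrArg (fun f : (ℕ →₀ ℂ) →ₗ[ℂ] ℂ => f u) h
  simp only [LinearMap.comp_apply, Finsupp.lapply_apply, LinearMap.add_apply] at h2
  rw [h2]
  split_ifs <;> simp

theorem Sl_Xj (u : ℕ →₀ ℂ) : Sl (Xj u) = Xj (Sl u) + u 0 • ee 0 := by
  ext k
  rw [Sl_apply, Xj_apply, Finsupp.add_apply, Xj_apply, Sl_apply, Sl_apply, Finsupp.smul_apply]
  rcases k with _ | k
  · simp [ee]
  · simp [ee, Finsupp.single_apply]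

/-- semicircular moments. -/
def phi (k : ℕ) : ℂ := ((Xj ^ k) (ee 0)) 0

/-- moments of `x^2` times the semicircle law. -/
def jm (k : ℕ) : ℂ := ((Xj ^ k) (ee 1)) 1

theorem Sl_pow (k : ℕ) : Sl ((Xj ^ k) (ee 0)) =
    ∑ j ∈ Finset.range k, phi j • (Xj ^ (k - 1 - j)) (ee 0) := by
  induction k with
  | zero => simp [Sl_ee]
  | succ k ih =>
    rw [pow_succ', Module.End.mul_apply, Sl_Xj, ih, map_sum, Finset.sum_range_succ]
    congr 1
    · refine Finset.sum_congr rfl fun j hj => ?_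
      rw [Finset.mem_range] at hj
      rw [map_smul, ← Module.End.mul_apply, ← pow_succ']
      congr 3
      omega
    · simp [phi]

theorem phi_succ (k : ℕ) : phi (k + 1) = ∑ j ∈ Finset.range k, phi j * phi (k - 1 - j) := by
  have h1 : phi (k + 1) = (Sl ((Xj ^ k) (ee 0))) 0 := by
    rw [phi, pow_succ', Module.End.mul_apply, Xj_apply, Sl_apply]
    simp
  rw [h1, Sl_pow]
  rw [Finsupp.finsetSum_apply]
  refine Finset.sum_congr rfl fun j _ => ?_
  rw [Finsupp.smul_apply, smul_eq_mul]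
  rfl

theorem phi_zero : phi 0 = 1 := by simp [phi, ee]

theorem phi_one : phi 1 = 0 := by rw [phi_succ]; simp

theorem jm_eq (k : ℕ) : jm k = phi (k + 2) := by
  have h1 : ee 1 = Xj (ee 0) := by rw [Xj_ee]; simp
  rw [jm, phi, pow_succ' _ (k + 1), Module.End.mul_apply, Xj_apply, pow_succ _ k,
    Module.End.mul_apply, ← h1]
  simp

theorem jm_zero : jm 0 = 1 := by simp [jm, ee]

theorem jm_one : jm 1 = 0 := by
  rw [jm, pow_one, Xj_ee]
  simp [ee, Finsupp.single_apply]

theorem phi_two : phi 2 = 1 := by rw [← jm_eq 0, jm_zero]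

theorem jm_rec (k : ℕ) : jm (k + 3) = 2 * jm (k + 1) +
    ∑ j ∈ Finset.range k, jm j * jm (k - 1 - j) := by
  have h1 : phi (k + 5) = ∑ j ∈ Finset.range (k + 4), phi j * phi (k + 4 - 1 - j) := phi_succ _
  rw [Finset.sum_range_succ, Finset.sum_range_succ, Finset.sum_range_succ',
    Finset.sum_range_succ'] at h1
  rw [jm_eq, show k + 3 + 2 = k + 5 by ring, h1]
  have e1 : phi (k + 4 - 1 - 0) = jm (k + 1) := by rw [jm_eq]; congr 1
  have e2 : k + 4 - 1 - (k + 2) = 1 := by omega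
  have e3 : k + 4 - 1 - (k + 3) = 0 := by omega
  rw [e1, e2, e3, phi_zero, zero_add, phi_one]
  have e4 : phi (k + 3) = jm (k + 1) := by rw [jm_eq]
  have e5 : ∑ j ∈ Finset.range k, phi (j + 1 + 1) * phi (k + 4 - 1 - (j + 1 + 1)) =
      ∑ j ∈ Finset.range k, jm j * jm (k - 1 - j) := by
    refine Finset.sum_congr rfl fun j hj => ?_
    rw [Finset.mem_range] at hj
    rw [jm_eq, jm_eq]
    congr 2
    omega
  rw [e4, e5]
  ring

theorem jm_two : jm 2 = 2 := by
  rw [jm_eq, phi_succ]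
  simp only [Finset.sum_range_succ, Finset.sum_range_zero, zero_add]
  norm_num [phi_zero, phi_one, phi_two]

theorem Xj_pow_le (k : ℕ) (u : ℕ →₀ ℂ) (M : ℝ) (hu : ∀ l, ‖u l‖ ≤ M) (l : ℕ) :
    ‖((Xj ^ k) u) l‖ ≤ 2 ^ k * M := by
  induction k generalizing l with
  | zero => simpa using hu l
  | succ k ih =>
    rw [pow_succ', Module.End.mul_apply, Xj_apply]
    have h1 := ih (l + 1)
    have hM : 0 ≤ 2 ^ k * M := (norm_nonneg _).trans h1
    calc _ ≤ ‖((Xj ^ k) u) (l + 1)‖ + ‖if l = 0 then 0 else ((Xj ^ k) u) (l - 1)‖ :=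
          norm_add_le _ _
      _ ≤ 2 ^ k * M + 2 ^ k * M := by
          gcongr
          split_ifs
          · simpa using hM
          · exact ih (l - 1)
      _ = 2 ^ (k + 1) * M := by ring

theorem norm_jm_le (k : ℕ) : ‖jm k‖ ≤ 2 ^ k := by
  have := Xj_pow_le k (ee 1) 1 (by
    intro l
    rw [ee, Finsupp.single_apply]
    split_ifs <;> simp) 1
  rw [jm]
  simpa using this

theorem norm_phi_le (k : ℕ) : ‖phi k‖ ≤ 2 ^ k := by
  have := Xj_pow_le k (ee 0) 1 (by
    intro l
    rw [ee, Finsupp.single_apply]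
    split_ifs <;> simp) 0
  rw [phi]
  simpa using this

/-- the pairing `∑ u_k v_k`. -/
def bl : (ℕ →₀ ℂ) →ₗ[ℂ] (ℕ →₀ ℂ) →ₗ[ℂ] ℂ :=
  Finsupp.linearCombination ℂ fun k => Finsupp.lapply k

theorem bl_ee (k : ℕ) (v : ℕ →₀ ℂ) : bl (ee k) v = v k := by
  simp only [bl, ee, Finsupp.linearCombination_single, one_smul, Finsupp.lapply_apply]

theorem bl_Xj (u v : ℕ →₀ ℂ) : bl (Xj u) v = bl u (Xj v) := by
  have h : bl ∘ₗ Xj = (LinearMap.lcomp ℂ ℂ Xj) ∘ₗ bl := by
    apply end_ext
    intro k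
    refine LinearMap.ext fun v => ?_
    simp only [LinearMap.comp_apply, LinearMap.lcomp_apply, Xj_ee, map_add,
      LinearMap.add_apply, bl_ee]
    split_ifs with hk
    · subst hk; simp [Xj_ee, bl_ee, ee, Finsupp.single_apply, Xj_apply]
    · simp [bl_ee, Xj_apply, hk]
  have h2 := congrArg (fun f : (ℕ →₀ ℂ) →ₗ[ℂ] (ℕ →₀ ℂ) →ₗ[ℂ] ℂ => f u v) h
  simpa using h2

theorem bl_Xj_pow (k : ℕ) (u v : ℕ →₀ ℂ) : bl ((Xj ^ k) u) v = bl u ((Xj ^ k) v) := by
  induction k generalizing u v with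
  | zero => simp
  | succ k ih =>
    rw [pow_succ', Module.End.mul_apply, bl_Xj, ih, ← Module.End.mul_apply, ← pow_succ,
      ← pow_succ']

open Polynomial in
theorem bl_aeval (p : ℂ[X]) (u v : ℕ →₀ ℂ) : bl (aeval Xj p u) v = bl u (aeval Xj p v) := by
  induction p using Polynomial.induction_on' with
  | add p q hp hq => simp only [map_add, LinearMap.add_apply, hp, hq]
  | monomial n a =>
    simp only [aeval_monomial, Module.End.mul_apply, Module.algebraMap_end_apply, map_smul,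
      LinearMap.smul_apply, bl_Xj_pow]

open Polynomial in
/-- Chebyshev polynomials of the second kind (normalised to `[-2, 2]`). -/
def cu : ℕ → ℂ[X]
  | 0 => 1
  | 1 => X
  | (k + 2) => X * cu (k + 1) - cu k

open Polynomial in
theorem cu_ee (k : ℕ) : aeval Xj (cu k) (ee 0) = ee k ∧ aeval Xj (cu (k + 1)) (ee 0) = ee (k + 1) := by
  induction k with
  | zero => simp [cu, Xj_ee]
  | succ k ih =>
    refine ⟨ih.2, ?_⟩
    rw [cu, map_sub, map_mul, LinearMap.sub_apply, Module.End.mul_apply, ih.2, ih.1, aeval_X,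
      Xj_ee]
    simp

open Polynomial in
theorem cu_ee1 (k : ℕ) : aeval Xj (cu k) (ee 1) = Xj (ee k) := by
  have h1 : ee 1 = Xj (ee 0) := by rw [Xj_ee]; simp
  rw [h1]
  have h2 : aeval Xj (cu k) (Xj (ee 0)) = Xj (aeval Xj (cu k) (ee 0)) := by
    rw [← Module.End.mul_apply, ← Module.End.mul_apply]
    congr 1
    have := congrArg (aeval Xj) (mul_comm (cu k) X)
    simpa only [map_mul, aeval_X] using this
  rw [h2, (cu_ee k).1]

end Pool.Agent.Lib.MP_58f2bb_an
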