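import Pool.Agent.Lib.MP_58f2bb_an.Resolvent2
import Pool.Agent.Lib.MP_58f2bb_an.Disc
import Pool.Agent.Lib.MP_58f2bb_an.Jacobi

/-!
# Complete convergence of normalised traces
-/

noncomputable section

set_option linter.unusedSectionVars false
set_option linter.unusedVariables false
set_option linter.unusedSimpArgs false

open scoped TensorProduct InnerProductSpace ComplexConjugate Topology ENNReal
open MeasureTheory Filter

namespace Pool.Agent.Lib.MP_58f2bb_an

variable {m : ℕ} [NeZero m]

/-- summable events. -/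
def SE (S : ∀ n, Set (Coord m n)) : Prop := ∑' n, law (crit m) (n + 1) (S (n + 1)) < ∞

theorem SE.mono {S T : ∀ n, Set (Coord m n)} (hT : SE T) (h : ∀ n, 1 ≤ n → S n ⊆ T n) : SE S :=
  lt_of_le_of_lt (ENNReal.tsum_le_tsum fun n => measure_mono (h (n + 1) (by omega))) hT

theorem SE.union {S T : ∀ n, Set (Coord m n)} (hS : SE S) (hT : SE T) :
    SE fun n => S n ∪ T n := by
  refine lt_of_le_of_lt (ENNReal.tsum_le_tsum fun n => measure_union_le _ _) ?_
  rw [ENNReal.tsum_add]
  exact ENNReal.add_lt_top.2 ⟨hS, hT⟩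

theorem SE.empty : SE (fun n => (∅ : Set (Coord m n))) := by simp [SE]

theorem SE.biUnion {ι : Type*} (s : Finset ι) {S : ι → ∀ n, Set (Coord m n)}
    (h : ∀ i ∈ s, SE (S i)) : SE fun n => ⋃ i ∈ s, S i n := by
  classical
  induction s using Finset.induction_on with
  | empty => simpa using SE.empty
  | insert a s ha ih =>
    simp only [Finset.set_biUnion_insert]
    exact (h a (Finset.mem_insert_self _ _)).union
      (ih fun i hi => h i (Finset.mem_insert_of_mem hi))

/-- complete convergence. -/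
def CC (f : ∀ n, Coord m n → ℂ) (c : ℂ) : Prop :=
  ∀ ε : ℝ, 0 < ε → SE fun n => {x | ε ≤ ‖f n x - c‖}

theorem CC.const (c : ℂ) : CC (fun n (_ : Coord m n) => c) c := by
  intro ε hε
  refine SE.empty.mono fun n hn x hx => ?_
  simp only [Set.mem_ofPred_eq, sub_self, norm_zero] at hx
  linarith

theorem CC.add {f g : ∀ n, Coord m n → ℂ} {c d : ℂ} (hf : CC f c) (hg : CC g d) :
    CC (fun n x => f n x + g n x) (c + d) := by
  intro ε hε
  refine ((hf (ε / 2) (by positivity)).union (hg (ε / 2) (by positivity))).mono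
    fun n hn x hx => ?_
  simp only [Set.mem_ofPred_eq, Set.mem_union] at hx ⊢
  by_contra h
  push Not at h
  have : ‖f n x + g n x - (c + d)‖ ≤ ‖f n x - c‖ + ‖g n x - d‖ := by
    rw [add_sub_add_comm]; exact norm_add_le _ _
  linarith

theorem CC.mul {f g : ∀ n, Coord m n → ℂ} {c d : ℂ} (hf : CC f c) (hg : CC g d) :
    CC (fun n x => f n x * g n x) (c * d) := by
  intro ε hε
  set δ := min 1 (ε / (1 + ‖c‖ + ‖d‖)) with hδ
  have hδ0 : 0 < δ := lt_min one_pos (by positivity)
  have hδ1 : δ ≤ 1 := min_le_left _ _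
  have hδ2 : δ * (1 + ‖c‖ + ‖d‖) ≤ ε := by
    have := min_le_right 1 (ε / (1 + ‖c‖ + ‖d‖))
    rw [← hδ, le_div_iff₀ (by positivity)] at this
    exact this
  refine ((hf δ hδ0).union (hg δ hδ0)).mono fun n hn x hx => ?_
  simp only [Set.mem_ofPred_eq, Set.mem_union] at hx ⊢
  by_contra h
  push Not at h
  have e1 : f n x * g n x - c * d = (f n x - c) * (g n x - d) + (f n x - c) * d +
      c * (g n x - d) := by ring
  have : ‖f n x * g n x - c * d‖ < ε := by
    rw [e1]
    calc _ ≤ ‖(f n x - c) * (g n x - d) + (f n x - c) * d‖ + ‖c * (g n x - d)‖ := norm_add_le _ _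
      _ ≤ (‖(f n x - c) * (g n x - d)‖ + ‖(f n x - c) * d‖) + ‖c * (g n x - d)‖ := by
          gcongr; exact norm_add_le _ _
      _ = ‖f n x - c‖ * ‖g n x - d‖ + ‖f n x - c‖ * ‖d‖ + ‖c‖ * ‖g n x - d‖ := by
          rw [norm_mul, norm_mul, norm_mul]
      _ ≤ ‖f n x - c‖ * 1 + δ * ‖d‖ + ‖c‖ * δ := by
          have h1 := h.1.le
          have h2 := h.2.le
          gcongr
          linarith
      _ < δ * 1 + δ * ‖d‖ + ‖c‖ * δ := by linarith [h.1]
      _ = δ * (1 + ‖c‖ + ‖d‖) := by ring
      _ ≤ ε := hδ2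
  linarith

theorem CC.congr {f g : ∀ n, Coord m n → ℂ} {c : ℂ} (hf : CC f c)
    (h : ∀ n, 1 ≤ n → ∀ x, f n x = g n x) : CC g c := by
  intro ε hε
  refine (hf ε hε).mono fun n hn x hx => ?_
  simp only [Set.mem_ofPred_eq] at hx ⊢
  rwa [h n hn x]

theorem CC.sum {ι : Type*} (s : Finset ι) {f : ι → ∀ n, Coord m n → ℂ} {c : ι → ℂ}
    (h : ∀ i ∈ s, CC (f i) (c i)) : CC (fun n x => ∑ i ∈ s, f i n x) (∑ i ∈ s, c i) := by
  classical
  induction s using Finset.induction_on with
  | empty => simpa using CC.const 0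
  | insert a s ha ih =>
    simp only [Finset.sum_insert ha]
    exact (h a (Finset.mem_insert_self _ _)).add
      (ih fun i hi => h i (Finset.mem_insert_of_mem hi))

theorem CC.unique {f : ∀ n, Coord m n → ℂ} {c d : ℂ} (hc : CC f c) (hd : CC f d) : c = d := by
  by_contra hne
  have hpos : 0 < ‖c - d‖ := norm_pos_iff.2 (sub_ne_zero.2 hne)
  have h := (hc (‖c - d‖ / 2) (by positivity)).union (hd (‖c - d‖ / 2) (by positivity))
  have h2 : SE (fun n => (Set.univ : Set (Coord m n))) := by
    refine h.mono fun n hn x _ => ?_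
    simp only [Set.mem_ofPred_eq, Set.mem_union]
    by_contra h3
    push Not at h3
    have : ‖c - d‖ ≤ ‖f n x - c‖ + ‖f n x - d‖ := by
      have e1 : c - d = (f n x - d) - (f n x - c) := by ring
      rw [e1]
      refine (norm_sub_le _ _).trans (le_of_eq (add_comm _ _))
    linarith
  have h3 : ∀ n, law (crit m) (n + 1) Set.univ = 1 := fun n => by
    have := isProbability_law (m := m) (n := n + 1) (by omega)
    exact measure_univ
  unfold SE at h2
  simp only [h3] at h2
  rw [ENNReal.tsum_const_eq_top_of_ne_zero one_ne_zero] at h2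
  exact lt_irrefl _ h2

/-- complete convergence from `L²` bounds `C / n²`. -/
theorem CC.of_L2 {f : ∀ n, Coord m n → ℂ} {c : ℂ} {C : ℝ}
    (hint : ∀ n, 1 ≤ n → Integrable (fun x => ‖f n x - c‖ ^ 2) (law (crit m) n))
    (h : ∀ n : ℕ, 1 ≤ n → ∫ x, ‖f n x - c‖ ^ 2 ∂(law (crit m) n) ≤ C / n ^ 2) : CC f c := by
  intro ε hε
  have hC : 0 ≤ C := by
    have h1 := h 1 le_rfl
    have h2 : 0 ≤ ∫ x, ‖f 1 x - c‖ ^ 2 ∂(law (crit m) 1) := integral_nonneg fun x => by positivity
    norm_num at h1
    linarith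
  have hb : ∀ n, law (crit m) (n + 1) {x | ε ≤ ‖f (n + 1) x - c‖} ≤
      ENNReal.ofReal (C / ε ^ 2 * (1 / ((n + 1 : ℕ) : ℝ) ^ 2)) := by
    intro n
    have hprob := isProbability_law (m := m) (n := n + 1) (by omega)
    have h1 := mul_meas_ge_le_integral_of_nonneg (μ := law (crit m) (n + 1))
      (f := fun x => ‖f (n + 1) x - c‖ ^ 2) (Filter.Eventually.of_forall fun x => by positivity)
      (hint (n + 1) (by omega)) (ε ^ 2)
    have h2 := h1.trans (h (n + 1) (by omega))
    have h3 : {x | ε ≤ ‖f (n + 1) x - c‖} ⊆ {x | ε ^ 2 ≤ ‖f (n + 1) x - c‖ ^ 2} := by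
      intro x hx
      simp only [Set.mem_ofPred_eq] at hx ⊢
      gcongr
    refine (measure_mono h3).trans ?_
    rw [← ENNReal.ofReal_toReal (measure_ne_top (law (crit m) (n + 1)) _)]
    apply ENNReal.ofReal_le_ofReal
    change (law (crit m) (n + 1)).real _ ≤ _
    rw [mul_comm, ← le_div_iff₀ (by positivity)] at h2
    refine h2.trans (le_of_eq ?_)
    field_simp
  refine lt_of_le_of_lt (ENNReal.tsum_le_tsum hb) ?_
  apply Summable.tsum_ofReal_lt_top
  apply Summable.mul_left
  exact (summable_nat_add_iff 1).2 (Real.summable_one_div_nat_pow.2 one_lt_two)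

theorem CC_del (i : Fin m) (w : List (Fin m)) : CC (fun n x => tpe x (del i w)) 0 := by
  obtain ⟨C, hC⟩ := del_L2 i w
  refine CC.of_L2 (C := C) (fun n hn => ?_) fun n hn => ?_
  · simpa using integrable_norm_sq hn (del i w)
  · simpa using hC n hn

theorem CC_Dz {z : ℂ} (hz : z.im ≠ 0) : CC (fun n (x : Coord m n) => Dz z x) 0 := by
  obtain ⟨C, hC⟩ := Dz_L2 (m := m) hz
  refine CC.of_L2 (C := C) (fun n hn => ?_) fun n hn => ?_
  · have h1 : PG fun x : Coord m n => Dz z x * conj (Dz z x) := (PG.Dz hz).mul (PG.Dz hz).conj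
    refine (h1.integrable_law hn).norm.congr (Filter.Eventually.of_forall fun x => ?_)
    simp only [norm_mul, RCLike.norm_conj, sub_zero, sq]
  · simpa using hC n hn

theorem LipG_Gz {n : ℕ} (hn : 1 ≤ n) (x : Coord m n) : LipG fun z => Gz z x := by
  intro z w hz hw
  simp only [Gz_eq]
  rw [← mul_sub, ← Finset.sum_sub_distrib, norm_mul, norm_inv, Complex.norm_natCast]
  have hn0 : (0 : ℝ) < n := by exact_mod_cast hn
  calc (n : ℝ)⁻¹ * ‖∑ j, ((z - eig x j)⁻¹ - (w - eig x j)⁻¹)‖
      ≤ (n : ℝ)⁻¹ * ∑ j : Fin n, ‖z - w‖ * (z.im⁻¹ * w.im⁻¹) := by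
        gcongr
        refine (norm_sum_le _ _).trans (Finset.sum_le_sum fun j _ => ?_)
        have h1 := sub_ofReal_ne hz.ne' (eig x j)
        have h2 := sub_ofReal_ne hw.ne' (eig x j)
        have h3 : (z - eig x j)⁻¹ - (w - eig x j)⁻¹ =
            (w - z) * ((z - eig x j)⁻¹ * (w - eig x j)⁻¹) := by
          field_simp
          ring
        have h4 := norm_inv_le hz.ne' (eig x j)
        have h5 := norm_inv_le hw.ne' (eig x j)
        rw [abs_of_pos hz] at h4
        rw [abs_of_pos hw] at h5
        rw [h3, norm_mul, norm_mul, norm_sub_rev]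
        gcongr
    _ = _ := by simp [hn0.ne']

theorem CC_mk12 : CC (fun n (x : Coord m n) => (mk x 1 : ℂ)) 0 ∧
    CC (fun n (x : Coord m n) => (mk x 2 : ℂ)) 2 := by
  have key : ∀ ε : ℝ, 0 < ε → SE fun n => {x : Coord m n | ε ≤ |mk x 1| ∨ ε ≤ |mk x 2 - 2|} := by
    intro ε hε
    obtain ⟨Z, hZ, δ, hδ, hcomp⟩ := compactness 3 ε hε
    have h1 := SE.biUnion Z (S := fun z n => {x : Coord m n | δ ≤ ‖Dz z x - 0‖})
      (fun z hz => CC_Dz (hZ z hz).ne' δ hδ)
    have h2 := CC_del (0 : Fin m) (List.replicate 1 0) 1 one_pos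
    refine (h1.union h2).mono fun n hn x hx => ?_
    by_contra hcon
    simp only [Set.mem_union, Set.mem_iUnion, Set.mem_ofPred_eq, not_or, not_exists, not_le,
      sub_zero] at hcon
    obtain ⟨hc1, hc2⟩ := hcon
    rw [tpe_del_replicate] at hc2
    rw [Complex.norm_real, Real.norm_eq_abs] at hc2
    simp only [Finset.sum_range_one, mk_zero hn] at hc2
    norm_num at hc2
    have h4 := mk_two_sq_le hn x
    have h5 := abs_lt.1 hc2
    have h6 : 0 ≤ mk x 2 := mk_even_nonneg x 1
    have h7 : mk x 2 ≤ 3 := by nlinarith [h5.2]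
    have h8 := mk_one_sq_le hn x
    have h9 : |mk x 1| ≤ 3 := by
      apply abs_le_of_sq_le_sq _ (by norm_num)
      nlinarith
    have h10 := hcomp (fun z => Gz z x) (mk x 1) (mk x 2) (LipG_Gz hn x) h9
      (by rw [abs_of_nonneg h6]; exact h7) (fun z hz => (hc1 z hz).le)
    simp only [Set.mem_ofPred_eq] at hx
    rcases hx with hx | hx
    · linarith [h10.1]
    · linarith [h10.2]
  constructor
  · intro ε hε
    refine (key ε hε).mono fun n hn x hx => ?_
    simp only [Set.mem_ofPred_eq, sub_zero, Complex.norm_real, Real.norm_eq_abs] at hx ⊢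
    exact Or.inl hx
  · intro ε hε
    refine (key ε hε).mono fun n hn x hx => ?_
    simp only [Set.mem_ofPred_eq] at hx ⊢
    right
    have : ((mk x 2 : ℂ) - 2) = ((mk x 2 - 2 : ℝ) : ℂ) := by push_cast; rfl
    rw [this, Complex.norm_real, Real.norm_eq_abs] at hx
    exact hx

theorem CC_mk (k : ℕ) : CC (fun n (x : Coord m n) => (mk x k : ℂ)) (jm k) := by
  induction k using Nat.strong_induction_on with
  | _ k ih =>
    rcases k with _ | _ | _ | k
    · rw [jm_zero]
      exact (CC.const 1).congr fun n hn x => by rw [mk_zero hn]; simp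
    · rw [zero_add, jm_one]; exact CC_mk12.1
    · rw [zero_add, one_add_one_eq_two, jm_two]; exact CC_mk12.2
    · rw [show k + 1 + 1 + 1 = k + 3 by ring, jm_rec]
      have h1 := ((CC.const (m := m) 2).mul (ih (k + 1) (by omega))).add
        (CC.sum (Finset.range k) (f := fun j n (x : Coord m n) => (mk x j : ℂ) * mk x (k - 1 - j))
          (c := fun j => jm j * jm (k - 1 - j)) (fun j hj => by
            rw [Finset.mem_range] at hj
            exact (ih j (by omega)).mul (ih (k - 1 - j) (by omega))))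
      have h2 := h1.add (CC_del (0 : Fin m) (List.replicate k 0))
      rw [add_zero] at h2
      refine h2.congr fun n hn x => ?_
      rw [tpe_del_replicate]
      push_cast
      ring

/-- Every word converges. -/
theorem exists_word_limit (l : ℕ) : ∀ w : List (Fin m), w.length = l →
    ∃ c, CC (fun n x => tpe x (MvPolynomial.X w)) c := by
  induction l using Nat.strong_induction_on with
  | _ l ih =>
    intro w hw
    by_cases h0 : cnt w = 0
    · refine ⟨jm w.length, ?_⟩
      rw [eq_replicate_of_cnt h0]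
      refine (CC_mk _).congr fun n hn x => ?_
      rw [tpe_replicate, List.length_replicate]
    · rw [cnt, List.countP_eq_zero] at h0
      push Not at h0
      obtain ⟨i, hi, hi'⟩ := h0
      have hi0 : i ≠ 0 := by simpa using hi'
      obtain ⟨u, v, rfl⟩ := List.append_of_mem hi
      set w' := v ++ u with hw'
      have hlen : w'.length + 1 = l := by
        rw [hw', ← hw]; simp; omega
      have hch : ∀ w'' : List (Fin m), ∃ c, w''.length < l →
          CC (fun n x => tpe x (MvPolynomial.X w'')) c := by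
        intro w''
        by_cases hl : w''.length < l
        · obtain ⟨c, hc⟩ := ih _ hl w'' rfl
          exact ⟨c, fun _ => hc⟩
        · exact ⟨0, fun h => absurd h hl⟩
      choose c hc using hch
      have hsum : CC (fun n x => tpe x ((splits i w').map fun s =>
          (MvPolynomial.X s.1 * MvPolynomial.X s.2 : TP m)).sum)
          ((splits i w').map fun s => c s.1 * c s.2).sum := by
        have hmem : ∀ s ∈ splits i w', s.1.length < l ∧ s.2.length < l := by
          intro s hs
          have h1 := splits_spec i w' hs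
          have h2 : w'.length = s.1.length + (s.2.length + 1) := by
            conv_lhs => rw [h1]
            simp
          omega
        generalize splits i w' = L at hmem
        induction L with
        | nil => simpa using CC.const 0
        | cons s L ihL =>
          simp only [List.map_cons, List.sum_cons, map_add, map_mul]
          exact ((hc _ (hmem s (by simp)).1).mul (hc _ (hmem s (by simp)).2)).add
            (ihL fun s hs => hmem s (by simp [hs]))
      refine ⟨2⁻¹ * (0 + ((splits i w').map fun s => c s.1 * c s.2).sum), ?_⟩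
      have h1 := (CC.const (m := m) 2⁻¹).mul ((CC_del i w').add hsum)
      refine h1.congr fun n hn x => ?_
      rw [← map_add, del, if_neg hi0, sub_add_cancel, map_mul, map_ofNat, ← mul_assoc,
        inv_mul_cancel₀ two_ne_zero, one_mul]
      have : u ++ i :: v = (u ++ [i]) ++ v := by simp
      rw [this, tpe_X_rotate x (u ++ [i]) v, ← List.append_assoc]

/-- the limit of a word. -/
def tw (w : List (Fin m)) : ℂ := (exists_word_limit w.length w rfl).choose

theorem CC_tw (w : List (Fin m)) : CC (fun n x => tpe x (MvPolynomial.X w)) (tw w) :=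
  (exists_word_limit w.length w rfl).choose_spec

/-- limit of trace polynomials. -/
def tlim : TP m →ₐ[ℂ] ℂ := MvPolynomial.aeval tw

theorem CC_tlim (F : TP m) : CC (fun n x => tpe x F) (tlim F) := by
  induction F using MvPolynomial.induction_on with
  | C a => simpa [tpe, tlim] using CC.const a
  | add p q hp hq => simpa using hp.add hq
  | mul_X p w hp =>
    simp only [map_mul]
    refine hp.mul ?_
    rw [tlim, MvPolynomial.aeval_X]
    exact CC_tw w

theorem tlim_del (i : Fin m) (w : List (Fin m)) : tlim (del i w) = 0 :=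
  (CC_tlim _).unique (CC_del i w)

theorem tw_replicate (k : ℕ) : tw (List.replicate k (0 : Fin m)) = jm k := by
  refine (CC_tw _).unique ?_
  exact (CC_mk k).congr fun n hn x => (tpe_replicate x k).symm

theorem tw_append_comm (u v : List (Fin m)) : tw (u ++ v) = tw (v ++ u) := by
  refine (CC_tw _).unique ?_
  exact (CC_tw (v ++ u)).congr fun n hn x => tpe_X_rotate x v u

theorem L1_bound {α : Type*} [MeasurableSpace α] (μ : Measure α) [IsProbabilityMeasure μ]
    (g : α → ℝ) (hg : Measurable g) (hint1 : Integrable g μ)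
    (hint2 : Integrable (fun x => g x ^ 2) μ) {ε η : ℝ} (hε : 0 < ε) (hη : 0 < η) :
    ∫ x, g x ∂μ ≤ ε + (η / 2 * ∫ x, g x ^ 2 ∂μ + 1 / (2 * η) * μ.real {x | ε ≤ g x}) := by
  have hSmeas : MeasurableSet {x | ε ≤ g x} := measurableSet_le measurable_const hg
  have hint3 : Integrable ({x | ε ≤ g x}.indicator fun _ => (1 : ℝ)) μ :=
    (integrable_const 1).indicator hSmeas
  have hI2 : Integrable (fun x => η / 2 * g x ^ 2) μ := hint2.const_mul _
  have hI3 : Integrable (fun x => 1 / (2 * η) * {x | ε ≤ g x}.indicator (fun _ => (1 : ℝ)) x) μ :=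
    hint3.const_mul _
  have hI23 : Integrable (fun x => η / 2 * g x ^ 2 +
      1 / (2 * η) * {x | ε ≤ g x}.indicator (fun _ => (1 : ℝ)) x) μ := hI2.add hI3
  have hpt : ∀ x, g x ≤ ε + (η / 2 * g x ^ 2 +
      1 / (2 * η) * {x | ε ≤ g x}.indicator (fun _ => (1 : ℝ)) x) := by
    intro x
    by_cases hx : ε ≤ g x
    · rw [Set.indicator_of_mem (by exact hx)]
      have h1 : 0 ≤ (η * g x - 1) ^ 2 := sq_nonneg _
      have h2 : g x ≤ η / 2 * g x ^ 2 + 1 / (2 * η) * 1 := by
        rw [mul_one, div_mul_eq_mul_div, div_add_div _ _ two_ne_zero (by positivity),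
          le_div_iff₀ (by positivity)]
        nlinarith
      linarith
    · rw [Set.indicator_of_notMem (by exact hx)]
      have : 0 ≤ η / 2 * g x ^ 2 := by positivity
      push Not at hx
      linarith
  calc ∫ x, g x ∂μ ≤ ∫ x, (ε + (η / 2 * g x ^ 2 +
        1 / (2 * η) * {x | ε ≤ g x}.indicator (fun _ => (1 : ℝ)) x)) ∂μ :=
        integral_mono hint1 ((integrable_const _).add hI23) hpt
    _ = _ := by
        rw [integral_add (integrable_const _) hI23, integral_add hI2 hI3, integral_const_mul,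
          integral_const_mul, integral_indicator_const _ hSmeas]
        simp

/-- `L¹` convergence from complete convergence and bounded second moments. -/
theorem L1_of_CC (F : TP m) :
    Tendsto (fun n => ∫ x, ‖tpe x F - tlim F‖ ∂(law (crit m) n)) atTop (𝓝 0) := by
  obtain ⟨C, hC⟩ := second_moment (F - MvPolynomial.C (tlim F))
  have e0 : ∀ n (x : Coord m n), tpe x (F - MvPolynomial.C (tlim F)) = tpe x F - tlim F := by
    intro n x
    rw [map_sub]
    congr 1
    exact MvPolynomial.aeval_C _ _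
  simp only [e0] at hC
  have hC0 : 0 ≤ C := (integral_nonneg fun x => by positivity).trans (hC 1 le_rfl)
  rw [Metric.tendsto_atTop]
  intro ε hε
  have hCC := CC_tlim F (ε / 4) (by positivity)
  -- probabilities tend to zero
  have hp : Tendsto (fun n => law (crit m) (n + 1)
      {x : Coord m (n + 1) | ε / 4 ≤ ‖tpe x F - tlim F‖}) atTop (𝓝 0) :=
    ENNReal.tendsto_atTop_zero_of_tsum_ne_top hCC.ne
  obtain ⟨η, hη0, hη⟩ : ∃ η : ℝ, 0 < η ∧ η / 2 * C ≤ ε / 4 := by
    refine ⟨ε / (2 * (C + 1)), by positivity, ?_⟩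
    rw [div_div, div_mul_eq_mul_div, div_le_div_iff₀ (by positivity) (by positivity)]
    nlinarith
  rw [ENNReal.tendsto_atTop_zero] at hp
  obtain ⟨N, hN⟩ := hp (ENNReal.ofReal (η * ε / 4)) (by
    rw [gt_iff_lt, ENNReal.ofReal_pos]; positivity)
  refine ⟨N + 1, fun n hn => ?_⟩
  obtain ⟨n, rfl⟩ : ∃ k, n = k + 1 := ⟨n - 1, by omega⟩
  have hprob := isProbability_law (m := m) (n := n + 1) (by omega)
  rw [Real.dist_eq, sub_zero, abs_of_nonneg (integral_nonneg fun x => norm_nonneg _)]
  have hSprob : (law (crit m) (n + 1)).real {x : Coord m (n + 1) | ε / 4 ≤ ‖tpe x F - tlim F‖} ≤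
      η * ε / 4 :=
    ENNReal.toReal_le_of_le_ofReal (by positivity) (hN n (by omega))
  have hc : Continuous fun x : Coord m (n + 1) => ‖tpe x F - tlim F‖ :=
    ((PG.tpe F).1.sub continuous_const).norm
  have hint1 : Integrable (fun x => ‖tpe x F - tlim F‖) (law (crit m) (n + 1)) :=
    (((PG.tpe F).sub (PG.const _)).integrable_law (by omega)).norm
  have hint2 : Integrable (fun x => ‖tpe x F - tlim F‖ ^ 2) (law (crit m) (n + 1)) := by
    have := integrable_norm_sq (n := n + 1) (by omega) (F - MvPolynomial.C (tlim F))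
    simpa only [e0] using this
  have key := L1_bound (law (crit m) (n + 1)) (fun x => ‖tpe x F - tlim F‖) hc.measurable
    hint1 hint2 (ε := ε / 4) (η := η) (by positivity) hη0
  have h3 := hC (n + 1) (by omega)
  have h4 : η / 2 * ∫ x, ‖tpe x F - tlim F‖ ^ 2 ∂(law (crit m) (n + 1)) ≤ η / 2 * C :=
    mul_le_mul_of_nonneg_left h3 (by positivity)
  have h5 : 1 / (2 * η) * (law (crit m) (n + 1)).real
      {x : Coord m (n + 1) | ε / 4 ≤ ‖tpe x F - tlim F‖} ≤ 1 / (2 * η) * (η * ε / 4) :=
    mul_le_mul_of_nonneg_left hSprob (by positivity)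
  have h6 : 1 / (2 * η) * (η * ε / 4) = ε / 8 := by field_simp; ring
  linarith

end Pool.Agent.Lib.MP_58f2bb_an
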