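import Mathlib

/-!
# Definitions: matrix models, free difference quotients, free Laplacian, heat semigroup
-/

noncomputable section

open scoped TensorProduct InnerProductSpace ComplexConjugate Topology ENNReal LinearPMap
open MeasureTheory Filter

namespace Pool.Agent.Lib.MP_58f2bb_an

/-! ### Noncommutative polynomials -/

/-- Noncommutative polynomials in `m` variables with complex coefficients: the algebra
of the free monoid on `m` letters. -/
abbrev NCPoly (m : ℕ) : Type := MonoidAlgebra ℂ (FreeMonoid (Fin m))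

/-- The monomial attached to a word. -/
def mono {m : ℕ} (w : FreeMonoid (Fin m)) : NCPoly m := MonoidAlgebra.single w 1

/-- The `i`-th variable. -/
def X {m : ℕ} (i : Fin m) : NCPoly m := mono (FreeMonoid.of i)

/-- The involution `p ↦ p*` of noncommutative polynomials in self-adjoint variables:
conjugate the coefficients and reverse the words. -/
def adj {m : ℕ} (p : NCPoly m) : NCPoly m :=
  p.coeff.sum fun w c => MonoidAlgebra.single w.reverse (conj c)

/-- Evaluation of a noncommutative polynomial at a tuple of elements of an algebra. -/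
def ev {m : ℕ} {A : Type*} [Ring A] [Algebra ℂ A] (a : Fin m → A) : NCPoly m →ₐ[ℂ] A :=
  MonoidAlgebra.lift ℂ A (FreeMonoid (Fin m)) (FreeMonoid.lift a)

/-- All the ways to split a word as `u i v`. -/
def splits {m : ℕ} (i : Fin m) : List (Fin m) → List (List (Fin m) × List (Fin m))
  | [] => []
  | j :: w => (if j = i then [([], w)] else []) ++ (splits i w).map fun s => (j :: s.1, s.2)

/-- The free difference quotient `∂_i`, on noncommutative polynomials: on a word `w` it is the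
sum of `u ⊗ v` over all factorizations `w = u X_i v`. -/
def fdq {m : ℕ} (i : Fin m) : NCPoly m →ₗ[ℂ] NCPoly m ⊗[ℂ] NCPoly m :=
  (MonoidAlgebra.basis (FreeMonoid (Fin m)) ℂ).constr ℂ fun w =>
    ((splits i w.toList).map fun s =>
      mono (FreeMonoid.ofList s.1) ⊗ₜ[ℂ] mono (FreeMonoid.ofList s.2)).sum

/-- The potential `∑ X_i ^ 2 - 2 X_0 ^ 2 + X_0 ^ 4 / 4`. It is of the form
`∑ X_i ^ 2 + t_1 q_1 + t_2 q_2`, with `q_1 = X_0 ^ 2`, `q_2 = X_0 ^ 4`, `t_1 = - 2` and
`t_2 = 1 / 4`. -/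
def crit (m : ℕ) [NeZero m] : NCPoly m :=
  ∑ i, X i ^ 2 + ((-2 : ℂ) • X 0 ^ 2 + (1 / 4 : ℂ) • X 0 ^ 4)

/-! ### Random matrix models -/

/-- The Hermitian matrix with coordinates `x` in the orthonormal basis of the real Hilbert space
`H_n` of `n × n` Hermitian matrices (with inner product `Tr AB`) given by
`(E_jk + E_kj) / 2 + i (E_jk - E_kj) / 2`. -/
def herm {n : ℕ} (x : Fin n → Fin n → ℝ) : Matrix (Fin n) (Fin n) ℂ :=
  Matrix.of fun j k => (((x j k + x k j) / 2 : ℝ) : ℂ) + (((x j k - x k j) / 2 : ℝ) : ℂ) * Complex.I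

/-- The tuple of Hermitian matrices with coordinates `x`. -/
def hermTuple {m n : ℕ} (x : Fin m → Fin n → Fin n → ℝ) : Fin m → Matrix (Fin n) (Fin n) ℂ :=
  fun i => herm (x i)

/-- `exp (- n Tr P(A_1, …, A_m))`, where the `A_i` have coordinates `x`. -/
def weight {m : ℕ} (P : NCPoly m) (n : ℕ) (x : Fin m → Fin n → Fin n → ℝ) : ℝ :=
  Real.exp (-(n * (Matrix.trace (ev (hermTuple x) P)).re))

/-- The law of the random matrix model with potential `P`: the measure with density
proportional to `exp (- n Tr P)` with respect to Lebesgue measure on `H_n^m`. -/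
def law {m : ℕ} (P : NCPoly m) (n : ℕ) : Measure (Fin m → Fin n → Fin n → ℝ) :=
  volume.withDensity fun x => ENNReal.ofReal (weight P n x / ∫ y, weight P n y)

/-- The normalised trace of `q(A_1, …, A_m)`. -/
def ntr {m : ℕ} (q : NCPoly m) (n : ℕ) (x : Fin m → Fin n → Fin n → ℝ) : ℂ :=
  (n : ℂ)⁻¹ * Matrix.trace (ev (hermTuple x) q)

/-- The model with potential `P` converges to `τ`: the laws are probability measures, and for
every noncommutative polynomial `q` the normalised trace of `q` tends to `τ q` in `L^1` and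
completely (so also almost surely, for every coupling of the models). -/
structure ModelConverges {m : ℕ} (P : NCPoly m) (τ : NCPoly m → ℂ) : Prop where
  isProbability : ∀ n, 1 ≤ n → IsProbabilityMeasure (law P n)
  integrable : ∀ q n, 1 ≤ n → Integrable (ntr q n) (law P n)
  mean : ∀ q, Tendsto (fun n => ∫ x, ‖ntr q n x - τ q‖ ∂(law P n)) atTop (𝓝 0)
  complete : ∀ q, ∀ ε : ℝ, 0 < ε →
    ∑' n, law P (n + 1) {x | ε ≤ ‖ntr q (n + 1) x - τ q‖} < ∞

/-! ### Unbounded operators -/

section Operators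

variable {H K : Type*} [NormedAddCommGroup H] [InnerProductSpace ℂ H] [CompleteSpace H]
  [NormedAddCommGroup K] [InnerProductSpace ℂ K] [CompleteSpace K]

/-- `S` is the heat semigroup `S t = exp (- t Δ)`, `t ≥ 0`: the strongly continuous semigroup of
bounded self-adjoint operators with generator `-Δ`. -/
structure IsHeatSemigroup (Δ : H →ₗ.[ℂ] H) (S : ℝ → H →L[ℂ] H) : Prop where
  selfAdjoint : ∀ t, 0 ≤ t → IsSelfAdjoint (S t)
  zero : S 0 = 1
  add : ∀ s t, 0 ≤ s → 0 ≤ t → S (s + t) = S s * S t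
  cont : ∀ x, ContinuousOn (fun t => S t x) (Set.Ici 0)
  gen : ∀ x y, (x, y) ∈ Δ.graph ↔
    Tendsto (fun t : ℝ => (t : ℂ)⁻¹ • (x - S t x)) (𝓝[>] 0) (𝓝 y)

/-- The graph of `T†T`. -/
def normalGraph (T : H →ₗ.[ℂ] K) : Submodule ℂ (H × H) where
  carrier := {p | ∃ z, (p.1, z) ∈ T.graph ∧ (z, p.2) ∈ T†.graph}
  zero_mem' := ⟨0, Submodule.zero_mem _, Submodule.zero_mem _⟩
  add_mem' := by
    rintro ⟨x, y⟩ ⟨x', y'⟩ ⟨z, h1, h2⟩ ⟨z', h1', h2'⟩
    exact ⟨z + z', by simpa using Submodule.add_mem _ h1 h1', by simpa using Submodule.add_mem _ h2 h2'⟩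
  smul_mem' := by
    rintro c ⟨x, y⟩ ⟨z, h1, h2⟩
    exact ⟨c • z, by simpa using Submodule.smul_mem _ c h1, by simpa using Submodule.smul_mem _ c h2⟩

/-- The operator `T†T`. -/
def normalOp (T : H →ₗ.[ℂ] K) : H →ₗ.[ℂ] H := (normalGraph T).toLinearPMap

end Operators

/-! ### The limit -/

section Limit

variable {m : ℕ} {H : Type*} [NormedAddCommGroup H] [InnerProductSpace ℂ H] [CompleteSpace H]

/-- `H` with the vector `Ω` is `L²(M, τ)` with the vector `1`, where `(M, τ)` is the tracial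
von Neumann algebra generated by the self-adjoint limits `a_i` of the matrices of the model. -/
structure IsLimit (P : NCPoly m) (a : Fin m → H →L[ℂ] H) (Ω : H) : Prop where
  selfAdjoint : ∀ i, IsSelfAdjoint (a i)
  norm_one : ‖Ω‖ = 1
  cyclic : Dense (Set.range fun p : NCPoly m => ev a p Ω)
  tracial : ∀ p q : NCPoly m, ⟪Ω, ev a (p * q) Ω⟫_ℂ = ⟪Ω, ev a (q * p) Ω⟫_ℂ
  converges : ModelConverges P fun q => ⟪Ω, ev a q Ω⟫_ℂ

/-- The model with potential `P` has a limit. -/
def HasLimit (P : NCPoly m) : Prop :=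
  ∃ (H : Type) (_ : NormedAddCommGroup H) (_ : InnerProductSpace ℂ H) (_ : CompleteSpace H)
    (a : Fin m → H →L[ℂ] H) (Ω : H), IsLimit P a Ω

/-- The Hilbert space tensor product of `H` with itself. -/
abbrev HTensor (H : Type*) [NormedAddCommGroup H] [InnerProductSpace ℂ H] : Type _ :=
  UniformSpace.Completion (H ⊗[ℂ] H)

/-- The class of a polynomial in `L²(M, τ)`. -/
def cls (a : Fin m → H →L[ℂ] H) (Ω : H) : NCPoly m →ₗ[ℂ] H where
  toFun p := ev a p Ω
  map_add' p q := by simp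
  map_smul' c p := by simp

/-- The class of an element of the algebraic tensor product of polynomials in
`L²(M, τ) ⊗ L²(M, τ)`. -/
def cls₂ (a : Fin m → H →L[ℂ] H) (Ω : H) : NCPoly m ⊗[ℂ] NCPoly m →ₗ[ℂ] HTensor H :=
  (UniformSpace.Completion.toComplL (𝕜 := ℂ) (E := H ⊗[ℂ] H)).toLinearMap ∘ₗ
    TensorProduct.map (cls a Ω) (cls a Ω)

/-- The graph of the free difference quotient `∂_i`, with domain `ℂ⟨a_1, …, a_m⟩`. -/
def fdqGraph (a : Fin m → H →L[ℂ] H) (Ω : H) (i : Fin m) : Submodule ℂ (H × HTensor H) :=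
  LinearMap.range ((cls a Ω).prod (cls₂ a Ω ∘ₗ fdq i))

/-- The free difference quotient `∂_i` as an unbounded operator from `L²(M, τ)` to
`L²(M, τ) ⊗ L²(M, τ)`, with domain `ℂ⟨a_1, …, a_m⟩`. -/
def fdqOp (a : Fin m → H →L[ℂ] H) (Ω : H) (i : Fin m) : H →ₗ.[ℂ] HTensor H :=
  (fdqGraph a Ω i).toLinearPMap

/-- The generators satisfy no polynomial relation, and the conjugate variables `∂_i* (1 ⊗ 1)` exist
(the adjoints are adjoints of well defined, densely defined and closable operators). -/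
structure HasConjugateVariables (a : Fin m → H →L[ℂ] H) (Ω : H) : Prop where
  no_relations : ∀ p : NCPoly m, ev a p = 0 → p = 0
  well_defined : ∀ i, (fdqOp a Ω i).graph = fdqGraph a Ω i
  dense_domain : ∀ i, Dense ((fdqOp a Ω i).domain : Set H)
  closable : ∀ i, (fdqOp a Ω i).IsClosable
  one_mem : ∀ i, cls₂ a Ω (1 ⊗ₜ 1) ∈ (fdqOp a Ω i)†.domain

/-- The free gradient `∂ = (∂_1, …, ∂_m)` of noncommutative polynomials, with values in the Hilbert
space direct sum of `m` copies of `L²(M, τ) ⊗ L²(M, τ)`. -/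
def grad (a : Fin m → H →L[ℂ] H) (Ω : H) : NCPoly m →ₗ[ℂ] PiLp 2 fun _ : Fin m => HTensor H where
  toFun p := WithLp.toLp 2 fun i => cls₂ a Ω (fdq i p)
  map_add' p q := by ext i; simp
  map_smul' c p := by ext i; simp

/-- The graph of the free gradient `∂ = (∂_1, …, ∂_m)`, with domain `ℂ⟨a_1, …, a_m⟩`. -/
def gradGraph (a : Fin m → H →L[ℂ] H) (Ω : H) :
    Submodule ℂ (H × PiLp 2 fun _ : Fin m => HTensor H) :=
  LinearMap.range ((cls a Ω).prod (grad a Ω))

/-- The free gradient `∂ = (∂_1, …, ∂_m)`, as an unbounded operator from `L²(M, τ)` to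
the Hilbert space direct sum of `m` copies of `L²(M, τ) ⊗ L²(M, τ)`. -/
def gradOp (a : Fin m → H →L[ℂ] H) (Ω : H) : H →ₗ.[ℂ] PiLp 2 fun _ : Fin m => HTensor H :=
  (gradGraph a Ω).toLinearPMap

/-- The operator `∂* ∂̄`, where `∂` is the free gradient and `∂̄` its closure. -/
def freeLaplacian (a : Fin m → H →L[ℂ] H) (Ω : H) : H →ₗ.[ℂ] H := normalOp (gradOp a Ω).closure

/-- `Δ` is a positive self-adjoint operator which agrees with `∑ ∂_i* ∂_i` on polynomials: if `p`
is a polynomial such that `∂_i p` is in the domain of `∂_i*` for all `i`, then `p` is in the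
domain of `Δ`, and `Δ p = ∑ ∂_i* ∂_i p`. -/
structure IsFreeLaplacian (a : Fin m → H →L[ℂ] H) (Ω : H) (Δ : H →ₗ.[ℂ] H) : Prop where
  selfAdjoint : IsSelfAdjoint Δ
  nonneg : ∀ x y, (x, y) ∈ Δ.graph → 0 ≤ (⟪x, y⟫_ℂ).re
  agrees : ∀ (p : NCPoly m) (y : Fin m → H),
    (∀ i, (cls₂ a Ω (fdq i p), y i) ∈ (fdqOp a Ω i)†.graph) → (cls a Ω p, ∑ i, y i) ∈ Δ.graph

end Limit

end Pool.Agent.Lib.MP_58f2bb_an
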