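import Pool.Agent.Lib.MP_58f2bb_an.Abstract

/-!
# The limit exists: GNS construction
-/

noncomputable section

set_option linter.unusedSectionVars false
set_option linter.unusedVariables false
set_option linter.unusedSimpArgs false

open scoped TensorProduct InnerProductSpace ComplexConjugate Topology ENNReal
open MeasureTheory Filter

namespace Pool.Agent.Lib.MP_58f2bb_an

variable {m : ℕ} [NeZero m]

/-! ### Moments of one variable -/

omit [NeZero m] in
theorem lm_replicate (i : Fin m) (k : ℕ) : lm (List.replicate k i) = X i ^ k := by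
  induction k with
  | zero => rfl
  | succ k ih => rw [List.replicate_succ, lm_cons, ih, pow_succ']

theorem tau_X_pow_zero (k : ℕ) : tau (X (0 : Fin m) ^ k) = jm k := by
  rw [← lm_replicate, tau_lm, tw_replicate]

theorem tau_X_pow_rec {i : Fin m} (hi : i ≠ 0) (k : ℕ) :
    2 * tau (X i ^ (k + 1)) = ∑ j ∈ Finset.range k, tau (X i ^ j) * tau (X i ^ (k - 1 - j)) := by
  have h := sd i (X i ^ k)
  rw [← lm_replicate, fdq_lm, splits_replicate, List.map_map, map_list_sum, List.map_map] at h
  rw [Finset.sum_range]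
  have h1 : (List.map (⇑(tt (m := m)) ∘ (fun s : List (Fin m) × List (Fin m) =>
      lm s.1 ⊗ₜ[ℂ] lm s.2) ∘ fun j => (List.replicate j i, List.replicate (k - 1 - j) i))
      (List.range k)).sum = ∑ j : Fin k, tau (X i ^ (j : ℕ)) * tau (X i ^ (k - 1 - j)) := by
    rw [← Finset.sum_range (fun j => tau (X i ^ j) * tau (X i ^ (k - 1 - j))), Finset.sum,
      Finset.range_val, Multiset.range, Multiset.map_coe, Multiset.sum_coe]
    apply list_sum_congr_map
    intro j
    simp only [Function.comp, tt_tmul, lm_replicate]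
  rw [h1, Jp, if_neg hi, mul_smul_comm, map_smul, smul_eq_mul, lm_replicate] at h
  rw [← h, pow_succ]
  rfl

theorem tau_X_pow_ne {i : Fin m} (hi : i ≠ 0) (c : ℂ) (hc : c ^ 2 = 1 / 2) (k : ℕ) :
    tau (X i ^ k) = c ^ k * phi k := by
  induction k using Nat.strong_induction_on with
  | _ k ih =>
    rcases k with _ | k
    · simp [tau_one, phi_zero]
    · have h := tau_X_pow_rec hi k
      have h2 : ∑ j ∈ Finset.range k, tau (X i ^ j) * tau (X i ^ (k - 1 - j)) =
          2 * (c ^ (k + 1) * phi (k + 1)) := by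
        rw [phi_succ, Finset.mul_sum, Finset.mul_sum]
        refine Finset.sum_congr rfl fun j hj => ?_
        rw [Finset.mem_range] at hj
        rw [ih j (by omega), ih (k - 1 - j) (by omega)]
        have h3 : c ^ (k + 1) = c ^ j * c ^ (k - 1 - j) * c ^ 2 := by
          rw [← pow_add, ← pow_add]; congr 1; omega
        rw [h3, hc]
        ring
      rw [h2] at h
      exact mul_left_cancel₀ two_ne_zero h

theorem norm_tau_X_pow (i : Fin m) (k : ℕ) : ‖tau (X i ^ k)‖ ≤ 2 ^ k := by
  by_cases hi : i = 0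
  · subst hi
    rw [tau_X_pow_zero]
    exact norm_jm_le k
  · obtain ⟨c, hc⟩ : ∃ c : ℂ, c ^ 2 = 1 / 2 := IsAlgClosed.exists_pow_nat_eq _ (by norm_num)
    rw [tau_X_pow_ne hi c hc, norm_mul, norm_pow]
    have h1 : ‖c‖ ≤ 1 := by
      have : ‖c‖ ^ 2 = 1 / 2 := by rw [← norm_pow, hc]; norm_num
      nlinarith [norm_nonneg c]
    have h2 : ‖c‖ ^ k ≤ 1 := pow_le_one₀ (norm_nonneg c) h1
    calc ‖c‖ ^ k * ‖phi k‖ ≤ 1 * 2 ^ k := by
          gcongr
          exact norm_phi_le k
      _ = 2 ^ k := one_mul _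

/-! ### The pre-Hilbert space -/

/-- type synonym for polynomials, with the inner product `τ(p* q)`. -/
def PV (m : ℕ) [NeZero m] : Type := NCPoly m

instance : AddCommGroup (PV m) := inferInstanceAs (AddCommGroup (NCPoly m))
instance : Module ℂ (PV m) := inferInstanceAs (Module ℂ (NCPoly m))

/-- the identity map. -/
def toPV : NCPoly m ≃ₗ[ℂ] PV m := LinearEquiv.refl ℂ _

open scoped ComplexOrder in
/-- inner product. -/
abbrev pvCore : PreInnerProductSpace.Core ℂ (PV m) where
  inner p q := tau (adj (toPV.symm p) * toPV.symm q)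
  conj_inner_symm p q := by
    rw [← tau_adj, adj_mul, adj_adj]
  re_inner_nonneg p := (RCLike.nonneg_iff.1 (tau_nonneg (toPV.symm p))).1
  add_left p q r := by rw [map_add, adj_add, add_mul, map_add]
  smul_left p q c := by rw [map_smul, adj_smul, smul_mul_assoc, map_smul, smul_eq_mul]

instance : SeminormedAddCommGroup (PV m) :=
  InnerProductSpace.Core.toSeminormedAddCommGroup (c := pvCore)
instance : InnerProductSpace ℂ (PV m) := InnerProductSpace.ofCore pvCore

theorem inner_PV (p q : NCPoly m) : ⟪toPV p, toPV q⟫_ℂ = tau (adj p * q) := rfl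

theorem norm_PV_sq (p : NCPoly m) : ((‖toPV p‖ ^ 2 : ℝ) : ℂ) = tau (adj p * p) := by
  rw [← inner_PV, inner_self_eq_norm_sq_to_K]
  push_cast
  rfl

theorem logconvex_bound (N : ℕ → ℝ) (h0 : ∀ k, 0 ≤ N k)
    (h1 : ∀ k, N (k + 1) ^ 2 ≤ N k * N (k + 2)) (C : ℝ) (h2 : ∀ k, N k ^ 2 ≤ C * 4 ^ k) :
    N 1 ≤ 2 * N 0 := by
  by_contra hcon
  push Not at hcon
  have hN0 : 0 < N 0 := by
    rcases (h0 0).lt_or_eq with h | h
    · exact h
    · exfalso
      have := h1 0
      rw [← h] at this hcon
      simp only [zero_add, zero_mul, mul_zero] at this hcon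
      nlinarith
  set r := N 1 / N 0 with hr
  have hr2 : 2 < r := by rw [hr, lt_div_iff₀ hN0]; exact hcon
  have key : ∀ k, 0 < N k ∧ r * N k ≤ N (k + 1) := by
    intro k
    induction k with
    | zero => exact ⟨hN0, le_of_eq (by rw [hr]; field_simp)⟩
    | succ k ih =>
      have hpos : 0 < N (k + 1) := lt_of_lt_of_le (mul_pos (by linarith) ih.1) ih.2
      refine ⟨hpos, ?_⟩
      have h3 := h1 k
      have h4 : N k * (r * N (k + 1)) ≤ N k * N (k + 2) := by
        calc N k * (r * N (k + 1)) = (r * N k) * N (k + 1) := by ring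
          _ ≤ N (k + 1) * N (k + 1) := by
              exact mul_le_mul_of_nonneg_right ih.2 hpos.le
          _ = N (k + 1) ^ 2 := by ring
          _ ≤ _ := h3
      exact le_of_mul_le_mul_left h4 ih.1
  have key2 : ∀ k, r ^ k * N 0 ≤ N k := by
    intro k
    induction k with
    | zero => simp
    | succ k ih =>
      calc r ^ (k + 1) * N 0 = r * (r ^ k * N 0) := by ring
        _ ≤ r * N k := by
            exact mul_le_mul_of_nonneg_left ih (by linarith)
        _ ≤ _ := (key k).2
  have hq : 1 < r ^ 2 / 4 := by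
    rw [lt_div_iff₀ (by norm_num)]; nlinarith
  have key3 : ∀ k, (r ^ 2 / 4) ^ k ≤ C / N 0 ^ 2 := by
    intro k
    rw [le_div_iff₀ (by positivity), div_pow, div_mul_eq_mul_div, div_le_iff₀ (by positivity)]
    calc (r ^ 2) ^ k * N 0 ^ 2 = (r ^ k * N 0) ^ 2 := by ring
      _ ≤ N k ^ 2 := by
          have := key2 k
          have h5 : 0 ≤ r ^ k * N 0 := mul_nonneg (pow_nonneg (by linarith) _) hN0.le
          gcongr
      _ ≤ _ := h2 k
  obtain ⟨k, hk⟩ := pow_unbounded_of_one_lt (C / N 0 ^ 2) hq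
  exact absurd (key3 k) (not_le.2 hk)

theorem norm_X_mul_le (i : Fin m) (p : NCPoly m) : ‖toPV (X i * p)‖ ≤ 2 * ‖toPV p‖ := by
  have hadj : ∀ k, adj (X i ^ k) = X i ^ k := fun k => by rw [adj_pow, adj_X]
  have h := logconvex_bound (fun k => ‖toPV (X i ^ k * p)‖) (fun k => norm_nonneg _)
    (fun k => ?_) ‖toPV (p * adj p)‖ (fun k => ?_)
  · simpa using h
  · -- Cauchy-Schwarz
    have h1 : ((‖toPV (X i ^ (k + 1) * p)‖ ^ 2 : ℝ) : ℂ) =
        ⟪toPV (X i ^ k * p), toPV (X i ^ (k + 2) * p)⟫_ℂ := by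
      rw [norm_PV_sq, inner_PV, adj_mul, adj_mul, hadj, hadj]
      rw [mul_assoc, ← mul_assoc (X i ^ (k + 1)), ← pow_add, mul_assoc, ← mul_assoc (X i ^ k),
        ← pow_add, show k + 1 + (k + 1) = k + (k + 2) by ring]
    have h2 := norm_inner_le_norm (𝕜 := ℂ) (toPV (X i ^ k * p)) (toPV (X i ^ (k + 2) * p))
    rw [← h1, Complex.norm_real, Real.norm_of_nonneg (by positivity)] at h2
    exact h2
  · have h1 : ((‖toPV (X i ^ k * p)‖ ^ 2 : ℝ) : ℂ) =
        ⟪toPV (X i ^ (2 * k)), toPV (p * adj p)⟫_ℂ := by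
      rw [norm_PV_sq, inner_PV, adj_mul, hadj, hadj, mul_assoc, tau_comm, mul_assoc, mul_assoc,
        ← mul_assoc (X i ^ k), ← pow_add, ← two_mul]
    have h2 := norm_inner_le_norm (𝕜 := ℂ) (toPV (X i ^ (2 * k))) (toPV (p * adj p))
    rw [← h1, Complex.norm_real, Real.norm_of_nonneg (by positivity)] at h2
    refine h2.trans ?_
    rw [mul_comm]
    gcongr
    have h3 : ‖toPV (X i ^ (2 * k))‖ ^ 2 ≤ (4 ^ k) ^ 2 := by
      have h4 := norm_PV_sq (X i ^ (2 * k))
      rw [hadj, ← pow_add] at h4
      have h5 := norm_tau_X_pow i (2 * k + 2 * k)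
      rw [← h4, Complex.norm_real, Real.norm_of_nonneg (by positivity)] at h5
      refine h5.trans (le_of_eq ?_)
      rw [show (4 : ℝ) = 2 ^ 2 by norm_num, ← pow_mul, ← pow_mul]
      congr 1
      ring
    exact le_of_sq_le_sq h3 (by positivity)

/-- left multiplication by a variable. -/
def LX (i : Fin m) : PV m →L[ℂ] PV m :=
  (toPV.toLinearMap ∘ₗ LinearMap.mulLeft ℂ (X i) ∘ₗ toPV.symm.toLinearMap).mkContinuous 2
    fun p => norm_X_mul_le i (toPV.symm p)

theorem LX_apply (i : Fin m) (p : NCPoly m) : LX i (toPV p) = toPV (X i * p) := rfl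

/-- the GNS space. -/
abbrev GH (m : ℕ) [NeZero m] : Type := UniformSpace.Completion (PV m)

/-- the limit operators. -/
def ga (i : Fin m) : GH m →L[ℂ] GH m := (LX i).completion

/-- the cyclic vector. -/
def gO : GH m := (toPV (1 : NCPoly m) : PV m)

theorem ga_coe (i : Fin m) (p : NCPoly m) :
    ga i ((toPV p : PV m) : GH m) = ((toPV (X i * p) : PV m) : GH m) := by
  rw [ga, ContinuousLinearMap.completion_apply_coe, LX_apply]

theorem wv_ga_coe (w : List (Fin m)) (p : NCPoly m) :
    wv ga w ((toPV p : PV m) : GH m) = ((toPV (lm w * p) : PV m) : GH m) := by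
  induction w with
  | nil => simp [lm_nil]
  | cons i w ih => rw [wv_cons, mul_apply_eq_comp, ih, ga_coe, lm_cons, mul_assoc]

theorem ev_ga_coe (p q : NCPoly m) :
    ev ga p ((toPV q : PV m) : GH m) = ((toPV (p * q) : PV m) : GH m) := by
  induction p using lm_induction with
  | zero =>
    simp only [map_zero, zero_mul, zero_apply]
    exact UniformSpace.Completion.coe_zero.symm
  | add p p' hp hp' =>
    rw [map_add, add_apply, hp, hp', add_mul, map_add, UniformSpace.Completion.coe_add]
  | smul c w =>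
    rw [map_smul, smul_apply, ev_lm, wv_ga_coe, smul_mul_assoc, map_smul,
      UniformSpace.Completion.coe_smul]

theorem good_ga : Good (ga (m := m)) gO where
  selfAdjoint i := by
    rw [ContinuousLinearMap.isSelfAdjoint_iff_isSymmetric]
    intro x y
    induction x, y using UniformSpace.Completion.induction_on₂ with
    | hp => exact isClosed_eq (by fun_prop) (by fun_prop)
    | ih x y =>
      have hx : x = toPV (toPV.symm x) := rfl
      have hy : y = toPV (toPV.symm y) := rfl
      rw [hx, hy]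
      change ⟪ga i _, _⟫_ℂ = ⟪_, ga i _⟫_ℂ
      rw [ga_coe, ga_coe, UniformSpace.Completion.inner_coe, UniformSpace.Completion.inner_coe,
        inner_PV, inner_PV, adj_mul, adj_X, mul_assoc]
  cyclic := by
    have h : (Set.range fun p : NCPoly m => ev ga p gO) =
        Set.range ((↑) : PV m → GH m) := by
      ext x
      constructor
      · rintro ⟨p, rfl⟩
        exact ⟨toPV p, by simp only [gO]; rw [ev_ga_coe, mul_one]⟩
      · rintro ⟨p, rfl⟩
        exact ⟨toPV.symm p, by simp only [gO]; rw [ev_ga_coe, mul_one]; rfl⟩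
    rw [h]
    exact UniformSpace.Completion.denseRange_coe
  moments p := by
    rw [gO, ev_ga_coe, UniformSpace.Completion.inner_coe, inner_PV, adj_one, one_mul, mul_one]

theorem exists_limit : IsLimit (crit m) (ga (m := m)) gO := good_ga.isLimit

end Pool.Agent.Lib.MP_58f2bb_an
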