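import Pool.Agent.Lib.MP_58f2bb_an.Resolvent1

/-!
# Existence of the heat semigroup of a self-adjoint nonnegative operator
-/

noncomputable section

set_option linter.unusedSectionVars false

open scoped InnerProductSpace ComplexConjugate Topology
open Filter

namespace Pool.Agent.Lib.MP_58f2bb_an

/-- `exp (- s (1/b - 1))`, extended by `0` to `b ≤ 0`. -/
def hf (s b : ℝ) : ℝ := if b ≤ 0 then 0 else Real.exp (-(s * (b⁻¹ - 1)))

theorem hf_of_pos {s b : ℝ} (hb : 0 < b) : hf s b = Real.exp (-(s * (b⁻¹ - 1))) := by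
  rw [hf, if_neg (not_le.2 hb)]

theorem hf_of_nonpos {s b : ℝ} (hb : b ≤ 0) : hf s b = 0 := by
  rw [hf, if_pos hb]

theorem hf_nonneg (s b : ℝ) : 0 ≤ hf s b := by
  unfold hf; split_ifs
  · exact le_rfl
  · exact (Real.exp_pos _).le

theorem hf_le_one {s b : ℝ} (hs : 0 ≤ s) (hb : b ≤ 1) : hf s b ≤ 1 := by
  rcases le_or_gt b 0 with h | h
  · rw [hf_of_nonpos h]; exact zero_le_one
  · rw [hf_of_pos h]
    apply Real.exp_le_one_iff.2
    have : 1 ≤ b⁻¹ := (one_le_inv₀ h).2 hb
    nlinarith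

theorem hf_add {s t b : ℝ} : hf (s + t) b = hf s b * hf t b := by
  rcases le_or_gt b 0 with h | h
  · simp [hf_of_nonpos h]
  · rw [hf_of_pos h, hf_of_pos h, hf_of_pos h, ← Real.exp_add]
    congr 1; ring

theorem hf_abs_le {s : ℝ} (hs : 0 < s) (b : ℝ) : |hf s b| ≤ Real.exp s / s * |b| := by
  rw [abs_of_nonneg (hf_nonneg _ _)]
  rcases le_or_gt b 0 with h | h
  · rw [hf_of_nonpos h]; positivity
  · rw [hf_of_pos h, abs_of_pos h]
    have h1 : -(s * (b⁻¹ - 1)) = s + -(s / b) := by field_simp; ring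
    rw [h1, Real.exp_add, div_mul_eq_mul_div, mul_div_assoc]
    apply mul_le_mul_of_nonneg_left _ (Real.exp_pos _).le
    have h2 : 0 < s / b := by positivity
    have h3 : s / b ≤ Real.exp (s / b) := by linarith [Real.add_one_le_exp (s / b)]
    rw [Real.exp_neg, ← inv_div s b]
    exact inv_anti₀ h2 h3

theorem hf_continuous {s : ℝ} (hs : 0 < s) : Continuous (hf s) := by
  rw [continuous_iff_continuousAt]
  intro b
  rcases lt_trichotomy b 0 with h | h | h
  · have : hf s =ᶠ[𝓝 b] fun _ => 0 := by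
      filter_upwards [Iio_mem_nhds h] with c hc
      exact hf_of_nonpos (le_of_lt hc)
    exact continuousAt_const.congr this.symm
  · subst h
    rw [ContinuousAt, hf_of_nonpos le_rfl]
    apply squeeze_zero_norm (a := fun b => Real.exp s / s * |b|)
    · intro b
      exact hf_abs_le hs b
    · have : Continuous fun b : ℝ => Real.exp s / s * |b| := by fun_prop
      have h0 := this.tendsto 0
      simpa using h0
  · have : hf s =ᶠ[𝓝 b] fun b => Real.exp (-(s * (b⁻¹ - 1))) := by
      filter_upwards [Ioi_mem_nhds h] with c hc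
      exact hf_of_pos hc
    refine ContinuousAt.congr ?_ this.symm
    have hb : b ≠ 0 := h.ne'
    fun_prop (disch := assumption)

/-- the difference quotient functions. -/
def gq (t b : ℝ) : ℝ := b * (1 - hf t b) / t

theorem gq_continuous {t : ℝ} (ht : 0 < t) : Continuous (gq t) := by
  unfold gq
  have := hf_continuous ht
  fun_prop

theorem gq_nonneg {t b : ℝ} (ht : 0 < t) (hb0 : 0 ≤ b) (hb : b ≤ 1) : 0 ≤ gq t b := by
  unfold gq
  have := hf_le_one ht.le hb
  apply div_nonneg (mul_nonneg hb0 (by linarith)) ht.le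

theorem gq_le {t b : ℝ} (ht : 0 < t) (hb0 : 0 ≤ b) (hb : b ≤ 1) : gq t b ≤ 1 - b := by
  rcases hb0.eq_or_lt with h | h
  · subst h; simp [gq]
  · unfold gq
    rw [div_le_iff₀ ht, hf_of_pos h]
    have h1 := Real.add_one_le_exp (-(t * (b⁻¹ - 1)))
    have h2 : b * (t * (b⁻¹ - 1)) = (1 - b) * t := by field_simp
    nlinarith

theorem gq_diff {t b : ℝ} (ht : 0 < t) (hb0 : 0 ≤ b) (hb : b ≤ 1) :
    |(1 - b) * b - gq t b * b| ≤ t := by
  have h1 := gq_le ht hb0 hb
  rw [← sub_mul, abs_of_nonneg (mul_nonneg (by linarith) hb0)]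
  rcases hb0.eq_or_lt with h | h
  · subst h; simp [ht.le]
  · set c := b⁻¹ - 1 with hc
    have hc0 : 0 ≤ c := by
      have : 1 ≤ b⁻¹ := (one_le_inv₀ h).2 hb
      linarith
    have hbc : b * c = 1 - b := by rw [hc]; field_simp
    -- exp(-tc) ≤ 1 - tc + (tc)^2
    have h2 : Real.exp (-(t * c)) ≤ 1 - t * c + (t * c) ^ 2 := by
      have h3 := Real.add_one_le_exp (t * c)
      have h4 : 0 ≤ t * c := by positivity
      rw [Real.exp_neg]
      calc (Real.exp (t * c))⁻¹ ≤ (t * c + 1)⁻¹ := inv_anti₀ (by linarith) h3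
        _ ≤ 1 - t * c + (t * c) ^ 2 := by
          rw [inv_le_iff_one_le_mul₀ (by linarith)]
          nlinarith [mul_nonneg h4 (mul_nonneg h4 h4)]
    have h5 : gq t b = b * (1 - Real.exp (-(t * c))) / t := by
      rw [gq, hf_of_pos h]
    have h6 : (1 - b) - gq t b ≤ b * (t * c ^ 2) := by
      rw [h5, sub_le_iff_le_add, ← sub_le_iff_le_add', le_div_iff₀ ht]
      have : b * (1 - Real.exp (-(t * c))) ≥ b * (t * c - (t * c) ^ 2) :=
        mul_le_mul_of_nonneg_left (by linarith) h.le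
      nlinarith
    calc (1 - b - gq t b) * b ≤ (b * (t * c ^ 2)) * b := mul_le_mul_of_nonneg_right h6 h.le
      _ = t * (b * c) ^ 2 := by ring
      _ = t * (1 - b) ^ 2 := by rw [hbc]
      _ ≤ t * 1 := mul_le_mul_of_nonneg_left (by nlinarith) ht.le
      _ = t := mul_one _

variable {H : Type*} [NormedAddCommGroup H] [InnerProductSpace ℂ H] [CompleteSpace H]

section
variable {B : H →L[ℂ] H} (hB : B.IsPositive) (hB1 : ‖B‖ ≤ 1)

include hB hB1 in
theorem spec_mem {x : ℝ} (hx : x ∈ spectrum ℝ B) : 0 ≤ x ∧ x ≤ 1 := by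
  constructor
  · have : 0 ≤ B := ContinuousLinearMap.nonneg_iff_isPositive B |>.2 hB
    exact spectrum_nonneg_of_nonneg this hx
  · rcases subsingleton_or_nontrivial H with h | h
    · exfalso
      have : Subsingleton (H →L[ℂ] H) := by infer_instance
      rw [spectrum.of_subsingleton] at hx
      exact hx
    · have h2 := spectrum.norm_le_norm_of_mem hx
      rw [Real.norm_eq_abs] at h2
      exact (le_abs_self x).trans (h2.trans hB1)

/-- the semigroup. -/
def heatSg (B : H →L[ℂ] H) (t : ℝ) : H →L[ℂ] H := if t ≤ 0 then 1 else cfc (hf t) B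

theorem heatSg_pos {t : ℝ} (ht : 0 < t) : heatSg B t = cfc (hf t) B := by
  rw [heatSg, if_neg (not_le.2 ht)]

theorem heatSg_sa (t : ℝ) : IsSelfAdjoint (heatSg B t) := by
  unfold heatSg
  split_ifs
  · exact IsSelfAdjoint.one _
  · exact cfc_predicate _ _

include hB in
theorem heatSg_add {s t : ℝ} (hs : 0 ≤ s) (ht : 0 ≤ t) :
    heatSg B (s + t) = heatSg B s * heatSg B t := by
  rcases hs.eq_or_lt with h | h
  · subst h; simp [heatSg]
  rcases ht.eq_or_lt with h' | h'
  · subst h'; simp [heatSg]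
  rw [heatSg_pos h, heatSg_pos h', heatSg_pos (by linarith),
    ← cfc_mul (hf s) (hf t) B (hf_continuous h).continuousOn (hf_continuous h').continuousOn]
  congr 1
  ext b
  exact hf_add

include hB hB1 in
theorem heatSg_norm_le {t : ℝ} (x : H) : ‖heatSg B t x‖ ≤ ‖x‖ := by
  unfold heatSg
  split_ifs with h
  · simp
  · push Not at h
    have h1 : ‖cfc (hf t) B‖ ≤ 1 := by
      apply norm_cfc_le zero_le_one
      intro b hb
      have := spec_mem hB hB1 hb
      rw [Real.norm_eq_abs, abs_of_nonneg (hf_nonneg _ _)]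
      exact hf_le_one h.le this.2
    calc _ ≤ ‖cfc (hf t) B‖ * ‖x‖ := ContinuousLinearMap.le_opNorm _ _
      _ ≤ 1 * ‖x‖ := by gcongr
      _ = ‖x‖ := one_mul _

include hB hB1 in
theorem gq_norm_le {t : ℝ} (ht : 0 < t) : ‖cfc (gq t) B‖ ≤ 1 := by
  apply norm_cfc_le zero_le_one
  intro b hb
  have := spec_mem hB hB1 hb
  rw [Real.norm_eq_abs, abs_of_nonneg (gq_nonneg ht this.1 this.2)]
  linarith [gq_le ht this.1 this.2]

include hB in
theorem heat_quotient {t : ℝ} (ht : 0 < t) (u : H) :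
    (t : ℂ)⁻¹ • (B u - heatSg B t (B u)) = cfc (gq t) B u := by
  have hsa : IsSelfAdjoint B := hB.isSelfAdjoint
  have h1 : cfc (gq t) B = (t⁻¹ : ℝ) • (B - heatSg B t * B) := by
    rw [heatSg_pos ht]
    have h2 : (gq t) = fun b => t⁻¹ • (b - hf t b * b) := by
      ext b; simp only [gq, smul_eq_mul]; field_simp
    rw [h2, cfc_smul _ _ B (by have := hf_continuous ht; fun_prop),
      cfc_sub _ _ B (by fun_prop) (by have := hf_continuous ht; fun_prop),
      cfc_mul _ _ B (by have := hf_continuous ht; fun_prop) (by fun_prop), cfc_id' ℝ B]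
  rw [h1]
  simp only [smul_apply, sub_apply,
    mul_apply_eq_comp]
  rw [← Complex.ofReal_inv, Complex.coe_smul]

include hB hB1 in
theorem gq_tendsto (hd : Dense (Set.range B)) (u : H) :
    Tendsto (fun t => cfc (gq t) B u) (𝓝[>] 0) (𝓝 (u - B u)) := by
  have hsa : IsSelfAdjoint B := hB.isSelfAdjoint
  rw [Metric.tendsto_nhds]
  intro ε hε
  obtain ⟨_, hw, ⟨w, rfl⟩⟩ := Metric.dense_iff.1 hd u (ε / 4) (by positivity)
  rw [Metric.mem_ball, dist_comm, dist_eq_norm] at hw
  have hev : ∀ᶠ t in 𝓝[>] (0 : ℝ), t * ‖w‖ < ε / 4 := by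
    have hc : Tendsto (fun t : ℝ => t * ‖w‖) (𝓝[>] 0) (𝓝 (0 * ‖w‖)) :=
      (Continuous.tendsto (by fun_prop) 0).mono_left nhdsWithin_le_nhds
    rw [zero_mul] at hc
    exact hc.eventually (gt_mem_nhds (by positivity))
  filter_upwards [self_mem_nhdsWithin, hev] with t ht hev
  rw [Set.mem_Ioi] at ht
  rw [dist_eq_norm]
  have e1 : cfc (gq t) B u - (u - B u) = cfc (gq t) B (u - B w) +
      ((cfc (gq t) B * B - (1 - B) * B) w) - ((u - B w) - B (u - B w)) := by
    simp only [sub_apply, mul_apply_eq_comp, map_sub,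
      one_apply_eq_self]
    abel
  have e2 : cfc (gq t) B * B - (1 - B) * B = cfc (fun b => gq t b * b - (1 - b) * b) B := by
    rw [cfc_sub _ _ B (by have := gq_continuous ht; fun_prop) (by fun_prop),
      cfc_mul _ _ B (by have := gq_continuous ht; fun_prop) (by fun_prop),
      cfc_mul _ _ B (by fun_prop) (by fun_prop),
      cfc_sub _ _ B (by fun_prop) (by fun_prop), cfc_id' ℝ B, cfc_const_one ℝ B]
  have e3 : ‖cfc (gq t) B * B - (1 - B) * B‖ ≤ t := by
    rw [e2]
    apply norm_cfc_le ht.le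
    intro b hb
    have := spec_mem hB hB1 hb
    rw [Real.norm_eq_abs, abs_sub_comm]
    exact gq_diff ht this.1 this.2
  have e4 := gq_norm_le hB hB1 ht
  have e5 : ‖cfc (gq t) B (u - B w)‖ ≤ ‖u - B w‖ := by
    calc _ ≤ ‖cfc (gq t) B‖ * ‖u - B w‖ := ContinuousLinearMap.le_opNorm _ _
      _ ≤ 1 * ‖u - B w‖ := by gcongr
      _ = _ := one_mul _
  have e6 : ‖(cfc (gq t) B * B - (1 - B) * B) w‖ ≤ t * ‖w‖ := by
    calc _ ≤ ‖cfc (gq t) B * B - (1 - B) * B‖ * ‖w‖ := ContinuousLinearMap.le_opNorm _ _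
      _ ≤ t * ‖w‖ := by gcongr
  have e7 : ‖B (u - B w)‖ ≤ ‖u - B w‖ := by
    calc _ ≤ ‖B‖ * ‖u - B w‖ := ContinuousLinearMap.le_opNorm _ _
      _ ≤ 1 * ‖u - B w‖ := by gcongr
      _ = _ := one_mul _
  rw [e1]
  calc _ ≤ ‖cfc (gq t) B (u - B w) + ((cfc (gq t) B * B - (1 - B) * B) w)‖ +
        ‖(u - B w) - B (u - B w)‖ := norm_sub_le _ _
    _ ≤ (‖cfc (gq t) B (u - B w)‖ + ‖(cfc (gq t) B * B - (1 - B) * B) w‖) +
        (‖u - B w‖ + ‖B (u - B w)‖) := add_le_add (norm_add_le _ _) (norm_sub_le _ _)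
    _ < ε := by linarith

include hB hB1 in
theorem heatSg_tendsto_zero (hd : Dense (Set.range B)) (x : H) :
    Tendsto (fun t => heatSg B t x) (𝓝[>] 0) (𝓝 x) := by
  rw [Metric.tendsto_nhds]
  intro ε hε
  obtain ⟨_, hw, ⟨w, rfl⟩⟩ := Metric.dense_iff.1 hd x (ε / 4) (by positivity)
  rw [Metric.mem_ball, dist_comm, dist_eq_norm] at hw
  have hev : ∀ᶠ t in 𝓝[>] (0 : ℝ), t * ‖w‖ < ε / 4 := by
    have hc : Tendsto (fun t : ℝ => t * ‖w‖) (𝓝[>] 0) (𝓝 (0 * ‖w‖)) :=
      (Continuous.tendsto (by fun_prop) 0).mono_left nhdsWithin_le_nhds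
    rw [zero_mul] at hc
    exact hc.eventually (gt_mem_nhds (by positivity))
  filter_upwards [self_mem_nhdsWithin, hev] with t ht hev
  rw [Set.mem_Ioi] at ht
  rw [dist_eq_norm]
  have e0 : B w - heatSg B t (B w) = (t : ℂ) • cfc (gq t) B w := by
    rw [← heat_quotient hB ht w, smul_smul, mul_inv_cancel₀ (by exact_mod_cast ht.ne'), one_smul]
  have e0' : ‖B w - heatSg B t (B w)‖ ≤ t * ‖w‖ := by
    rw [e0, norm_smul, Complex.norm_real, Real.norm_eq_abs, abs_of_pos ht]
    have : ‖cfc (gq t) B w‖ ≤ ‖w‖ := by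
      calc _ ≤ ‖cfc (gq t) B‖ * ‖w‖ := ContinuousLinearMap.le_opNorm _ _
        _ ≤ 1 * ‖w‖ := by gcongr; exact gq_norm_le hB hB1 ht
        _ = _ := one_mul _
    gcongr
  have e1 : heatSg B t x - x = heatSg B t (x - B w) - (B w - heatSg B t (B w)) - (x - B w) := by
    rw [map_sub]; abel
  rw [e1]
  calc _ ≤ ‖heatSg B t (x - B w) - (B w - heatSg B t (B w))‖ + ‖x - B w‖ := norm_sub_le _ _
    _ ≤ (‖heatSg B t (x - B w)‖ + ‖B w - heatSg B t (B w)‖) + ‖x - B w‖ := by
        gcongr; exact norm_sub_le _ _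
    _ ≤ (‖x - B w‖ + t * ‖w‖) + ‖x - B w‖ := by
        gcongr
        exact heatSg_norm_le hB hB1 _
    _ < ε := by linarith

end

/-- A self-adjoint nonnegative operator generates a heat semigroup. -/
theorem NonnegSA.exists_heat {Δ : H →ₗ.[ℂ] H} (h : NonnegSA Δ) : ∃ S, IsHeatSemigroup Δ S := by
  obtain ⟨B, hB1, hB2, hB3, hB4⟩ := h.exists_resolvent
  have hd : Dense (Set.range B) := by
    apply h.sa.dense_domain.mono
    intro x hx
    obtain ⟨y, hy⟩ := LinearPMap.mem_domain_iff.1 hx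
    exact ⟨x + y, hB2 x y hy⟩
  refine ⟨heatSg B, fun t _ => heatSg_sa t, by simp [heatSg], fun s t hs ht =>
    heatSg_add hB4 hs ht, ?_, ?_⟩
  · -- strong continuity
    intro x
    have h0 : ∀ y : H, ∀ ε > 0, ∃ δ > 0, ∀ t, 0 ≤ t → t < δ → ‖heatSg B t y - y‖ < ε := by
      intro y ε hε
      have := heatSg_tendsto_zero hB4 hB3 hd y
      rw [Metric.tendsto_nhdsWithin_nhds] at this
      obtain ⟨δ, hδ, h2⟩ := this ε hε
      refine ⟨δ, hδ, fun t ht0 ht => ?_⟩
      rcases ht0.eq_or_lt with h' | h'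
      · subst h'; simpa [heatSg] using hε
      · rw [← dist_eq_norm]
        apply h2 h'
        rw [Real.dist_eq, sub_zero, abs_of_pos h']
        exact ht
    rw [Metric.continuousOn_iff]
    intro t ht ε hε
    obtain ⟨δ, hδ, h2⟩ := h0 x ε hε
    refine ⟨δ, hδ, fun s hs hst => ?_⟩
    rw [Set.mem_Ici] at hs ht
    rw [Real.dist_eq] at hst
    rw [dist_eq_norm]
    rcases le_total s t with hle | hle
    · have e1 : t = s + (t - s) := by ring
      rw [e1, heatSg_add hB4 hs (by linarith), mul_apply_eq_comp, ← map_sub]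
      refine lt_of_le_of_lt (heatSg_norm_le hB4 hB3 _) ?_
      rw [norm_sub_rev]
      apply h2 _ (by linarith)
      rw [abs_sub_comm, abs_of_nonneg (by linarith)] at hst
      exact hst
    · have e1 : s = t + (s - t) := by ring
      rw [e1, heatSg_add hB4 ht (by linarith), mul_apply_eq_comp, ← map_sub]
      refine lt_of_le_of_lt (heatSg_norm_le hB4 hB3 _) ?_
      apply h2 _ (by linarith)
      rw [abs_of_nonneg (by linarith)] at hst
      exact hst
  · intro x y
    have key : ∀ u : H, Tendsto (fun t : ℝ => (t : ℂ)⁻¹ • (B u - heatSg B t (B u))) (𝓝[>] 0)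
        (𝓝 (u - B u)) := by
      intro u
      refine (gq_tendsto hB4 hB3 hd u).congr' ?_
      filter_upwards [self_mem_nhdsWithin] with t ht
      exact (heat_quotient hB4 ht u).symm
    constructor
    · intro hxy
      have e1 := hB2 x y hxy
      have := key (x + y)
      rw [e1] at this
      simpa using this
    · intro hlim
      -- B commutes with the semigroup
      have hcomm : ∀ t : ℝ, ∀ v, B (heatSg B t v) = heatSg B t (B v) := by
        intro t v
        have hc : Commute B (heatSg B t) := by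
          unfold heatSg
          split_ifs
          · exact Commute.one_right _
          · have hh := cfc_commute_cfc (R := ℝ) id (hf t) B
            rwa [cfc_id ℝ B hB4.isSelfAdjoint] at hh
        have := congrArg (fun L : H →L[ℂ] H => L v) hc.eq
        simpa [mul_apply_eq_comp] using this
      have h1 : Tendsto (fun t : ℝ => B ((t : ℂ)⁻¹ • (x - heatSg B t x))) (𝓝[>] 0) (𝓝 (B y)) :=
        (B.continuous.tendsto y).comp hlim
      have h2 : Tendsto (fun t : ℝ => B ((t : ℂ)⁻¹ • (x - heatSg B t x))) (𝓝[>] 0)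
          (𝓝 (x - B x)) := by
        refine (key x).congr fun t => ?_
        rw [map_smul, map_sub, hcomm]
      have h3 : B y = x - B x := tendsto_nhds_unique h1 h2
      have h4 : B (x + y) = x := by rw [map_add, h3]; abel
      have h5 := hB1 (x + y)
      rw [h4] at h5
      simpa using h5

end Pool.Agent.Lib.MP_58f2bb_an
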