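import Pool.Agent.Lib.MP_58f2bb_an.Words

/-!
# Integration by parts for the critical quartic model
-/

noncomputable section

set_option linter.unusedSectionVars false
set_option linter.unusedVariables false
set_option linter.unusedSimpArgs false

open scoped TensorProduct InnerProductSpace ComplexConjugate Topology ENNReal
open MeasureTheory Filter

namespace Pool.Agent.Lib.MP_58f2bb_an

variable {m n : ℕ}

/-- Coordinates of tuples of Hermitian matrices. -/
abbrev Coord (m n : ℕ) : Type := Fin m → Fin n → Fin n → ℝ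

/-- Continuous functions of polynomial growth. -/
def PG (f : Coord m n → ℂ) : Prop :=
  Continuous f ∧ ∃ (C : ℝ) (N : ℕ), 0 ≤ C ∧ ∀ x, ‖f x‖ ≤ C * (1 + ‖x‖) ^ N

theorem PG.const (c : ℂ) : PG (fun _ : Coord m n => c) :=
  ⟨continuous_const, ‖c‖, 0, norm_nonneg _, by simp⟩

theorem PG.add {f g : Coord m n → ℂ} (hf : PG f) (hg : PG g) : PG (fun x => f x + g x) := by
  obtain ⟨hf1, C, N, hC, hf2⟩ := hf
  obtain ⟨hg1, D, M, hD, hg2⟩ := hg
  refine ⟨hf1.add hg1, C + D, N + M, by positivity, fun x => ?_⟩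
  have h1 : (1 : ℝ) ≤ 1 + ‖x‖ := by linarith [norm_nonneg x]
  calc ‖f x + g x‖ ≤ ‖f x‖ + ‖g x‖ := norm_add_le _ _
    _ ≤ C * (1 + ‖x‖) ^ N + D * (1 + ‖x‖) ^ M := add_le_add (hf2 x) (hg2 x)
    _ ≤ C * (1 + ‖x‖) ^ (N + M) + D * (1 + ‖x‖) ^ (N + M) := by
        gcongr
        · omega
        · omega
    _ = _ := by ring

theorem PG.mul {f g : Coord m n → ℂ} (hf : PG f) (hg : PG g) : PG (fun x => f x * g x) := by
  obtain ⟨hf1, C, N, hC, hf2⟩ := hf
  obtain ⟨hg1, D, M, hD, hg2⟩ := hg
  refine ⟨hf1.mul hg1, C * D, N + M, by positivity, fun x => ?_⟩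
  calc ‖f x * g x‖ = ‖f x‖ * ‖g x‖ := norm_mul _ _
    _ ≤ (C * (1 + ‖x‖) ^ N) * (D * (1 + ‖x‖) ^ M) := by
        gcongr
        · exact hf2 x
        · exact hg2 x
    _ = _ := by ring

theorem PG.neg {f : Coord m n → ℂ} (hf : PG f) : PG (fun x => - f x) := by
  obtain ⟨hf1, C, N, hC, hf2⟩ := hf
  exact ⟨hf1.neg, C, N, hC, fun x => by rw [norm_neg]; exact hf2 x⟩

theorem PG.sub {f g : Coord m n → ℂ} (hf : PG f) (hg : PG g) : PG (fun x => f x - g x) := by
  simpa [sub_eq_add_neg] using hf.add hg.neg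

theorem PG.conj {f : Coord m n → ℂ} (hf : PG f) : PG (fun x => conj (f x)) := by
  obtain ⟨hf1, C, N, hC, hf2⟩ := hf
  exact ⟨Complex.continuous_conj.comp hf1, C, N, hC, fun x => by
    rw [RCLike.norm_conj]; exact hf2 x⟩

theorem PG.const_mul {f : Coord m n → ℂ} (c : ℂ) (hf : PG f) : PG (fun x => c * f x) :=
  (PG.const c).mul hf

theorem PG.sum {ι : Type*} (s : Finset ι) {f : ι → Coord m n → ℂ} (hf : ∀ i ∈ s, PG (f i)) :
    PG (fun x => ∑ i ∈ s, f i x) := by
  classical
  induction s using Finset.induction_on with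
  | empty => simpa using PG.const 0
  | insert a s ha ih =>
    simp only [Finset.sum_insert ha]
    exact (hf a (Finset.mem_insert_self _ _)).add
      (ih fun i hi => hf i (Finset.mem_insert_of_mem hi))

theorem PG.listSum {ι : Type*} (s : List ι) {f : ι → Coord m n → ℂ} (hf : ∀ i ∈ s, PG (f i)) :
    PG (fun x => (s.map fun i => f i x).sum) := by
  induction s with
  | nil => simpa using PG.const 0
  | cons a s ih =>
    simp only [List.map_cons, List.sum_cons]
    exact (hf a (by simp)).add (ih fun i hi => hf i (by simp [hi]))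

theorem coord_le (x : Coord m n) (i : Fin m) (j k : Fin n) : |x i j k| ≤ ‖x‖ := by
  have h1 : ‖x i j k‖ ≤ ‖x i j‖ := norm_le_pi_norm (x i j) k
  have h2 : ‖x i j‖ ≤ ‖x i‖ := norm_le_pi_norm (x i) j
  have h3 : ‖x i‖ ≤ ‖x‖ := norm_le_pi_norm x i
  rw [Real.norm_eq_abs] at h1
  linarith

theorem PG.hermTuple (i : Fin m) (a b : Fin n) : PG (fun x : Coord m n => hermTuple x i a b) := by
  constructor
  · simp only [MP_58f2bb_an.hermTuple, herm_apply]
    fun_prop
  · refine ⟨2, 1, by norm_num, fun x => ?_⟩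
    simp only [MP_58f2bb_an.hermTuple, herm_apply]
    have h1 : ‖(1 + Complex.I) / 2‖ ≤ 1 := by
      calc _ = ‖1 + Complex.I‖ / 2 := by simp
        _ ≤ (‖(1 : ℂ)‖ + ‖Complex.I‖) / 2 := by gcongr; exact norm_add_le _ _
        _ = 1 := by simp
    have h2 : ‖(1 - Complex.I) / 2‖ ≤ 1 := by
      calc _ = ‖1 - Complex.I‖ / 2 := by simp
        _ ≤ (‖(1 : ℂ)‖ + ‖Complex.I‖) / 2 := by gcongr; exact norm_sub_le _ _
        _ = 1 := by simp
    calc _ ≤ ‖(1 + Complex.I) / 2 * (x i a b : ℂ)‖ + ‖(1 - Complex.I) / 2 * (x i b a : ℂ)‖ :=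
          norm_add_le _ _
      _ = ‖(1 + Complex.I) / 2‖ * |x i a b| + ‖(1 - Complex.I) / 2‖ * |x i b a| := by
          rw [norm_mul, norm_mul, Complex.norm_real, Complex.norm_real, Real.norm_eq_abs,
            Real.norm_eq_abs]
      _ ≤ 1 * ‖x‖ + 1 * ‖x‖ := by
          gcongr
          · exact coord_le x i a b
          · exact coord_le x i b a
      _ ≤ 2 * (1 + ‖x‖) ^ 1 := by linarith

/-- matrix valued functions with entries of polynomial growth. -/
def MPG (F : Coord m n → Matrix (Fin n) (Fin n) ℂ) : Prop := ∀ a b, PG fun x => F x a b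

theorem MPG.const (c : Matrix (Fin n) (Fin n) ℂ) : MPG (fun _ : Coord m n => c) :=
  fun a b => PG.const _

theorem MPG.mul {F G : Coord m n → Matrix (Fin n) (Fin n) ℂ} (hF : MPG F) (hG : MPG G) :
    MPG (fun x => F x * G x) := by
  intro a b
  simp only [Matrix.mul_apply]
  exact PG.sum _ fun c _ => (hF a c).mul (hG c b)

theorem MPG.add {F G : Coord m n → Matrix (Fin n) (Fin n) ℂ} (hF : MPG F) (hG : MPG G) :
    MPG (fun x => F x + G x) := fun a b => by
  simp only [Matrix.add_apply]; exact (hF a b).add (hG a b)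

theorem MPG.sub {F G : Coord m n → Matrix (Fin n) (Fin n) ℂ} (hF : MPG F) (hG : MPG G) :
    MPG (fun x => F x - G x) := fun a b => by
  simp only [Matrix.sub_apply]; exact (hF a b).sub (hG a b)

theorem MPG.smul {F : Coord m n → Matrix (Fin n) (Fin n) ℂ} (c : ℂ) (hF : MPG F) :
    MPG (fun x => c • F x) := fun a b => by
  simp only [Matrix.smul_apply, smul_eq_mul]; exact (hF a b).const_mul c

theorem MPG.hermTuple (i : Fin m) : MPG (fun x : Coord m n => hermTuple x i) :=
  fun a b => PG.hermTuple i a b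

theorem MPG.wv (w : List (Fin m)) : MPG (fun x : Coord m n => wv (MP_58f2bb_an.hermTuple x) w) := by
  induction w with
  | nil => exact MPG.const _
  | cons l w ih =>
    simp only [wv_cons]
    exact (MPG.hermTuple l).mul ih

theorem MPG.trace {F : Coord m n → Matrix (Fin n) (Fin n) ℂ} (hF : MPG F) :
    PG (fun x => Matrix.trace (F x)) := by
  simp only [Matrix.trace, Matrix.diag_apply]
  exact PG.sum _ fun c _ => hF c c

theorem MPG.dw (i : Fin m) (E : Matrix (Fin n) (Fin n) ℂ) (w : List (Fin m)) :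
    MPG (fun x : Coord m n => dw (MP_58f2bb_an.hermTuple x) i E w) := by
  induction w with
  | nil => simpa using MPG.const _
  | cons l w ih =>
    simp only [dw_cons]
    exact ((MPG.const _).mul (MPG.wv w)).add ((MPG.hermTuple l).mul ih)

/-! ### The critical potential -/

variable [NeZero m]

/-- trace of the potential. -/
def Vc (x : Coord m n) : ℂ :=
  ∑ i, Matrix.trace (wv (hermTuple x) [i, i]) + (-2 * Matrix.trace (wv (hermTuple x) [0, 0]) +
    1 / 4 * Matrix.trace (wv (hermTuple x) [0, 0, 0, 0]))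

theorem trace_ev_crit (x : Coord m n) :
    Matrix.trace (ev (hermTuple x) (crit m)) = Vc x := by
  simp only [crit, map_add, map_sum, map_pow, map_smul, ev_X, Matrix.trace_add,
    Matrix.trace_sum, Matrix.trace_smul, smul_eq_mul, Vc, wv_cons, wv_nil, mul_one]
  simp only [pow_succ, pow_zero, one_mul, mul_assoc]

/-- cyclic gradient of the critical potential, evaluated. -/
def DP {A : Type*} [Ring A] [Algebra ℂ A] (a : Fin m → A) (i : Fin m) : A :=
  if i = 0 then a 0 ^ 3 - (2 : ℂ) • a 0 else (2 : ℂ) • a i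

theorem hasDerivAt_trace {F : ℝ → Matrix (Fin n) (Fin n) ℂ} {F' : Matrix (Fin n) (Fin n) ℂ}
    {t : ℝ} (hF : ∀ a b, HasDerivAt (fun s => F s a b) (F' a b) t) :
    HasDerivAt (fun s => Matrix.trace (F s)) (Matrix.trace F') t := by
  simp only [Matrix.trace, Matrix.diag_apply]
  exact HasDerivAt.fun_sum fun c _ => hF c c

theorem hasLineDerivAt_trace_wv (x : Coord m n) (i : Fin m) (j k : Fin n) (w : List (Fin m)) :
    HasLineDerivAt ℝ (fun x : Coord m n => Matrix.trace (wv (hermTuple x) w))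
      (Matrix.trace (dw (hermTuple x) i (mu j k) w)) x (eb i j k) :=
  hasDerivAt_trace fun a b => hasDerivAt_wv x i j k w a b

theorem hasLineDerivAt_Vc (x : Coord m n) (i : Fin m) (j k : Fin n) :
    HasLineDerivAt ℝ (Vc : Coord m n → ℂ) (Matrix.trace (mu j k * DP (hermTuple x) i)) x
      (eb i j k) := by
  have h1 : HasLineDerivAt ℝ (Vc : Coord m n → ℂ)
      (∑ l, Matrix.trace (dw (hermTuple x) i (mu j k) [l, l]) +
        (-2 * Matrix.trace (dw (hermTuple x) i (mu j k) [0, 0]) +
        1 / 4 * Matrix.trace (dw (hermTuple x) i (mu j k) [0, 0, 0, 0]))) x (eb i j k) := by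
    unfold Vc
    apply HasDerivAt.add
    · exact HasDerivAt.fun_sum fun l _ => hasLineDerivAt_trace_wv x i j k [l, l]
    · apply HasDerivAt.add
      · exact (hasLineDerivAt_trace_wv x i j k [0, 0]).const_mul (-2)
      · exact (hasLineDerivAt_trace_wv x i j k [0, 0, 0, 0]).const_mul (1 / 4)
  convert h1 using 1
  set A := hermTuple x with hA
  have h2 : ∀ l, Matrix.trace (dw A i (mu j k) [l, l]) =
      if l = i then 2 * Matrix.trace (mu j k * A i) else 0 := by
    intro l
    simp only [dw_cons, dw_nil, wv_cons, wv_nil, mul_one, mul_zero, add_zero]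
    split_ifs with h
    · subst h
      rw [Matrix.trace_add, Matrix.trace_mul_comm (A l) (mu j k)]; ring
    · simp
  simp only [h2, Finset.sum_ite_eq', Finset.mem_univ, if_true]
  by_cases hi : i = 0
  · subst hi
    have h3 : Matrix.trace (dw A 0 (mu j k) [0, 0, 0, 0]) = 4 * Matrix.trace (mu j k * A 0 ^ 3) := by
      simp only [dw_cons, dw_nil, wv_cons, wv_nil, mul_one, mul_zero, add_zero, if_true]
      simp only [mul_add, Matrix.trace_add]
      have e1 : Matrix.trace (mu j k * (A 0 * (A 0 * A 0))) = Matrix.trace (mu j k * A 0 ^ 3) := by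
        congr 1; simp only [pow_succ, pow_zero, one_mul, mul_assoc]
      have e2 : Matrix.trace (A 0 * (mu j k * (A 0 * A 0))) = Matrix.trace (mu j k * A 0 ^ 3) := by
        rw [Matrix.trace_mul_comm]; congr 1; simp only [pow_succ, pow_zero, one_mul, mul_assoc]
      have e3 : Matrix.trace (A 0 * (A 0 * (mu j k * A 0))) = Matrix.trace (mu j k * A 0 ^ 3) := by
        rw [← mul_assoc, Matrix.trace_mul_comm]; congr 1
        simp only [pow_succ, pow_zero, one_mul, mul_assoc]
      have e4 : Matrix.trace (A 0 * (A 0 * (A 0 * mu j k))) = Matrix.trace (mu j k * A 0 ^ 3) := by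
        rw [← mul_assoc, ← mul_assoc, Matrix.trace_mul_comm]; congr 1
        simp only [pow_succ, pow_zero, one_mul, mul_assoc]
      rw [e1, e2, e3, e4]; ring
    rw [h3]
    simp only [DP, if_true, mul_sub, Matrix.trace_sub, Matrix.mul_smul, Matrix.trace_smul,
      smul_eq_mul]
    ring
  · have h3 : Matrix.trace (dw A i (mu j k) [0, 0, 0, 0]) = 0 := by
      simp [dw_cons, Ne.symm hi]
    rw [h3]
    simp only [DP, if_neg hi, if_neg (Ne.symm hi), Matrix.mul_smul, Matrix.trace_smul, smul_eq_mul]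
    ring

end Pool.Agent.Lib.MP_58f2bb_an
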