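import Pool.Agent.Lib.MP_58f2bb_an.IBP

/-!
# Integrability and integration by parts for the critical quartic model
-/

noncomputable section

set_option linter.unusedSectionVars false
set_option linter.unusedVariables false
set_option linter.unusedSimpArgs false

open scoped TensorProduct InnerProductSpace ComplexConjugate Topology ENNReal
open MeasureTheory Filter

namespace Pool.Agent.Lib.MP_58f2bb_an

variable {m n : ℕ} [NeZero m]

theorem trace_herm_sq (x : Fin n → Fin n → ℝ) :
    Matrix.trace (herm x * herm x) = ((∑ j, ∑ k, x j k ^ 2 : ℝ) : ℂ) := by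
  have h1 : Matrix.trace (herm x * herm x) = ∑ j, ∑ k, herm x j k * herm x k j := by
    simp [Matrix.trace, Matrix.mul_apply]
  have h2 : ∀ j k, herm x j k * herm x k j =
      (1 / 2) * ((x j k : ℂ) ^ 2) + (1 / 2) * ((x k j : ℂ) ^ 2) := by
    intro j k
    rw [herm_apply, herm_apply]
    have : Complex.I * Complex.I = -1 := Complex.I_mul_I
    linear_combination ((x j k : ℂ) * (x k j : ℂ) / 2 - (x j k : ℂ) ^ 2 / 4
      - (x k j : ℂ) ^ 2 / 4) * this
  rw [h1]
  simp only [h2, Finset.sum_add_distrib]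
  have h3 : ∑ j, ∑ k, (1 / 2 : ℂ) * ((x k j : ℂ) ^ 2) = ∑ j, ∑ k, (1 / 2 : ℂ) * ((x j k : ℂ) ^ 2) :=
    Finset.sum_comm
  rw [h3]
  simp only [← Finset.mul_sum]
  push_cast
  ring

theorem hermTuple_isHermitian (x : Coord m n) (i : Fin m) : (hermTuple x i).IsHermitian :=
  herm_isHermitian _

/-- The completed square. -/
def Bq (x : Coord m n) : Matrix (Fin n) (Fin n) ℂ :=
  (1 / 2 : ℂ) • (hermTuple x 0 * hermTuple x 0) - (2 : ℂ) • 1

theorem Bq_isHermitian (x : Coord m n) : (Bq x).IsHermitian := by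
  have h := hermTuple_isHermitian x 0
  unfold Bq Matrix.IsHermitian
  rw [Matrix.conjTranspose_sub, Matrix.conjTranspose_smul, Matrix.conjTranspose_mul,
    h.eq, Matrix.conjTranspose_smul, Matrix.conjTranspose_one]
  simp

theorem trace_Bq (x : Coord m n) : Matrix.trace (Bq x * Bq x) =
    ((∑ a, ∑ b, ‖Bq x a b‖ ^ 2 : ℝ) : ℂ) := by
  have h1 : Matrix.trace (Bq x * Bq x) = ∑ a, ∑ b, Bq x a b * Bq x b a := by
    simp [Matrix.trace, Matrix.mul_apply]
  rw [h1]
  push_cast
  refine Finset.sum_congr rfl fun a _ => Finset.sum_congr rfl fun b _ => ?_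
  rw [← (Bq_isHermitian x).apply b a]
  exact Complex.mul_conj' (Bq x a b)

/-- the potential as a real number. -/
def Vr (x : Coord m n) : ℝ :=
  ∑ i, ∑ j, ∑ k, x i j k ^ 2 + ∑ a, ∑ b, ‖Bq x a b‖ ^ 2 - 4 * n

theorem Vc_eq (x : Coord m n) : Vc x = (Vr x : ℂ) := by
  have h1 : Matrix.trace (Bq x * Bq x) = 1 / 4 * Matrix.trace (wv (hermTuple x) [0, 0, 0, 0]) -
      2 * Matrix.trace (wv (hermTuple x) [0, 0]) + 4 * n := by
    have h2 : Bq x * Bq x = (1 / 4 : ℂ) • wv (hermTuple x) [0, 0, 0, 0] -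
        (2 : ℂ) • wv (hermTuple x) [0, 0] + (4 : ℂ) • 1 := by
      simp only [Bq, wv_cons, wv_nil, mul_one, sub_mul, mul_sub, Matrix.smul_mul, Matrix.mul_smul,
        one_mul, smul_smul, mul_assoc]
      module
    rw [h2, Matrix.trace_add, Matrix.trace_sub, Matrix.trace_smul, Matrix.trace_smul,
      Matrix.trace_smul, Matrix.trace_one]
    simp
  have h3 : ∀ i, Matrix.trace (wv (hermTuple x) [i, i]) = ((∑ j, ∑ k, x i j k ^ 2 : ℝ) : ℂ) := by
    intro i
    simp only [wv_cons, wv_nil, mul_one, hermTuple]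
    exact trace_herm_sq _
  have h4 : Vc x = ∑ i, Matrix.trace (wv (hermTuple x) [i, i]) + Matrix.trace (Bq x * Bq x)
      - 4 * n := by
    rw [h1, Vc]; ring
  rw [h4, trace_Bq, Finset.sum_congr rfl fun i _ => h3 i, Vr]
  push_cast
  ring

theorem norm_sq_le_sum (x : Coord m n) : ‖x‖ ^ 2 ≤ ∑ i, ∑ j, ∑ k, x i j k ^ 2 := by
  set S := ∑ i, ∑ j, ∑ k, x i j k ^ 2 with hS
  have hS0 : 0 ≤ S := by positivity
  have h1 : ∀ i j k, x i j k ^ 2 ≤ S := by
    intro i j k
    calc x i j k ^ 2 ≤ ∑ k, x i j k ^ 2 :=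
          Finset.single_le_sum (f := fun k => x i j k ^ 2) (fun _ _ => sq_nonneg _)
            (Finset.mem_univ k)
      _ ≤ ∑ j, ∑ k, x i j k ^ 2 :=
          Finset.single_le_sum (f := fun j => ∑ k, x i j k ^ 2) (fun _ _ => by positivity)
            (Finset.mem_univ j)
      _ ≤ _ := Finset.single_le_sum (f := fun i => ∑ j, ∑ k, x i j k ^ 2)
            (fun _ _ => by positivity) (Finset.mem_univ i)
  have h2 : ‖x‖ ≤ Real.sqrt S := by
    rw [pi_norm_le_iff_of_nonneg (Real.sqrt_nonneg _)]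
    intro i
    rw [pi_norm_le_iff_of_nonneg (Real.sqrt_nonneg _)]
    intro j
    rw [pi_norm_le_iff_of_nonneg (Real.sqrt_nonneg _)]
    intro k
    rw [Real.norm_eq_abs]
    exact Real.abs_le_sqrt (h1 i j k)
  calc ‖x‖ ^ 2 ≤ Real.sqrt S ^ 2 := by gcongr
    _ = S := Real.sq_sqrt hS0

theorem Vr_lower (x : Coord m n) : ‖x‖ ^ 2 - 4 * n ≤ Vr x := by
  have h1 := norm_sq_le_sum x
  have h2 : 0 ≤ ∑ a, ∑ b, ‖Bq x a b‖ ^ 2 := by positivity
  unfold Vr
  linarith

/-- the weight. -/
def W (m n : ℕ) [NeZero m] (x : Coord m n) : ℝ := Real.exp (-(n * Vr x))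

theorem weight_eq (x : Coord m n) : weight (crit m) n x = W m n x := by
  rw [weight, trace_ev_crit, Vc_eq, Complex.ofReal_re, W]

theorem continuous_Vc : Continuous (Vc : Coord m n → ℂ) := by
  unfold Vc
  have h := fun w => (MPG.wv (m := m) (n := n) w).trace.1
  refine Continuous.add (continuous_finsetSum _ fun i _ => h _) (Continuous.add ?_ ?_)
  · exact continuous_const.mul (h _)
  · exact continuous_const.mul (h _)

theorem continuous_Vr : Continuous (Vr : Coord m n → ℝ) := by
  have : (Vr : Coord m n → ℝ) = fun x => (Vc x).re := by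
    ext x; rw [Vc_eq, Complex.ofReal_re]
  rw [this]
  exact Complex.continuous_re.comp continuous_Vc

theorem continuous_W : Continuous (W m n) := by
  unfold W
  have := continuous_Vr (m := m) (n := n)
  fun_prop

theorem W_pos (x : Coord m n) : 0 < W m n x := Real.exp_pos _

theorem W_le (hn : 1 ≤ n) (x : Coord m n) :
    W m n x ≤ Real.exp (4 * n ^ 2) * Real.exp (-‖x‖ ^ 2) := by
  rw [W, ← Real.exp_add]
  apply Real.exp_le_exp.2
  have h1 := Vr_lower x
  have h2 : (1 : ℝ) ≤ n := by exact_mod_cast hn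
  have h3 : (n : ℝ) * (‖x‖ ^ 2 - 4 * n) ≤ n * Vr x := by gcongr
  nlinarith [sq_nonneg ‖x‖]

theorem pow_mul_exp_le (K : ℕ) {t : ℝ} (ht : 0 ≤ t) :
    (1 + t) ^ K * Real.exp (-t ^ 2) ≤ K.factorial * Real.exp 2 := by
  have h1 := Real.pow_div_factorial_le_exp (1 + t) (by linarith) K
  have h2 : (1 + t) ^ K ≤ K.factorial * Real.exp (1 + t) := by
    rw [div_le_iff₀ (by positivity)] at h1
    linarith
  calc (1 + t) ^ K * Real.exp (-t ^ 2) ≤ (K.factorial * Real.exp (1 + t)) * Real.exp (-t ^ 2) := by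
        gcongr
    _ = K.factorial * Real.exp (1 + t + -t ^ 2) := by rw [mul_assoc, ← Real.exp_add]
    _ ≤ K.factorial * Real.exp 2 := by
        gcongr
        nlinarith [sq_nonneg (t - 1 / 2)]

instance isAddHaar₁ : (volume : Measure (Fin n → Fin n → ℝ)).IsAddHaarMeasure :=
  Measure.pi.isAddHaarMeasure (fun _ => (volume : Measure (Fin n → ℝ)))

instance isAddHaar₂ : (volume : Measure (Coord m n)).IsAddHaarMeasure :=
  Measure.pi.isAddHaarMeasure (fun _ => (volume : Measure (Fin n → Fin n → ℝ)))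

theorem PG.integrable (hn : 1 ≤ n) {f : Coord m n → ℂ} (hf : PG f) :
    Integrable (fun x => f x * (W m n x : ℂ)) := by
  obtain ⟨hf1, C, N, hC, hf2⟩ := hf
  set R : ℕ := Module.finrank ℝ (Coord m n) + 1 with hR
  have hint : Integrable (fun x : Coord m n => (1 + ‖x‖) ^ (-(R : ℝ))) := by
    apply integrable_one_add_norm
    rw [hR]; push_cast; linarith
  have hint2 := hint.const_mul (C * Real.exp (4 * n ^ 2) * ((N + R).factorial * Real.exp 2))
  refine hint2.mono' ?_ ?_
  · apply Continuous.aestronglyMeasurable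
    exact hf1.mul (Complex.continuous_ofReal.comp continuous_W)
  · refine Filter.Eventually.of_forall fun x => ?_
    have h0 : (0 : ℝ) < 1 + ‖x‖ := by positivity
    rw [norm_mul, Complex.norm_real, Real.norm_eq_abs, abs_of_pos (W_pos x)]
    have h1 : (1 + ‖x‖) ^ (-(R : ℝ)) = ((1 + ‖x‖) ^ R)⁻¹ := by
      rw [Real.rpow_neg h0.le, Real.rpow_natCast]
    have h2 := pow_mul_exp_le (N + R) (norm_nonneg x)
    rw [h1]
    calc ‖f x‖ * W m n x ≤ (C * (1 + ‖x‖) ^ N) * (Real.exp (4 * n ^ 2) * Real.exp (-‖x‖ ^ 2)) := by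
          gcongr
          · exact (W_pos x).le
          · exact hf2 x
          · exact W_le hn x
      _ = C * Real.exp (4 * n ^ 2) * ((1 + ‖x‖) ^ (N + R) * Real.exp (-‖x‖ ^ 2)) *
            ((1 + ‖x‖) ^ R)⁻¹ := by
          rw [pow_add]; field_simp
      _ ≤ C * Real.exp (4 * n ^ 2) * ((N + R).factorial * Real.exp 2) * ((1 + ‖x‖) ^ R)⁻¹ := by
          gcongr

/-- Integration by parts. -/
theorem ibp (hn : 1 ≤ n) {f f' : Coord m n → ℂ} (hf : PG f) (hf' : PG f') (i : Fin m)
    (j k : Fin n) (hd : ∀ x, HasLineDerivAt ℝ f (f' x) x (eb i j k)) :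
    ∫ x, f' x * (W m n x : ℂ) =
      ∫ x, (n * Matrix.trace (mu j k * DP (hermTuple x) i) * f x) * (W m n x : ℂ) := by
  have hW : ∀ x, HasLineDerivAt ℝ (fun x : Coord m n => (W m n x : ℂ))
      (-(n * Matrix.trace (mu j k * DP (hermTuple x) i)) * (W m n x : ℂ)) x (eb i j k) := by
    intro x
    have h1 : (fun x : Coord m n => (W m n x : ℂ)) = fun x => Complex.exp (-(n * Vc x)) := by
      ext y
      rw [W, Vc_eq]
      push_cast
      rfl
    rw [h1]
    have h2 := hasLineDerivAt_Vc x i j k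
    have h3 : HasDerivAt (fun t : ℝ => Complex.exp (-(n * Vc (x + t • eb i j k))))
        (Complex.exp (-(n * Vc (x + (0 : ℝ) • eb i j k))) *
          (-(n * Matrix.trace (mu j k * DP (hermTuple x) i)))) 0 :=
      HasDerivAt.cexp (HasDerivAt.neg (HasDerivAt.const_mul (n : ℂ) h2))
    have h4 : Complex.exp (-(n * Vc (x + (0 : ℝ) • eb i j k))) *
          (-(n * Matrix.trace (mu j k * DP (hermTuple x) i))) =
        -(n * Matrix.trace (mu j k * DP (hermTuple x) i)) * (W m n x : ℂ) := by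
      rw [zero_smul, add_zero, congrFun h1 x]
      ring
    rw [h4] at h3
    exact h3
  have hDP : MPG (fun x : Coord m n => DP (hermTuple x) i) := by
    unfold DP
    split_ifs
    · refine MPG.sub ?_ ((MPG.hermTuple 0).smul 2)
      simp only [pow_succ, pow_zero, one_mul]
      exact ((MPG.hermTuple 0).mul (MPG.hermTuple 0)).mul (MPG.hermTuple 0)
    · exact (MPG.hermTuple i).smul 2
  have hg : PG (fun x : Coord m n => Matrix.trace (mu j k * DP (hermTuple x) i)) :=
    ((MPG.const _).mul hDP).trace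
  have h1 : Integrable (fun x => f' x * (W m n x : ℂ)) := hf'.integrable hn
  have h2 : Integrable (fun x => f x *
      (-(n * Matrix.trace (mu j k * DP (hermTuple x) i)) * (W m n x : ℂ))) := by
    have := ((hf.mul (hg.const_mul n).neg)).integrable hn
    refine this.congr (Filter.Eventually.of_forall fun x => ?_)
    simp only; ring
  have h3 : Integrable (fun x => f x * (W m n x : ℂ)) := hf.integrable hn
  have key := integral_bilinear_hasLineDerivAt_right_eq_neg_left_of_integrable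
    (μ := (volume : Measure (Coord m n))) (B := ContinuousLinearMap.mul ℝ ℂ)
    (f := f) (f' := f') (g := fun x => (W m n x : ℂ))
    (g' := fun x => -(n * Matrix.trace (mu j k * DP (hermTuple x) i)) * (W m n x : ℂ))
    (v := eb i j k) (by simpa using h1) (by simpa using h2) (by simpa using h3)
    (fun x _ => hd x) (fun x _ => hW x)
  simp only [ContinuousLinearMap.mul_apply'] at key
  have e1 : ∫ x, f' x * (W m n x : ℂ) = - ∫ x, f x *
      (-(n * Matrix.trace (mu j k * DP (hermTuple x) i)) * (W m n x : ℂ)) := by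
    rw [key, neg_neg]
  rw [e1, ← integral_neg]
  congr 1
  ext x
  ring

end Pool.Agent.Lib.MP_58f2bb_an
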