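import Pool.Agent.Lib.MP_58f2bb_an.Words

/-!
# Noncommutative polynomials: involution, Leibniz rule
-/

noncomputable section

set_option linter.unusedSectionVars false
set_option linter.unusedVariables false
set_option linter.unusedSimpArgs false

open scoped TensorProduct InnerProductSpace ComplexConjugate Topology ENNReal
open MeasureTheory Filter

namespace Pool.Agent.Lib.MP_58f2bb_an

variable {m : ℕ}

/-- monomial of a list. -/
def lm (w : List (Fin m)) : NCPoly m := mono (FreeMonoid.ofList w)

theorem lm_nil : (lm [] : NCPoly m) = 1 := rfl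

theorem lm_append (u v : List (Fin m)) : lm (u ++ v) = lm u * lm v := by
  rw [lm, lm, lm, mono, mono, mono, MonoidAlgebra.single_mul_single, one_mul]
  rfl

theorem lm_singleton (i : Fin m) : lm [i] = X i := rfl

theorem lm_cons (i : Fin m) (w : List (Fin m)) : lm (i :: w) = X i * lm w := by
  rw [← lm_singleton, ← lm_append]; rfl

theorem single_eq_smul_lm (w : FreeMonoid (Fin m)) (c : ℂ) :
    (MonoidAlgebra.single w c : NCPoly m) = c • lm w.toList := by
  rw [lm, mono, MonoidAlgebra.smul_single]
  simp

theorem lm_induction {motive : NCPoly m → Prop} (p : NCPoly m) (zero : motive 0)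
    (add : ∀ p q, motive p → motive q → motive (p + q))
    (smul : ∀ (c : ℂ) w, motive (c • lm w)) : motive p := by
  induction p using MonoidAlgebra.induction_linear with
  | zero => exact zero
  | add p q hp hq => exact add p q hp hq
  | single w c => rw [single_eq_smul_lm]; exact smul c _

theorem lm_ext {M : Type*} [AddCommGroup M] [Module ℂ M] {f g : NCPoly m →ₗ[ℂ] M}
    (h : ∀ w, f (lm w) = g (lm w)) : f = g := by
  refine LinearMap.ext fun p => ?_
  induction p using lm_induction with
  | zero => simp
  | add p q hp hq => simp [hp, hq]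
  | smul c w => simp [h]

/-- conjugate linear maps agreeing on words. -/
theorem ev_lm {A : Type*} [Ring A] [Algebra ℂ A] (a : Fin m → A) (w : List (Fin m)) :
    ev a (lm w) = wv a w := by
  rw [lm, ev_mono]; simp

/-! ### The involution -/

theorem adj_zero : adj (0 : NCPoly m) = 0 := by simp [adj]

theorem adj_add (p q : NCPoly m) : adj (p + q) = adj p + adj q := by
  unfold adj
  rw [MonoidAlgebra.coeff_add, Finsupp.sum_add_index']
  · intro w; simp
  · intro w b c; simp [MonoidAlgebra.single_add]

theorem adj_single (w : FreeMonoid (Fin m)) (c : ℂ) :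
    adj (MonoidAlgebra.single w c : NCPoly m) = MonoidAlgebra.single w.reverse (conj c) := by
  unfold adj
  rw [MonoidAlgebra.coeff_single, Finsupp.sum_single_index]
  simp

theorem adj_smul (c : ℂ) (p : NCPoly m) : adj (c • p) = conj c • adj p := by
  induction p using MonoidAlgebra.induction_linear with
  | zero => simp [adj_zero]
  | add p q hp hq => rw [smul_add, adj_add, hp, hq, adj_add, smul_add]
  | single w b =>
    rw [MonoidAlgebra.smul_single, adj_single, adj_single, MonoidAlgebra.smul_single]
    simp

theorem adj_neg (p : NCPoly m) : adj (-p) = - adj p := by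
  have := adj_smul (-1) p
  simpa using this

theorem adj_sub (p q : NCPoly m) : adj (p - q) = adj p - adj q := by
  rw [sub_eq_add_neg, adj_add, adj_neg, ← sub_eq_add_neg]

theorem adj_lm (w : List (Fin m)) : adj (lm w) = lm w.reverse := by
  rw [lm, mono, adj_single, lm, mono]
  simp only [map_one]
  rfl

theorem adj_one : adj (1 : NCPoly m) = 1 := by
  rw [← lm_nil, adj_lm]; rfl

theorem adj_X (i : Fin m) : adj (X i) = X i := by
  rw [← lm_singleton, adj_lm]; rfl

theorem adj_mul (p q : NCPoly m) : adj (p * q) = adj q * adj p := by
  induction p using lm_induction with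
  | zero => simp [adj_zero]
  | add p p' hp hp' => rw [add_mul, adj_add, hp, hp', adj_add, mul_add]
  | smul c w =>
    induction q using lm_induction with
    | zero => simp [adj_zero]
    | add p p' hp hp' => rw [mul_add, adj_add, hp, hp', adj_add, add_mul]
    | smul b v =>
      rw [smul_mul_smul_comm, ← lm_append, adj_smul, adj_lm, List.reverse_append, lm_append,
        adj_smul, adj_smul, adj_lm, adj_lm, smul_mul_smul_comm, map_mul, mul_comm]

theorem adj_adj (p : NCPoly m) : adj (adj p) = p := by
  induction p using lm_induction with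
  | zero => simp [adj_zero]
  | add p p' hp hp' => rw [adj_add, adj_add, hp, hp']
  | smul c w => rw [adj_smul, adj_smul, adj_lm, adj_lm, List.reverse_reverse]; simp

theorem adj_pow (p : NCPoly m) (k : ℕ) : adj (p ^ k) = adj p ^ k := by
  induction k with
  | zero => simp [adj_one]
  | succ k ih => rw [pow_succ, adj_mul, ih, pow_succ']

theorem wv_reverse {A : Type*} [Monoid A] [StarMul A] (a : Fin m → A)
    (ha : ∀ i, star (a i) = a i) (w : List (Fin m)) : wv a w.reverse = star (wv a w) := by
  induction w with
  | nil => simp
  | cons i w ih => rw [List.reverse_cons, wv_append, ih, wv_cons, wv_cons, wv_nil, mul_one,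
      star_mul, ha]

theorem ev_adj {A : Type*} [Ring A] [Algebra ℂ A] [StarRing A] [StarModule ℂ A] (a : Fin m → A)
    (ha : ∀ i, star (a i) = a i) (p : NCPoly m) : ev a (adj p) = star (ev a p) := by
  induction p using lm_induction with
  | zero => simp [adj_zero]
  | add p p' hp hp' => rw [adj_add, map_add, hp, hp', map_add, star_add]
  | smul c w =>
    rw [adj_smul, map_smul, adj_lm, ev_lm, wv_reverse a ha, map_smul, ev_lm, star_smul]
    rfl

/-! ### Leibniz rule -/

theorem splits_append (i : Fin m) (u v : List (Fin m)) :
    splits i (u ++ v) = (splits i u).map (fun s => (s.1, s.2 ++ v)) ++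
      (splits i v).map fun s => (u ++ s.1, s.2) := by
  induction u with
  | nil => simp [splits]
  | cons j u ih =>
    rw [List.cons_append, splits, splits, ih]
    simp only [List.map_append, List.map_map, List.append_assoc]
    congr 1
    split_ifs <;> simp

theorem fdq_lm (i : Fin m) (w : List (Fin m)) :
    fdq i (lm w) = ((splits i w).map fun s => lm s.1 ⊗ₜ[ℂ] lm s.2).sum := by
  have h1 : lm w = (MonoidAlgebra.basis (FreeMonoid (Fin m)) ℂ) (FreeMonoid.ofList w) := by
    rw [lm, mono]; rfl
  rw [fdq, h1, Module.Basis.constr_basis]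
  rfl

theorem sum_map_mul_left' {A ι : Type*} [Ring A] (c : A) (l : List ι) (f : ι → A) :
    c * (l.map f).sum = (l.map fun s => c * f s).sum := (list_sum_map_mul_left c l f).symm

theorem sum_map_mul_right' {A ι : Type*} [Ring A] (c : A) (l : List ι) (f : ι → A) :
    (l.map f).sum * c = (l.map fun s => f s * c).sum := by
  induction l with
  | nil => simp
  | cons a l ih => simp [← ih, add_mul]

theorem fdq_lm_mul_lm (i : Fin m) (u v : List (Fin m)) :
    fdq i (lm u * lm v) = (lm u ⊗ₜ[ℂ] 1) * fdq i (lm v) + fdq i (lm u) * (1 ⊗ₜ[ℂ] lm v) := by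
  rw [← lm_append, fdq_lm, fdq_lm, fdq_lm, splits_append, List.map_append, List.sum_append,
    List.map_map, List.map_map, sum_map_mul_left', sum_map_mul_right', add_comm]
  congr 2
  · apply List.map_congr_left
    intro s _
    simp [lm_append]
  · apply List.map_congr_left
    intro s _
    simp [lm_append]

theorem fdq_mul (i : Fin m) (p q : NCPoly m) :
    fdq i (p * q) = (p ⊗ₜ[ℂ] 1) * fdq i q + fdq i p * (1 ⊗ₜ[ℂ] q) := by
  induction p using lm_induction with
  | zero => simp
  | add p p' hp hp' =>
    rw [add_mul, map_add, hp, hp', map_add, TensorProduct.add_tmul, add_mul, add_mul]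
    abel
  | smul c w =>
    induction q using lm_induction with
    | zero => simp
    | add p p' hp hp' =>
      rw [mul_add, map_add, hp, hp', map_add, TensorProduct.tmul_add, mul_add, mul_add]
      abel
    | smul b v =>
      rw [smul_mul_smul_comm, map_smul, fdq_lm_mul_lm, map_smul, map_smul,
        ← TensorProduct.smul_tmul', TensorProduct.tmul_smul, smul_add]
      rw [smul_mul_smul_comm, smul_mul_smul_comm]

theorem fdq_one (i : Fin m) : fdq i (1 : NCPoly m) = 0 := by
  rw [← lm_nil, fdq_lm]; rfl

theorem fdq_X (i j : Fin m) : fdq i (X j) = if j = i then 1 ⊗ₜ[ℂ] 1 else 0 := by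
  rw [← lm_singleton, fdq_lm]
  simp only [splits, List.map_nil, List.append_nil]
  split_ifs
  · simp [lm_nil]
  · simp

end Pool.Agent.Lib.MP_58f2bb_an
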