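import Pool.Agent.Lib.MP_58f2bb_an.Conv
import Pool.Agent.Lib.MP_58f2bb_an.Poly

/-!
# The limit functional
-/

noncomputable section

set_option linter.unusedSectionVars false
set_option linter.unusedVariables false
set_option linter.unusedSimpArgs false

open scoped TensorProduct InnerProductSpace ComplexConjugate Topology ENNReal
open MeasureTheory Filter

namespace Pool.Agent.Lib.MP_58f2bb_an

variable {m : ℕ} [NeZero m]

omit [NeZero m] in
/-- linear map from values on words. -/
theorem basis_eq_lm (w : FreeMonoid (Fin m)) :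
    (MonoidAlgebra.basis (FreeMonoid (Fin m)) ℂ) w = lm w.toList := rfl

/-- polynomials as linear trace polynomials. -/
def lin : NCPoly m →ₗ[ℂ] TP m :=
  (MonoidAlgebra.basis (FreeMonoid (Fin m)) ℂ).constr ℂ fun w => MvPolynomial.X w.toList

omit [NeZero m] in
theorem lin_lm (w : List (Fin m)) : lin (lm w) = MvPolynomial.X w := by
  have h1 : lm w = (MonoidAlgebra.basis (FreeMonoid (Fin m)) ℂ) (FreeMonoid.ofList w) := rfl
  rw [lin, h1, Module.Basis.constr_basis]
  rfl

/-- the limit functional. -/
def tau : NCPoly m →ₗ[ℂ] ℂ := (tlim (m := m)).toLinearMap ∘ₗ lin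

theorem tau_lm (w : List (Fin m)) : tau (lm w) = tw w := by
  rw [tau, LinearMap.comp_apply, lin_lm]
  exact MvPolynomial.aeval_X _ _

theorem ntr_eq {n : ℕ} (q : NCPoly m) (x : Coord m n) : ntr q n x = tpe x (lin q) := by
  induction q using lm_induction with
  | zero => simp [ntr]
  | add p q hp hq =>
    rw [map_add, map_add, ← hp, ← hq, ntr, ntr, ntr, map_add, Matrix.trace_add, mul_add]
  | smul c w =>
    rw [map_smul, map_smul, lin_lm, tpe_X, ntr, map_smul, ev_lm, Matrix.trace_smul, smul_eq_mul,
      smul_eq_mul]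
    ring

theorem CC_tau (q : NCPoly m) : CC (fun n x => ntr q n x) (tau q) := by
  refine (CC_tlim (lin q)).congr fun n hn x => ?_
  rw [ntr_eq]

theorem modelConverges : ModelConverges (crit m) (tau (m := m)) where
  isProbability n hn := isProbability_law hn
  integrable q n hn := by
    have h : ntr q n = fun x : Coord m n => tpe x (lin q) := by
      ext x; exact ntr_eq q x
    rw [h]
    exact (PG.tpe (lin q)).integrable_law hn
  mean q := by
    have := L1_of_CC (lin q)
    simp only [← ntr_eq] at this
    exact this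
  complete q ε hε := CC_tau q ε hε

/-- The limit functional is unique. -/
theorem tau_unique {τ : NCPoly m → ℂ} (h : ModelConverges (crit m) τ) (q : NCPoly m) :
    τ q = tau q := by
  have h1 : CC (fun n x => ntr q n x) (τ q) := fun ε hε => h.complete q ε hε
  exact h1.unique (CC_tau q)

/-! ### Properties -/

theorem tau_one : tau (1 : NCPoly m) = 1 := by
  rw [← lm_nil, tau_lm]
  have := tw_replicate (m := m) 0
  simpa [jm_zero] using this

theorem tau_comm (p q : NCPoly m) : tau (p * q) = tau (q * p) := by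
  induction p using lm_induction with
  | zero => simp
  | add p p' hp hp' => rw [add_mul, mul_add, map_add, map_add, hp, hp']
  | smul c w =>
    induction q using lm_induction with
    | zero => simp
    | add p p' hp hp' => rw [mul_add, add_mul, map_add, map_add, hp, hp']
    | smul b v =>
      rw [smul_mul_smul_comm, smul_mul_smul_comm, map_smul, map_smul, ← lm_append, ← lm_append,
        tau_lm, tau_lm, tw_append_comm, mul_comm c b]

open scoped ComplexOrder in
/-- limits of nonnegative quantities. -/
theorem CC.nonneg {f : ∀ n, Coord m n → ℂ} {c : ℂ} (hf : CC f c)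
    (h : ∀ n, 1 ≤ n → ∀ x, 0 ≤ f n x) : 0 ≤ c := by
  by_contra hne
  have hcl : IsClosed {z : ℂ | 0 ≤ z} := isClosed_Ici
  have hc : c ∈ {z : ℂ | 0 ≤ z}ᶜ := hne
  obtain ⟨ε, hε, hball⟩ := Metric.isOpen_iff.1 hcl.isOpen_compl c hc
  have h2 : SE (fun n => (Set.univ : Set (Coord m n))) := by
    refine (hf ε hε).mono fun n hn x _ => ?_
    simp only [Set.mem_ofPred_eq]
    by_contra h3
    push Not at h3
    have h4 : f n x ∈ Metric.ball c ε := by rw [Metric.mem_ball, dist_eq_norm]; exact h3
    exact hball h4 (h n hn x)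
  have h3 : ∀ n, law (crit m) (n + 1) Set.univ = 1 := fun n => by
    have := isProbability_law (m := m) (n := n + 1) (by omega)
    exact measure_univ
  unfold SE at h2
  simp only [h3] at h2
  rw [ENNReal.tsum_const_eq_top_of_ne_zero one_ne_zero] at h2
  exact lt_irrefl _ h2

omit [NeZero m] in
theorem ev_hermTuple_adj {n : ℕ} (x : Coord m n) (p : NCPoly m) :
    ev (hermTuple x) (adj p) = (ev (hermTuple x) p).conjTranspose :=
  ev_adj (hermTuple x) (fun i => herm_isHermitian (x i)) p

open scoped ComplexOrder in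
theorem tau_nonneg (p : NCPoly m) : 0 ≤ tau (adj p * p) := by
  refine (CC_tau (adj p * p)).nonneg fun n hn x => ?_
  rw [ntr, map_mul, ev_hermTuple_adj]
  refine mul_nonneg ?_ ?_
  · have h0 : (0 : ℂ) ≤ ((n : ℝ)⁻¹ : ℝ) := by
      rw [Complex.zero_le_real]; positivity
    have h1 : (((n : ℝ)⁻¹ : ℝ) : ℂ) = (n : ℂ)⁻¹ := by push_cast; rfl
    exact h1 ▸ h0
  · exact (Matrix.posSemidef_conjTranspose_mul_self _).trace_nonneg

theorem CC.conj {f : ∀ n, Coord m n → ℂ} {c : ℂ} (hf : CC f c) :
    CC (fun n x => conj (f n x)) (conj c) := by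
  intro ε hε
  refine (hf ε hε).mono fun n hn x hx => ?_
  simp only [Set.mem_ofPred_eq] at hx ⊢
  rwa [← map_sub, RCLike.norm_conj] at hx

theorem tau_adj (p : NCPoly m) : tau (adj p) = conj (tau p) := by
  refine (CC_tau (adj p)).unique ?_
  refine (CC_tau p).conj.congr fun n hn x => ?_
  rw [ntr, ntr, ev_hermTuple_adj, Matrix.trace_conjTranspose, map_mul, map_inv₀, map_natCast]
  rfl

/-! ### Schwinger-Dyson equations -/

/-- the cyclic gradient of the potential, as a polynomial. -/
def Jp (i : Fin m) : NCPoly m := if i = 0 then lm [0, 0, 0] - (2 : ℂ) • lm [0] else (2 : ℂ) • lm [i]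

/-- the product of traces. -/
def tt : NCPoly m ⊗[ℂ] NCPoly m →ₗ[ℂ] ℂ := LinearMap.mul' ℂ ℂ ∘ₗ TensorProduct.map tau tau

theorem tt_tmul (p q : NCPoly m) : tt (p ⊗ₜ q) = tau p * tau q := by simp [tt]

theorem list_sum_congr_map {ι M : Type*} [AddCommMonoid M] {l : List ι} {f g : ι → M}
    (h : ∀ a, f a = g a) : (l.map f).sum = (l.map g).sum := by
  rw [funext h]

theorem sd (i : Fin m) (p : NCPoly m) : tau (p * Jp i) = tt (fdq i p) := by
  induction p using lm_induction with
  | zero => simp
  | add p q hp hq => rw [add_mul, map_add, hp, hq, map_add, map_add]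
  | smul c w =>
    rw [Algebra.smul_mul_assoc, map_smul, map_smul, map_smul]
    congr 1
    have h1 := tlim_del i w
    have h2 : ∀ v : List (Fin m), tlim (MvPolynomial.X v : TP m) = tau (lm v) := by
      intro v; rw [tau_lm]; exact MvPolynomial.aeval_X _ _
    rw [del, map_sub, sub_eq_zero, map_list_sum, List.map_map] at h1
    rw [fdq_lm, map_list_sum, List.map_map]
    have h3 : ((splits i w).map (⇑(tt (m := m)) ∘ fun s => lm s.1 ⊗ₜ[ℂ] lm s.2)).sum =
        ((splits i w).map (⇑(tlim (m := m)) ∘ fun s =>
          (MvPolynomial.X s.1 * MvPolynomial.X s.2 : TP m))).sum := by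
      apply list_sum_congr_map
      intro s
      simp only [Function.comp, tt_tmul, map_mul, h2]
    rw [h3, ← h1, Jp]
    split_ifs with h
    · rw [map_sub, mul_sub, map_sub, mul_smul_comm, ← lm_append, ← lm_append, map_mul, h2, h2,
        map_smul, map_ofNat, smul_eq_mul]
    · rw [mul_smul_comm, ← lm_append, map_mul, h2, map_smul, map_ofNat, smul_eq_mul]

end Pool.Agent.Lib.MP_58f2bb_an
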