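import Pool.Agent.Lib.MP_58f2bb_an.IBP2

/-!
# The law, expectations, loop equations
-/

noncomputable section

set_option linter.unusedSectionVars false
set_option linter.unusedVariables false
set_option linter.unusedSimpArgs false

open scoped TensorProduct InnerProductSpace ComplexConjugate Topology ENNReal
open MeasureTheory Filter

namespace Pool.Agent.Lib.MP_58f2bb_an

variable {m n : ℕ} [NeZero m]

/-- partition function. -/
def Zp (m n : ℕ) [NeZero m] : ℝ := ∫ x, W m n x

theorem integrable_W (hn : 1 ≤ n) : Integrable (W m n) := by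
  have h := (PG.const (m := m) (n := n) 1).integrable hn
  have h2 := h.re
  refine h2.congr (Filter.Eventually.of_forall fun x => ?_)
  simp

theorem Zp_pos (hn : 1 ≤ n) : 0 < Zp m n := by
  unfold Zp
  rw [integral_pos_iff_support_of_nonneg (fun x => (W_pos x).le) (integrable_W hn)]
  have : Function.support (W m n) = Set.univ := by
    ext x; simp [(W_pos x).ne']
  rw [this]
  exact isOpen_univ.measure_pos _ Set.univ_nonempty

theorem law_eq : law (crit m) n =
    volume.withDensity fun x => ENNReal.ofReal (W m n x / Zp m n) := by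
  unfold law Zp
  simp only [weight_eq]

theorem measurable_dens : Measurable fun x : Coord m n => ENNReal.ofReal (W m n x / Zp m n) :=
  (continuous_W.measurable.div_const _).ennreal_ofReal

theorem integral_law (hn : 1 ≤ n) (f : Coord m n → ℂ) :
    ∫ x, f x ∂(law (crit m) n) = (Zp m n : ℂ)⁻¹ * ∫ x, f x * (W m n x : ℂ) := by
  rw [law_eq, integral_withDensity_eq_integral_toReal_smul measurable_dens
    (Filter.Eventually.of_forall fun x => ENNReal.ofReal_lt_top), ← integral_const_mul]
  congr 1
  ext x
  rw [ENNReal.toReal_ofReal (div_nonneg (W_pos x).le (Zp_pos hn).le)]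
  rw [Complex.real_smul]
  push_cast
  have : (Zp m n : ℂ) ≠ 0 := by exact_mod_cast (Zp_pos hn).ne'
  field_simp

theorem PG.integrable_law (hn : 1 ≤ n) {f : Coord m n → ℂ} (hf : PG f) :
    Integrable f (law (crit m) n) := by
  rw [law_eq, integrable_withDensity_iff_integrable_smul' measurable_dens
    (Filter.Eventually.of_forall fun x => ENNReal.ofReal_lt_top)]
  refine ((hf.integrable hn).const_mul (Zp m n : ℂ)⁻¹).congr
    (Filter.Eventually.of_forall fun x => ?_)
  simp only
  rw [ENNReal.toReal_ofReal (div_nonneg (W_pos x).le (Zp_pos hn).le), Complex.real_smul]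
  push_cast
  have : (Zp m n : ℂ) ≠ 0 := by exact_mod_cast (Zp_pos hn).ne'
  field_simp

theorem isProbability_law (hn : 1 ≤ n) : IsProbabilityMeasure (law (crit m) n) := by
  constructor
  rw [law_eq, withDensity_apply _ MeasurableSet.univ, Measure.restrict_univ,
    ← ofReal_integral_eq_lintegral_ofReal ((integrable_W hn).div_const _)
      (Filter.Eventually.of_forall fun x => div_nonneg (W_pos x).le (Zp_pos hn).le),
    integral_div]
  change ENNReal.ofReal (Zp m n / Zp m n) = 1
  rw [div_self (Zp_pos hn).ne', ENNReal.ofReal_one]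

/-- expectation. -/
def Ex (m n : ℕ) [NeZero m] (f : Coord m n → ℂ) : ℂ := ∫ x, f x ∂(law (crit m) n)

theorem Ex_add (hn : 1 ≤ n) {f g : Coord m n → ℂ} (hf : PG f) (hg : PG g) :
    Ex m n (fun x => f x + g x) = Ex m n f + Ex m n g :=
  integral_add (hf.integrable_law hn) (hg.integrable_law hn)

theorem Ex_sub (hn : 1 ≤ n) {f g : Coord m n → ℂ} (hf : PG f) (hg : PG g) :
    Ex m n (fun x => f x - g x) = Ex m n f - Ex m n g :=
  integral_sub (hf.integrable_law hn) (hg.integrable_law hn)

theorem Ex_const_mul (c : ℂ) (f : Coord m n → ℂ) :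
    Ex m n (fun x => c * f x) = c * Ex m n f := integral_const_mul _ _

theorem Ex_one (hn : 1 ≤ n) : Ex m n (fun _ => 1) = 1 := by
  have := isProbability_law (m := m) hn
  simp [Ex]

theorem Ex_sum (hn : 1 ≤ n) {ι : Type*} (s : Finset ι) {f : ι → Coord m n → ℂ}
    (hf : ∀ i ∈ s, PG (f i)) :
    Ex m n (fun x => ∑ i ∈ s, f i x) = ∑ i ∈ s, Ex m n (f i) :=
  integral_finsetSum s fun i hi => (hf i hi).integrable_law hn

theorem Ex_ibp (hn : 1 ≤ n) {f f' : Coord m n → ℂ} (hf : PG f) (hf' : PG f') (i : Fin m)
    (j k : Fin n) (hd : ∀ x, HasLineDerivAt ℝ f (f' x) x (eb i j k)) :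
    Ex m n f' = Ex m n fun x => n * Matrix.trace (mu j k * DP (hermTuple x) i) * f x := by
  unfold Ex
  rw [integral_law hn, integral_law hn, ibp hn hf hf' i j k hd]

theorem MPG.DP (i : Fin m) : MPG (fun x : Coord m n => DP (MP_58f2bb_an.hermTuple x) i) := by
  unfold MP_58f2bb_an.DP
  split_ifs
  · refine MPG.sub ?_ ((MPG.hermTuple 0).smul 2)
    simp only [pow_succ, pow_zero, one_mul]
    exact ((MPG.hermTuple 0).mul (MPG.hermTuple 0)).mul (MPG.hermTuple 0)
  · exact (MPG.hermTuple i).smul 2

/-- The loop equation for a matrix valued function `p` and a scalar function `F`. -/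
theorem loop_matrix (hn : 1 ≤ n) (i : Fin m) {p : Coord m n → Matrix (Fin n) (Fin n) ℂ}
    {p' : Fin n → Fin n → Coord m n → Matrix (Fin n) (Fin n) ℂ} {F : Coord m n → ℂ}
    {F' : Fin n → Fin n → Coord m n → ℂ} (hp : MPG p) (hp' : ∀ j k, MPG (p' j k))
    (hF : PG F) (hF' : ∀ j k, PG (F' j k))
    (dp : ∀ x j k a b, HasLineDerivAt ℝ (fun x => p x a b) (p' j k x a b) x (eb i j k))
    (dF : ∀ x j k, HasLineDerivAt ℝ F (F' j k x) x (eb i j k)) :
    Ex m n (fun x => (∑ j, ∑ k, Matrix.trace (mu j k * p' j k x)) * F x) +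
      Ex m n (fun x => ∑ j, ∑ k, Matrix.trace (mu j k * p x) * F' j k x) =
    n * Ex m n (fun x => Matrix.trace (p x * DP (hermTuple x) i) * F x) := by
  have hT : ∀ j k, PG fun x => Matrix.trace (mu j k * p x) := fun j k =>
    ((MPG.const _).mul hp).trace
  have hT' : ∀ j k, PG fun x => Matrix.trace (mu j k * p' j k x) := fun j k =>
    ((MPG.const _).mul (hp' j k)).trace
  have hD : ∀ j k, PG fun x : Coord m n => Matrix.trace (mu j k * DP (hermTuple x) i) :=
    fun j k => ((MPG.const _).mul (MPG.DP i)).trace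
  have key : ∀ j k, Ex m n (fun x => Matrix.trace (mu j k * p' j k x) * F x +
      Matrix.trace (mu j k * p x) * F' j k x) =
      Ex m n fun x => n * Matrix.trace (mu j k * DP (hermTuple x) i) *
        (Matrix.trace (mu j k * p x) * F x) := by
    intro j k
    apply Ex_ibp hn ((hT j k).mul hF) (((hT' j k).mul hF).add ((hT j k).mul (hF' j k))) i j k
    intro x
    have h1 : HasLineDerivAt ℝ (fun x => Matrix.trace (mu j k * p x))
        (Matrix.trace (mu j k * p' j k x)) x (eb i j k) := by
      have h2 := hasDerivAt_trace (F := fun t : ℝ => mu j k * p (x + t • eb i j k))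
        (F' := mu j k * p' j k x) (t := 0) ?_
      · exact h2
      · intro a b
        have h3 := hasDerivAt_matrix_mul (F := fun _ : ℝ => mu j k)
          (G := fun t : ℝ => p (x + t • eb i j k)) (F' := 0) (G' := p' j k x) (t := 0)
          (fun a b => by simpa using hasDerivAt_const (0 : ℝ) (mu j k a b))
          (fun a b => dp x j k a b) a b
        simpa using h3
    have h4 := HasDerivAt.mul h1 (dF x j k)
    simp only [zero_smul, add_zero] at h4
    exact h4
  have e1 : ∀ x, (∑ j, ∑ k, Matrix.trace (mu j k * p' j k x)) * F x =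
      ∑ j, ∑ k, Matrix.trace (mu j k * p' j k x) * F x := by
    intro x; simp only [Finset.sum_mul]
  have e2 : ∀ x, Matrix.trace (p x * DP (hermTuple x) i) * F x =
      ∑ j, ∑ k, Matrix.trace (mu j k * DP (hermTuple x) i) *
        (Matrix.trace (mu j k * p x) * F x) := by
    intro x
    rw [← sum_trace_mu]
    simp only [Finset.sum_mul]
    refine Finset.sum_congr rfl fun j _ => Finset.sum_congr rfl fun k _ => ?_
    ring
  have e3 : Ex m n (fun x => ∑ j, ∑ k, Matrix.trace (mu j k * p' j k x) * F x) =
      ∑ j, ∑ k, Ex m n (fun x => Matrix.trace (mu j k * p' j k x) * F x) := by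
    rw [Ex_sum hn _ fun j _ => PG.sum _ fun k _ => (hT' j k).mul hF]
    exact Finset.sum_congr rfl fun j _ => Ex_sum hn _ fun k _ => (hT' j k).mul hF
  have e4 : Ex m n (fun x => ∑ j, ∑ k, Matrix.trace (mu j k * p x) * F' j k x) =
      ∑ j, ∑ k, Ex m n (fun x => Matrix.trace (mu j k * p x) * F' j k x) := by
    rw [Ex_sum hn _ fun j _ => PG.sum _ fun k _ => (hT j k).mul (hF' j k)]
    exact Finset.sum_congr rfl fun j _ => Ex_sum hn _ fun k _ => (hT j k).mul (hF' j k)
  have e5 : Ex m n (fun x => ∑ j, ∑ k, Matrix.trace (mu j k * DP (hermTuple x) i) *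
        (Matrix.trace (mu j k * p x) * F x)) =
      ∑ j, ∑ k, Ex m n (fun x => Matrix.trace (mu j k * DP (hermTuple x) i) *
        (Matrix.trace (mu j k * p x) * F x)) := by
    rw [Ex_sum hn _ fun j _ => PG.sum _ fun k _ => (hD j k).mul ((hT j k).mul hF)]
    exact Finset.sum_congr rfl fun j _ => Ex_sum hn _ fun k _ => (hD j k).mul ((hT j k).mul hF)
  simp only [e1, e2]
  rw [e3, e4, e5, ← Finset.sum_add_distrib, Finset.mul_sum]
  refine Finset.sum_congr rfl fun j _ => ?_
  rw [← Finset.sum_add_distrib, Finset.mul_sum]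
  refine Finset.sum_congr rfl fun k _ => ?_
  rw [← Ex_add hn ((hT' j k).mul hF) ((hT j k).mul (hF' j k)), key j k, ← Ex_const_mul]
  congr 1
  ext x
  ring

/-! ### Trace polynomials -/

/-- formal trace polynomials. -/
abbrev TP (m : ℕ) : Type := MvPolynomial (List (Fin m)) ℂ

/-- evaluation of trace polynomials. -/
def tpe {n : ℕ} (x : Coord m n) : TP m →ₐ[ℂ] ℂ :=
  MvPolynomial.aeval fun w => (n : ℂ)⁻¹ * Matrix.trace (wv (hermTuple x) w)

theorem tpe_X (x : Coord m n) (w : List (Fin m)) :
    tpe x (MvPolynomial.X w) = (n : ℂ)⁻¹ * Matrix.trace (wv (hermTuple x) w) := by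
  simp [tpe]

theorem PG.tpe (F : TP m) : PG (fun x : Coord m n => tpe x F) := by
  induction F using MvPolynomial.induction_on with
  | C a => simpa [MP_58f2bb_an.tpe] using PG.const a
  | add p q hp hq => simpa using hp.add hq
  | mul_X p w hp =>
    simp only [map_mul, tpe_X]
    exact hp.mul ((MPG.wv w).trace.const_mul _)

/-- The derivation on trace polynomials coming from integration by parts. -/
def Gam (i : Fin m) (w : List (Fin m)) : Derivation ℂ (TP m) (TP m) :=
  MvPolynomial.mkDerivation ℂ fun w' =>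
    ((splits i w').map fun s => (MvPolynomial.X (w ++ s.2 ++ s.1) : TP m)).sum

theorem sum_list_comm {ι κ : Type*} (s : Finset ι) (l : List κ) (f : ι → κ → ℂ) :
    ∑ i ∈ s, (l.map fun a => f i a).sum = (l.map fun a => ∑ i ∈ s, f i a).sum := by
  induction l with
  | nil => simp
  | cons a l ih => simp [Finset.sum_add_distrib, ih]

theorem trace_list_sum {κ : Type*} (l : List κ) (f : κ → Matrix (Fin n) (Fin n) ℂ) :
    Matrix.trace (l.map f).sum = (l.map fun a => Matrix.trace (f a)).sum := by
  induction l with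
  | nil => simp
  | cons a l ih => simp [ih]

theorem mul_list_sum {κ : Type*} (M : Matrix (Fin n) (Fin n) ℂ) (l : List κ)
    (f : κ → Matrix (Fin n) (Fin n) ℂ) :
    M * (l.map f).sum = (l.map fun a => M * f a).sum := by
  induction l with
  | nil => simp
  | cons a l ih => simp [ih, mul_add]

/-- gradient pairing of a matrix with the trace of a word. -/
theorem grad_pairing (x : Coord m n) (i : Fin m) (M : Matrix (Fin n) (Fin n) ℂ)
    (w' : List (Fin m)) :
    ∑ j, ∑ k, Matrix.trace (mu j k * M) * Matrix.trace (dw (hermTuple x) i (mu j k) w') =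
      ((splits i w').map fun s => Matrix.trace (M * wv (hermTuple x) s.2 *
        wv (hermTuple x) s.1)).sum := by
  have h1 : ∀ j k, Matrix.trace (mu j k * M) * Matrix.trace (dw (hermTuple x) i (mu j k) w') =
      ((splits i w').map fun s => Matrix.trace (mu j k * M) *
        Matrix.trace (mu j k * (wv (hermTuple x) s.2 * wv (hermTuple x) s.1))).sum := by
    intro j k
    rw [dw, trace_list_sum, ← list_sum_map_mul_left]
    congr 1
    apply List.map_congr_left
    intro s _
    congr 1
    rw [mul_assoc, Matrix.trace_mul_comm, mul_assoc]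
  simp only [h1]
  have h2 : ∀ j, ∑ k, ((splits i w').map fun s => Matrix.trace (mu j k * M) *
        Matrix.trace (mu j k * (wv (hermTuple x) s.2 * wv (hermTuple x) s.1))).sum =
      ((splits i w').map fun s => ∑ k, Matrix.trace (mu j k * M) *
        Matrix.trace (mu j k * (wv (hermTuple x) s.2 * wv (hermTuple x) s.1))).sum :=
    fun j => sum_list_comm _ _ _
  simp only [h2]
  rw [sum_list_comm]
  congr 1
  apply List.map_congr_left
  intro s _
  rw [sum_trace_mu, mul_assoc]

/-- divergence of a word. -/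
theorem div_word (x : Coord m n) (i : Fin m) (w : List (Fin m)) :
    ∑ j, ∑ k, Matrix.trace (mu j k * dw (hermTuple x) i (mu j k) w) =
      ((splits i w).map fun s => Matrix.trace (wv (hermTuple x) s.1) *
        Matrix.trace (wv (hermTuple x) s.2)).sum := by
  have h1 : ∀ j k, Matrix.trace (mu j k * dw (hermTuple x) i (mu j k) w) =
      ((splits i w).map fun s => Matrix.trace (mu j k * wv (hermTuple x) s.1 * mu j k *
        wv (hermTuple x) s.2)).sum := by
    intro j k
    rw [dw, mul_list_sum, trace_list_sum]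
    congr 1
    apply List.map_congr_left
    intro s _
    simp only [mul_assoc]
  simp only [h1]
  have h2 : ∀ j, ∑ k, ((splits i w).map fun s => Matrix.trace (mu j k * wv (hermTuple x) s.1 *
        mu j k * wv (hermTuple x) s.2)).sum =
      ((splits i w).map fun s => ∑ k, Matrix.trace (mu j k * wv (hermTuple x) s.1 * mu j k *
        wv (hermTuple x) s.2)).sum :=
    fun j => sum_list_comm _ _ _
  simp only [h2]
  rw [sum_list_comm]
  congr 1
  apply List.map_congr_left
  intro s _
  rw [sum_trace_mu₂]

/-- Every trace polynomial has line derivatives pairing with words as `Gam`. -/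
theorem exists_deriv (n : ℕ) (i : Fin m) (F : TP m) : ∃ F' : Fin n → Fin n → Coord m n → ℂ,
    (∀ j k, PG (F' j k)) ∧
    (∀ x j k, HasLineDerivAt ℝ (fun x : Coord m n => tpe x F) (F' j k x) x (eb i j k)) ∧
    ∀ w x, ∑ j, ∑ k, Matrix.trace (mu j k * wv (hermTuple x) w) * F' j k x =
      tpe x (Gam i w F) := by
  induction F using MvPolynomial.induction_on with
  | C a =>
    refine ⟨fun _ _ _ => 0, fun _ _ => PG.const 0, fun x j k => ?_, fun w x => ?_⟩
    · have : (fun x : Coord m n => tpe x (MvPolynomial.C a : TP m)) = fun _ => a := by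
        ext x; simp [tpe]
      rw [this]
      exact hasDerivAt_const _ _
    · simp
  | add p q hp hq =>
    obtain ⟨P', hP1, hP2, hP3⟩ := hp
    obtain ⟨Q', hQ1, hQ2, hQ3⟩ := hq
    refine ⟨fun j k x => P' j k x + Q' j k x, fun j k => (hP1 j k).add (hQ1 j k),
      fun x j k => ?_, fun w x => ?_⟩
    · simp only [map_add]
      exact HasDerivAt.add (hP2 x j k) (hQ2 x j k)
    · simp only [mul_add, Finset.sum_add_distrib, map_add, hP3, hQ3]
  | mul_X p w' hp =>
    obtain ⟨P', hP1, hP2, hP3⟩ := hp
    refine ⟨fun j k x => P' j k x * ((n : ℂ)⁻¹ * Matrix.trace (wv (hermTuple x) w')) +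
      tpe x p * ((n : ℂ)⁻¹ * Matrix.trace (dw (hermTuple x) i (mu j k) w')), fun j k => ?_,
      fun x j k => ?_, fun w x => ?_⟩
    · exact ((hP1 j k).mul ((MPG.wv w').trace.const_mul _)).add
        ((PG.tpe p).mul ((MPG.dw i _ w').trace.const_mul _))
    · simp only [map_mul, tpe_X]
      have h1 := HasDerivAt.const_mul (n : ℂ)⁻¹ (hasLineDerivAt_trace_wv x i j k w')
      have h2 := HasDerivAt.mul (hP2 x j k) h1
      simp only [zero_smul, add_zero] at h2
      exact h2
    · have e1 : Gam i w (p * MvPolynomial.X w') = Gam i w p * MvPolynomial.X w' +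
          p * ((splits i w').map fun s => (MvPolynomial.X (w ++ s.2 ++ s.1) : TP m)).sum := by
        rw [Derivation.leibniz, Gam, MvPolynomial.mkDerivation_X, smul_eq_mul, smul_eq_mul]
        ring
      rw [e1, map_add, map_mul, map_mul, ← hP3, tpe_X]
      have e2 : tpe x ((splits i w').map fun s => (MvPolynomial.X (w ++ s.2 ++ s.1) : TP m)).sum =
          (n : ℂ)⁻¹ * ∑ j, ∑ k, Matrix.trace (mu j k * wv (hermTuple x) w) *
            Matrix.trace (dw (hermTuple x) i (mu j k) w') := by
        rw [grad_pairing, map_list_sum, List.map_map, ← list_sum_map_mul_left]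
        congr 1
        apply List.map_congr_left
        intro s _
        simp only [Function.comp, tpe_X, wv_append]
      rw [e2]
      simp only [mul_add, Finset.sum_add_distrib, Finset.sum_mul, Finset.mul_sum]
      congr 1
      · refine Finset.sum_congr rfl fun j _ => Finset.sum_congr rfl fun k _ => ?_
        ring
      · refine Finset.sum_congr rfl fun j _ => Finset.sum_congr rfl fun k _ => ?_
        ring

/-- The loop defect. -/
def del (i : Fin m) (w : List (Fin m)) : TP m :=
  (if i = 0 then MvPolynomial.X (w ++ [0, 0, 0]) - 2 * MvPolynomial.X (w ++ [0])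
    else 2 * MvPolynomial.X (w ++ [i])) -
  ((splits i w).map fun s => (MvPolynomial.X s.1 * MvPolynomial.X s.2 : TP m)).sum

theorem tpe_del (hn : 1 ≤ n) (x : Coord m n) (i : Fin m) (w : List (Fin m)) :
    tpe x (del i w) = (n : ℂ)⁻¹ * Matrix.trace (wv (hermTuple x) w * DP (hermTuple x) i) -
      (n : ℂ)⁻¹ * (n : ℂ)⁻¹ * ((splits i w).map fun s => Matrix.trace (wv (hermTuple x) s.1) *
        Matrix.trace (wv (hermTuple x) s.2)).sum := by
  rw [del, map_sub]
  congr 1
  · unfold DP
    split_ifs with h
    · rw [map_sub, map_mul, tpe_X, tpe_X, mul_sub, Matrix.trace_sub, Matrix.mul_smul,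
        Matrix.trace_smul]
      simp only [wv_append, wv_cons, wv_nil, mul_one, map_ofNat, pow_succ, pow_zero, one_mul,
        smul_eq_mul, mul_assoc]
      ring
    · rw [map_mul, tpe_X, Matrix.mul_smul, Matrix.trace_smul]
      simp only [wv_append, wv_cons, wv_nil, mul_one, map_ofNat, smul_eq_mul]
      ring
  · rw [map_list_sum, List.map_map, ← list_sum_map_mul_left]
    congr 1
    apply List.map_congr_left
    intro s _
    simp only [Function.comp, map_mul, tpe_X]
    ring

/-- **Loop equations** for trace polynomials. -/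
theorem loop (hn : 1 ≤ n) (i : Fin m) (w : List (Fin m)) (F : TP m) :
    Ex m n (fun x => tpe x (del i w * F)) =
      (n : ℂ)⁻¹ ^ 2 * Ex m n (fun x => tpe x (Gam i w F)) := by
  obtain ⟨F', hF1, hF2, hF3⟩ := exists_deriv n i F
  have key := loop_matrix hn i (p := fun x => wv (hermTuple x) w)
    (p' := fun j k x => dw (hermTuple x) i (mu j k) w) (F := fun x => tpe x F) (F' := F')
    (MPG.wv w) (fun j k => MPG.dw i _ w) (PG.tpe F) hF1
    (fun x j k a b => hasDerivAt_wv x i j k w a b) hF2
  simp only [hF3, div_word] at key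
  have hn0 : (n : ℂ) ≠ 0 := by exact_mod_cast (by omega : n ≠ 0)
  have e1 : ∀ x : Coord m n, tpe x (del i w * F) =
      (n : ℂ)⁻¹ * (Matrix.trace (wv (hermTuple x) w * DP (hermTuple x) i) * tpe x F) -
      (n : ℂ)⁻¹ ^ 2 * (((splits i w).map fun s => Matrix.trace (wv (hermTuple x) s.1) *
        Matrix.trace (wv (hermTuple x) s.2)).sum * tpe x F) := by
    intro x
    rw [map_mul, tpe_del hn]
    ring
  simp only [e1]
  have p1 : PG fun x : Coord m n => Matrix.trace (wv (hermTuple x) w * DP (hermTuple x) i) *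
      tpe x F := (((MPG.wv w).mul (MPG.DP i)).trace).mul (PG.tpe F)
  have p2 : PG fun x : Coord m n => ((splits i w).map fun s =>
      Matrix.trace (wv (hermTuple x) s.1) * Matrix.trace (wv (hermTuple x) s.2)).sum * tpe x F :=
    (PG.listSum _ fun s _ => (MPG.wv s.1).trace.mul (MPG.wv s.2).trace).mul (PG.tpe F)
  rw [Ex_sub hn (p1.const_mul _) (p2.const_mul _), Ex_const_mul, Ex_const_mul]
  have e2 : Ex m n (fun x => ((splits i w).map fun s =>
      Matrix.trace (wv (hermTuple x) s.1) * Matrix.trace (wv (hermTuple x) s.2)).sum * tpe x F) =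
      n * Ex m n (fun x => Matrix.trace (wv (hermTuple x) w * DP (hermTuple x) i) * tpe x F) -
      Ex m n (fun x => tpe x (Gam i w F)) := by
    rw [← key]; ring
  rw [e2]
  field_simp
  ring

end Pool.Agent.Lib.MP_58f2bb_an
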