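import Pool.Agent.Lib.MP_58f2bb_an.Jacobi

/-!
# Test vectors in the free Jacobi model
-/

noncomputable section

set_option linter.unusedSectionVars false
set_option linter.unusedVariables false
set_option linter.unusedSimpArgs false

open scoped TensorProduct InnerProductSpace ComplexConjugate Topology ENNReal
open MeasureTheory Filter

namespace Pool.Agent.Lib.MP_58f2bb_an

variable {E : Type*} [NormedAddCommGroup E] [InnerProductSpace ℂ E]

/-- the shifted sequence. -/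
def em (e : ℕ → E) : ℕ → E
  | 0 => 0
  | k + 1 => e k

/-- image of the Chebyshev basis. -/
def jv (e : ℕ → E) (k : ℕ) : E := em e (k + 2) + em e k

/-- sums over antidiagonals. -/
def Bm (e : ℕ → E) (n : ℕ) : E ⊗[ℂ] E :=
  ∑ p ∈ Finset.HasAntidiagonal.antidiagonal n, em e p.1 ⊗ₜ[ℂ] em e p.2

theorem Bm_left (e : ℕ → E) (k : ℕ) : Bm e (k + 2) = em e 1 ⊗ₜ[ℂ] em e (k + 1) +
    ∑ p ∈ Finset.HasAntidiagonal.antidiagonal k, em e (p.1 + 2) ⊗ₜ[ℂ] em e p.2 := by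
  rw [Bm, Finset.Nat.sum_antidiagonal_succ, Finset.Nat.sum_antidiagonal_succ]
  simp [em]

theorem Bm_right (e : ℕ → E) (k : ℕ) : Bm e (k + 2) = em e (k + 1) ⊗ₜ[ℂ] em e 1 +
    ∑ p ∈ Finset.HasAntidiagonal.antidiagonal k, em e p.1 ⊗ₜ[ℂ] em e (p.2 + 2) := by
  rw [Bm, Finset.Nat.sum_antidiagonal_succ', Finset.Nat.sum_antidiagonal_succ']
  simp [em, add_comm]

theorem Bm_both (e : ℕ → E) (k : ℕ) : Bm e (k + 4) = em e 1 ⊗ₜ[ℂ] em e (k + 3) +
    em e (k + 3) ⊗ₜ[ℂ] em e 1 +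
    ∑ p ∈ Finset.HasAntidiagonal.antidiagonal k, em e (p.1 + 2) ⊗ₜ[ℂ] em e (p.2 + 2) := by
  rw [show k + 4 = (k + 2) + 2 by ring, Bm_left, Finset.Nat.sum_antidiagonal_succ',
    Finset.Nat.sum_antidiagonal_succ']
  simp only [em, TensorProduct.tmul_zero, add_zero, zero_add]
  rw [show k + 1 + 1 = k + 2 by ring]
  abel

theorem sum_jv (e : ℕ → E) (k : ℕ) :
    ∑ p ∈ Finset.HasAntidiagonal.antidiagonal k, jv e p.1 ⊗ₜ[ℂ] jv e p.2 =
      Bm e (k + 4) + (2 : ℂ) • Bm e (k + 2) + Bm e k -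
      (em e 1 ⊗ₜ[ℂ] em e (k + 3) + em e (k + 3) ⊗ₜ[ℂ] em e 1) -
      (em e 1 ⊗ₜ[ℂ] em e (k + 1) + em e (k + 1) ⊗ₜ[ℂ] em e 1) := by
  have h1 : ∀ p : ℕ × ℕ, jv e p.1 ⊗ₜ[ℂ] jv e p.2 =
      em e (p.1 + 2) ⊗ₜ[ℂ] em e (p.2 + 2) + em e (p.1 + 2) ⊗ₜ[ℂ] em e p.2 +
      em e p.1 ⊗ₜ[ℂ] em e (p.2 + 2) + em e p.1 ⊗ₜ[ℂ] em e p.2 := by
    intro p
    rw [jv, jv, TensorProduct.add_tmul, TensorProduct.tmul_add, TensorProduct.tmul_add]
    abel
  simp only [h1, Finset.sum_add_distrib]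
  have h2 := Bm_left e k
  have h3 := Bm_right e k
  have h4 := Bm_both e k
  have h5 : (2 : ℂ) • Bm e (k + 2) = Bm e (k + 2) + Bm e (k + 2) := two_smul _ _
  have h6 : Bm e k = ∑ p ∈ Finset.HasAntidiagonal.antidiagonal k, em e p.1 ⊗ₜ[ℂ] em e p.2 := rfl
  rw [h5]
  nth_rewrite 1 [h2]
  rw [h3, h4, h6]
  abel

/-- signed antidiagonal sums. -/
def bb (e : ℕ → E) (j : ℕ) : E ⊗[ℂ] E := (-1 : ℂ) ^ j • Bm e (2 * j)

/-- signed even basis vectors. -/
def gg (e : ℕ → E) (j : ℕ) : E := (-1 : ℂ) ^ j • em e (2 * j + 1)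

/-- boundary terms. -/
def yy (e : ℕ → E) (j : ℕ) : E ⊗[ℂ] E := em e 1 ⊗ₜ[ℂ] gg e j + gg e j ⊗ₜ[ℂ] em e 1

/-- primitive of the energy. -/
def ww (e : ℕ → E) (j : ℕ) : E ⊗[ℂ] E := bb e (j + 1) - bb e j + yy e j

theorem signed_jv (e : ℕ → E) (j : ℕ) :
    (-1 : ℂ) ^ j • jv e (2 * j + 1) = gg e j - gg e (j + 1) := by
  rw [jv, gg, gg, show 2 * (j + 1) + 1 = 2 * j + 1 + 2 by ring, pow_succ, smul_add]
  module

theorem signed_sum_jv (e : ℕ → E) (j : ℕ) :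
    (-1 : ℂ) ^ j • ∑ p ∈ Finset.HasAntidiagonal.antidiagonal (2 * j), jv e p.1 ⊗ₜ[ℂ] jv e p.2 =
      ww e (j + 1) - ww e j := by
  rw [sum_jv, ww, ww, bb, bb, bb, yy, yy, gg, gg, show 2 * (j + 1 + 1) = 2 * j + 4 by ring,
    show 2 * (j + 1) + 1 = 2 * j + 3 by ring, show 2 * (j + 1) = 2 * j + 2 by ring]
  simp only [TensorProduct.tmul_smul, ← TensorProduct.smul_tmul', pow_succ]
  module

/-! ### Norms -/

theorem norm_sq_sum_orth {F : Type*} [NormedAddCommGroup F] [InnerProductSpace ℂ F]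
    {ι : Type*} (s : Finset ι) (v : ι → F)
    (h : ∀ i ∈ s, ∀ j ∈ s, i ≠ j → ⟪v i, v j⟫_ℂ = 0) :
    ‖∑ i ∈ s, v i‖ ^ 2 = ∑ i ∈ s, ‖v i‖ ^ 2 := by
  rw [← inner_self_eq_norm_sq (𝕜 := ℂ), sum_inner, map_sum]
  refine Finset.sum_congr rfl fun i hi => ?_
  rw [inner_sum, Finset.sum_eq_single_of_mem i hi fun j hj hij => h i hi j hj hij.symm,
    inner_self_eq_norm_sq]

variable {e : ℕ → E}

theorem norm_em_le (he : Orthonormal ℂ e) (k : ℕ) : ‖em e k‖ ≤ 1 := by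
  rcases k with _ | k
  · simp [em]
  · rw [em, he.1 k]

theorem inner_em (he : Orthonormal ℂ e) {j k : ℕ} (h : j ≠ k) : ⟪em e j, em e k⟫_ℂ = 0 := by
  rcases j with _ | j <;> rcases k with _ | k
  · simp [em]
  · simp [em]
  · simp [em]
  · rw [em, em]
    exact he.2 (by omega)

theorem norm_Bm_le (he : Orthonormal ℂ e) (n : ℕ) : ‖Bm e n‖ ^ 2 ≤ n + 1 := by
  rw [Bm, norm_sq_sum_orth]
  · calc _ ≤ ∑ p ∈ Finset.HasAntidiagonal.antidiagonal n, (1 : ℝ) := by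
          refine Finset.sum_le_sum fun p hp => ?_
          rw [TensorProduct.norm_tmul]
          have h1 := norm_em_le he p.1
          have h2 := norm_em_le he p.2
          have h3 : ‖em e p.1‖ * ‖em e p.2‖ ≤ 1 * 1 := by gcongr
          rw [one_mul] at h3
          exact pow_le_one₀ (by positivity) h3
      _ = n + 1 := by simp
  · intro p hp q hq hpq
    rw [Finset.HasAntidiagonal.mem_antidiagonal] at hp hq
    rw [TensorProduct.inner_tmul]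
    have : p.1 ≠ q.1 := by
      intro h
      apply hpq
      ext
      · exact h
      · omega
    rw [inner_em he this, zero_mul]

theorem norm_bb_le (he : Orthonormal ℂ e) (j : ℕ) : ‖bb e j‖ ^ 2 ≤ 2 * j + 1 := by
  rw [bb, norm_smul, norm_pow, norm_neg, norm_one, one_pow, one_mul]
  have := norm_Bm_le he (2 * j)
  push_cast at this
  exact this

theorem norm_gg (he : Orthonormal ℂ e) (j : ℕ) : ‖gg e j‖ = 1 := by
  rw [gg, norm_smul, norm_pow, norm_neg, norm_one, one_pow, one_mul, em, he.1]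

theorem inner_gg (he : Orthonormal ℂ e) {j k : ℕ} (h : j ≠ k) : ⟪gg e j, gg e k⟫_ℂ = 0 := by
  rw [gg, gg, inner_smul_left, inner_smul_right, inner_em he (by omega), mul_zero, mul_zero]

/-- block vectors. -/
def fv (e : ℕ → E) (N : ℕ) : E := ∑ k ∈ Finset.range N, (gg e (N + k + 1) - gg e (2 * N + k + 1))

theorem norm_fv (he : Orthonormal ℂ e) (N : ℕ) : ‖fv e N‖ ^ 2 = 2 * N := by
  rw [fv, norm_sq_sum_orth]
  · have h1 : ∀ k ∈ Finset.range N, ‖gg e (N + k + 1) - gg e (2 * N + k + 1)‖ ^ 2 = 2 := by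
      intro k hk
      rw [Finset.mem_range] at hk
      rw [norm_sub_sq (𝕜 := ℂ), norm_gg he, norm_gg he, inner_gg he (by omega)]
      norm_num
    rw [Finset.sum_congr rfl h1]
    simp
    ring
  · intro j hj k hk hjk
    rw [Finset.mem_range] at hj hk
    rw [inner_sub_left, inner_sub_right, inner_sub_right, inner_gg he (by omega),
      inner_gg he (by omega), inner_gg he (by omega), inner_gg he (by omega)]
    simp

theorem inner_fv (he : Orthonormal ℂ e) {N M : ℕ} (h : 3 * N ≤ M) : ⟪fv e N, fv e M⟫_ℂ = 0 := by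
  rw [fv, fv, sum_inner]
  refine Finset.sum_eq_zero fun j hj => ?_
  rw [inner_sum]
  refine Finset.sum_eq_zero fun k hk => ?_
  rw [Finset.mem_range] at hj hk
  rw [inner_sub_left, inner_sub_right, inner_sub_right, inner_gg he (by omega),
    inner_gg he (by omega), inner_gg he (by omega), inner_gg he (by omega)]
  simp

theorem sum_yy (e : ℕ → E) (N : ℕ) :
    ∑ k ∈ Finset.range N, (yy e (2 * N + k + 1) - yy e (N + k + 1)) =
      -(em e 1 ⊗ₜ[ℂ] fv e N + fv e N ⊗ₜ[ℂ] em e 1) := by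
  have h1 : ∀ k, yy e (2 * N + k + 1) - yy e (N + k + 1) =
      -(em e 1 ⊗ₜ[ℂ] (gg e (N + k + 1) - gg e (2 * N + k + 1)) +
        (gg e (N + k + 1) - gg e (2 * N + k + 1)) ⊗ₜ[ℂ] em e 1) := by
    intro k
    rw [yy, yy, TensorProduct.tmul_sub, TensorProduct.sub_tmul]
    abel
  simp only [h1]
  rw [Finset.sum_neg_distrib, Finset.sum_add_distrib, ← TensorProduct.tmul_sum,
    ← TensorProduct.sum_tmul, fv]

theorem sum_ww (e : ℕ → E) (N : ℕ) :
    ∑ k ∈ Finset.range N, (ww e (2 * N + k + 1) - ww e (N + k + 1)) =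
      (bb e (3 * N + 1) - bb e (2 * N + 1)) - (bb e (2 * N + 1) - bb e (N + 1)) -
      (em e 1 ⊗ₜ[ℂ] fv e N + fv e N ⊗ₜ[ℂ] em e 1) := by
  have h1 : ∀ k, ww e (2 * N + k + 1) - ww e (N + k + 1) =
      (bb e (2 * N + (k + 1) + 1) - bb e (2 * N + k + 1)) -
      (bb e (N + (k + 1) + 1) - bb e (N + k + 1)) +
      (yy e (2 * N + k + 1) - yy e (N + k + 1)) := by
    intro k
    rw [ww, ww]
    simp only [← add_assoc]
    abel
  simp only [h1]
  rw [Finset.sum_add_distrib, sum_yy, Finset.sum_sub_distrib,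
    Finset.sum_range_sub (fun k => bb e (2 * N + k + 1)),
    Finset.sum_range_sub (fun k => bb e (N + k + 1))]
  rw [show 2 * N + N + 1 = 3 * N + 1 by ring, show N + N + 1 = 2 * N + 1 by ring]
  simp only [add_zero]
  abel

theorem norm_sum_ww_le (he : Orthonormal ℂ e) {N : ℕ} (hN : 1 ≤ N) :
    ‖∑ k ∈ Finset.range N, (ww e (2 * N + k + 1) - ww e (N + k + 1))‖ ^ 2 ≤ 225 * N := by
  have hN' : (1 : ℝ) ≤ N := by exact_mod_cast hN
  have hs : √(N : ℝ) ^ 2 = N := Real.sq_sqrt (by positivity)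
  have hs0 : 0 ≤ √(N : ℝ) := Real.sqrt_nonneg _
  have hb : ∀ j : ℕ, (2 * j + 1 : ℝ) ≤ 9 * N → ‖bb e j‖ ≤ 3 * √(N : ℝ) := by
    intro j hj
    apply le_of_sq_le_sq _ (by positivity)
    refine (norm_bb_le he j).trans (hj.trans (le_of_eq ?_))
    rw [mul_pow, hs]; norm_num
  have h1 := hb (3 * N + 1) (by push_cast; linarith)
  have h2 := hb (2 * N + 1) (by push_cast; linarith)
  have h3 := hb (N + 1) (by push_cast; linarith)
  have h4 : ‖fv e N‖ ≤ 3 / 2 * √(N : ℝ) := by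
    apply le_of_sq_le_sq _ (by positivity)
    rw [norm_fv he, mul_pow, hs]
    nlinarith
  have h5 := norm_em_le he 1
  rw [sum_ww]
  have key : ‖(bb e (3 * N + 1) - bb e (2 * N + 1)) - (bb e (2 * N + 1) - bb e (N + 1)) -
      (em e 1 ⊗ₜ[ℂ] fv e N + fv e N ⊗ₜ[ℂ] em e 1)‖ ≤ 15 * √(N : ℝ) := by
    have hem : 0 ≤ ‖em e 1‖ := norm_nonneg _
    have hfv : 0 ≤ ‖fv e N‖ := norm_nonneg _
    calc _ ≤ ‖(bb e (3 * N + 1) - bb e (2 * N + 1)) - (bb e (2 * N + 1) - bb e (N + 1))‖ +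
          ‖em e 1 ⊗ₜ[ℂ] fv e N + fv e N ⊗ₜ[ℂ] em e 1‖ := norm_sub_le _ _
      _ ≤ (‖bb e (3 * N + 1) - bb e (2 * N + 1)‖ + ‖bb e (2 * N + 1) - bb e (N + 1)‖) +
          (‖em e 1 ⊗ₜ[ℂ] fv e N‖ + ‖fv e N ⊗ₜ[ℂ] em e 1‖) :=
          add_le_add (norm_sub_le _ _) (norm_add_le _ _)
      _ ≤ ((‖bb e (3 * N + 1)‖ + ‖bb e (2 * N + 1)‖) + (‖bb e (2 * N + 1)‖ + ‖bb e (N + 1)‖)) +
          (‖em e 1‖ * ‖fv e N‖ + ‖fv e N‖ * ‖em e 1‖) := by
          rw [TensorProduct.norm_tmul, TensorProduct.norm_tmul]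
          gcongr
          · exact norm_sub_le _ _
          · exact norm_sub_le _ _
      _ ≤ _ := by nlinarith
  calc _ ≤ (15 * √(N : ℝ)) ^ 2 := by gcongr
    _ = 225 * N := by rw [mul_pow, hs]; norm_num

end Pool.Agent.Lib.MP_58f2bb_an
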