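import Pool.Agent.Lib.MP_58f2bb_an.Loop

/-!
# Uniform moment bounds
-/

noncomputable section

set_option linter.unusedSectionVars false
set_option linter.unusedVariables false
set_option linter.unusedSimpArgs false

open scoped TensorProduct InnerProductSpace ComplexConjugate Topology ENNReal
open MeasureTheory Filter

namespace Pool.Agent.Lib.MP_58f2bb_an

variable {m n : ℕ} [NeZero m]

/-! ### Diagonalization -/

/-- eigenvalues of the first matrix. -/
def eig (x : Coord m n) : Fin n → ℝ := (hermTuple_isHermitian x 0).eigenvalues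

/-- functional calculus of the first matrix. -/
def fc (x : Coord m n) (f : ℝ → ℂ) : Matrix (Fin n) (Fin n) ℂ :=
  Unitary.conjStarAlgAut ℂ _ (hermTuple_isHermitian x 0).eigenvectorUnitary
    (Matrix.diagonal fun j => f (eig x j))

theorem fc_id (x : Coord m n) : fc x (fun t => (t : ℂ)) = hermTuple x 0 :=
  (hermTuple_isHermitian x 0).spectral_theorem.symm

theorem fc_mul (x : Coord m n) (f g : ℝ → ℂ) : fc x f * fc x g = fc x fun t => f t * g t := by
  unfold fc
  rw [← map_mul, Matrix.diagonal_mul_diagonal]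

theorem fc_add (x : Coord m n) (f g : ℝ → ℂ) : fc x f + fc x g = fc x fun t => f t + g t := by
  unfold fc
  rw [← map_add, Matrix.diagonal_add]

theorem fc_one (x : Coord m n) : fc x (fun _ => 1) = 1 := by
  unfold fc
  rw [Matrix.diagonal_one, map_one]

theorem fc_smul (x : Coord m n) (c : ℂ) (f : ℝ → ℂ) : c • fc x f = fc x fun t => c * f t := by
  unfold fc
  rw [← map_smul, ← Matrix.diagonal_smul]
  rfl

theorem fc_star (x : Coord m n) (f : ℝ → ℂ) :
    (fc x f).conjTranspose = fc x fun t => conj (f t) := by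
  unfold fc
  rw [← Matrix.star_eq_conjTranspose, ← map_star, Matrix.star_eq_conjTranspose,
    Matrix.diagonal_conjTranspose]
  rfl

theorem fc_pow (x : Coord m n) (k : ℕ) : hermTuple x 0 ^ k = fc x fun t => (t : ℂ) ^ k := by
  induction k with
  | zero => simp [fc_one]
  | succ k ih => rw [pow_succ, ih, ← fc_id, fc_mul]; congr 1

theorem trace_fc (x : Coord m n) (f : ℝ → ℂ) :
    Matrix.trace (fc x f) = ∑ j, f (eig x j) := by
  unfold fc
  rw [Unitary.conjStarAlgAut_apply, Matrix.trace_mul_comm, ← mul_assoc]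
  simp [Matrix.trace_diagonal]

/-- normalised moments of the first matrix. -/
def mk (x : Coord m n) (k : ℕ) : ℝ := (n : ℝ)⁻¹ * ∑ j, eig x j ^ k

/-- normalised absolute moments of the first matrix. -/
def ak (x : Coord m n) (k : ℕ) : ℝ := (n : ℝ)⁻¹ * ∑ j, |eig x j| ^ k

theorem wv_replicate {A : Type*} [Monoid A] (a : Fin m → A) (i : Fin m) (k : ℕ) :
    wv a (List.replicate k i) = a i ^ k := by
  simp [wv]

theorem tpe_replicate (x : Coord m n) (k : ℕ) :
    tpe x (MvPolynomial.X (List.replicate k 0)) = (mk x k : ℂ) := by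
  rw [tpe_X, wv_replicate, fc_pow, trace_fc, mk]
  push_cast
  rfl

theorem ak_nonneg (x : Coord m n) (k : ℕ) : 0 ≤ ak x k := by
  unfold ak; positivity

theorem abs_mk_le (x : Coord m n) (k : ℕ) : |mk x k| ≤ ak x k := by
  unfold mk ak
  rw [abs_mul, abs_of_nonneg (by positivity : (0 : ℝ) ≤ (n : ℝ)⁻¹)]
  gcongr
  refine (Finset.abs_sum_le_sum_abs _ _).trans (le_of_eq ?_)
  simp [abs_pow]

theorem ak_even (x : Coord m n) (k : ℕ) : ak x (2 * k) = mk x (2 * k) := by
  unfold mk ak
  simp only [pow_mul, sq_abs]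

theorem mk_even_nonneg (x : Coord m n) (k : ℕ) : 0 ≤ mk x (2 * k) := by
  rw [← ak_even]; exact ak_nonneg _ _

theorem ak_mul_le (hn : 1 ≤ n) (x : Coord m n) (i j : ℕ) : ak x i * ak x j ≤ ak x (i + j) := by
  have hmono : Monovary (fun l => |eig x l| ^ i) (fun l => |eig x l| ^ j) := by
    intro a b hab
    have : |eig x a| ≤ |eig x b| := by
      by_contra h
      push Not at h
      exact absurd hab (not_lt.2 (pow_le_pow_left₀ (abs_nonneg _) h.le j))
    exact pow_le_pow_left₀ (abs_nonneg _) this i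
  have h := hmono.sum_mul_sum_le_card_mul_sum
  have hn0 : (0 : ℝ) < n := by exact_mod_cast hn
  unfold ak
  simp only [Fintype.card_fin, Finset.card_univ] at h
  have h2 : ∀ l, |eig x l| ^ (i + j) = |eig x l| ^ i * |eig x l| ^ j := fun l => pow_add _ _ _
  simp only [h2]
  calc ((n : ℝ)⁻¹ * ∑ l, |eig x l| ^ i) * ((n : ℝ)⁻¹ * ∑ l, |eig x l| ^ j)
      = (n : ℝ)⁻¹ * (n : ℝ)⁻¹ * ((∑ l, |eig x l| ^ i) * (∑ l, |eig x l| ^ j)) := by ring
    _ ≤ (n : ℝ)⁻¹ * (n : ℝ)⁻¹ * (n * ∑ l, |eig x l| ^ i * |eig x l| ^ j) := by gcongr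
    _ = _ := by rw [mul_assoc, inv_mul_cancel_left₀ hn0.ne']

theorem ak_zero (hn : 1 ≤ n) (x : Coord m n) : ak x 0 = 1 := by
  unfold ak
  have hn0 : (n : ℝ) ≠ 0 := by exact_mod_cast (by omega : n ≠ 0)
  simp [hn0]

theorem mk_zero (hn : 1 ≤ n) (x : Coord m n) : mk x 0 = 1 := by
  unfold mk
  have hn0 : (n : ℝ) ≠ 0 := by exact_mod_cast (by omega : n ≠ 0)
  simp [hn0]

theorem ak_le_one_add (hn : 1 ≤ n) (x : Coord m n) (k : ℕ) : ak x k ≤ 1 + mk x (2 * k) := by
  rw [← ak_even, ← ak_zero hn x]
  unfold ak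
  rw [← mul_add, ← Finset.sum_add_distrib]
  gcongr with j
  rw [pow_zero, two_mul, pow_add]
  nlinarith [sq_nonneg (|eig x j| ^ k - 1), sq_nonneg (|eig x j| ^ k)]

theorem mk_two_le (hn : 1 ≤ n) (x : Coord m n) : mk x 2 ≤ mk x 4 / 4 + 1 := by
  have h0 : (1 : ℝ) = (n : ℝ)⁻¹ * ∑ j : Fin n, 1 := by
    have hn0 : (n : ℝ) ≠ 0 := by exact_mod_cast (by omega : n ≠ 0)
    simp [hn0]
  rw [h0]
  unfold mk
  rw [mul_div_assoc, ← mul_add, Finset.sum_div, ← Finset.sum_add_distrib]
  gcongr with j
  nlinarith [sq_nonneg (eig x j ^ 2 - 2)]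

theorem mk_two_sq_le (hn : 1 ≤ n) (x : Coord m n) : mk x 2 ^ 2 ≤ mk x 4 := by
  have h := ak_mul_le hn x 2 2
  have h1 : ak x 2 = mk x 2 := ak_even x 1
  have h2 : ak x 4 = mk x 4 := ak_even x 2
  norm_num at h
  rw [h1, h2] at h
  rw [sq]; exact h

theorem mk_one_sq_le (hn : 1 ≤ n) (x : Coord m n) : mk x 1 ^ 2 ≤ mk x 2 := by
  have h := ak_mul_le hn x 1 1
  have h1 : ak x 2 = mk x 2 := ak_even x 1
  norm_num at h
  rw [h1] at h
  have h2 := abs_mk_le x 1
  nlinarith [abs_nonneg (mk x 1), sq_abs (mk x 1)]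

/-! ### Splittings -/

theorem splits_spec (i : Fin m) (w : List (Fin m)) {s : List (Fin m) × List (Fin m)}
    (hs : s ∈ splits i w) : w = s.1 ++ i :: s.2 := by
  induction w generalizing s with
  | nil => simp [splits] at hs
  | cons j w ih =>
    rw [splits, List.mem_append] at hs
    rcases hs with hs | hs
    · split_ifs at hs with h
      · rw [List.mem_singleton] at hs
        subst hs; subst h; rfl
      · simp at hs
    · rw [List.mem_map] at hs
      obtain ⟨s', hs', rfl⟩ := hs
      simp only [List.cons_append]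
      rw [← ih hs']

theorem splits_replicate (i : Fin m) (k : ℕ) :
    splits i (List.replicate k i) =
      (List.range k).map fun j => (List.replicate j i, List.replicate (k - 1 - j) i) := by
  induction k with
  | zero => rfl
  | succ k ih =>
    rw [List.replicate_succ, splits, if_pos rfl, ih, List.range_succ_eq_map, List.map_cons,
      List.map_map, List.map_map]
    simp only [List.singleton_append, List.replicate_zero, Nat.add_sub_cancel, Nat.sub_zero,
      List.cons.injEq, true_and]
    apply List.map_congr_left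
    intro j hj
    simp only [Function.comp, Prod.mk.injEq, List.replicate_succ, true_and]
    congr 1
    omega

/-! ### Moments of the first matrix -/

theorem PG.mk (k : ℕ) : PG fun x : Coord m n => (MP_58f2bb_an.mk x k : ℂ) := by
  have := PG.tpe (m := m) (n := n) (MvPolynomial.X (List.replicate k 0))
  simpa only [tpe_replicate] using this

/-- expected moments. -/
def Mo (m n : ℕ) [NeZero m] (k : ℕ) : ℝ := ∫ x, mk x k ∂(law (crit m) n)

theorem integrable_mk (hn : 1 ≤ n) (k : ℕ) : Integrable (fun x => mk x k) (law (crit m) n) := by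
  have := ((PG.mk (m := m) (n := n) k).integrable_law hn).re
  simpa using this

theorem integrable_mk_mul (hn : 1 ≤ n) (k l : ℕ) :
    Integrable (fun x => mk x k * mk x l) (law (crit m) n) := by
  have := (((PG.mk (m := m) (n := n) k).mul (PG.mk l)).integrable_law hn).re
  refine this.congr (Filter.Eventually.of_forall fun x => ?_)
  simp [← Complex.ofReal_mul]

theorem del_replicate (k : ℕ) : del (0 : Fin m) (List.replicate k 0) =
    MvPolynomial.X (List.replicate (k + 3) 0) - 2 * MvPolynomial.X (List.replicate (k + 1) 0) -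
      ∑ j ∈ Finset.range k, (MvPolynomial.X (List.replicate j 0) *
        MvPolynomial.X (List.replicate (k - 1 - j) 0) : TP m) := by
  rw [del, if_pos rfl, splits_replicate, List.map_map]
  have h3 : List.replicate k (0 : Fin m) ++ [0, 0, 0] = List.replicate (k + 3) 0 := by
    rw [← List.replicate_append_replicate]; rfl
  have h1 : List.replicate k (0 : Fin m) ++ [0] = List.replicate (k + 1) 0 := by
    rw [← List.replicate_append_replicate]; rfl
  rw [h3, h1]
  congr 1

theorem tpe_del_replicate (x : Coord m n) (k : ℕ) : tpe x (del 0 (List.replicate k 0)) =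
    ((mk x (k + 3) - 2 * mk x (k + 1) - ∑ j ∈ Finset.range k, mk x j * mk x (k - 1 - j) : ℝ) : ℂ) := by
  rw [del_replicate]
  simp only [map_sub, map_mul, map_sum, tpe_replicate, map_ofNat]
  push_cast
  rfl

theorem Mo_rec (hn : 1 ≤ n) (k : ℕ) : Mo m n (k + 3) = 2 * Mo m n (k + 1) +
    ∑ j ∈ Finset.range k, ∫ x, mk x j * mk x (k - 1 - j) ∂(law (crit m) n) := by
  have h := loop hn (0 : Fin m) (List.replicate k 0) 1
  rw [Derivation.map_one_eq_zero] at h
  simp only [mul_one, map_zero, tpe_del_replicate] at h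
  have h0 : Ex m n (fun _ => 0) = 0 := by simp [Ex]
  rw [h0, mul_zero, Ex, integral_complex_ofReal] at h
  have h1 : ∫ x, (mk x (k + 3) - 2 * mk x (k + 1) - ∑ j ∈ Finset.range k,
      mk x j * mk x (k - 1 - j)) ∂(law (crit m) n) = 0 := by exact_mod_cast h
  have hI : Integrable (fun x => mk x (k + 3) - 2 * mk x (k + 1)) (law (crit m) n) :=
    (integrable_mk hn _).sub ((integrable_mk hn _).const_mul 2)
  have hS : Integrable (fun x => ∑ j ∈ Finset.range k, mk x j * mk x (k - 1 - j))
      (law (crit m) n) := integrable_finsetSum _ fun j _ => integrable_mk_mul hn _ _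
  rw [integral_sub hI hS, integral_sub (integrable_mk hn _) ((integrable_mk hn _).const_mul 2), integral_const_mul,
    integral_finsetSum _ fun j _ => integrable_mk_mul hn _ _] at h1
  unfold Mo
  linarith

end Pool.Agent.Lib.MP_58f2bb_an
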