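import Pool.Agent.Lib.MP_58f2bb_an.Heat

/-!
# A criterion for the heat semigroup not to be compact
-/

noncomputable section

set_option linter.unusedSectionVars false

open scoped InnerProductSpace ComplexConjugate Topology
open Filter

namespace Pool.Agent.Lib.MP_58f2bb_an

variable {H : Type*} [NormedAddCommGroup H] [InnerProductSpace ℂ H] [CompleteSpace H]

variable {Δ : H →ₗ.[ℂ] H} {S : ℝ → H →L[ℂ] H}

theorem heat_sq (hS : IsHeatSemigroup Δ S) {t : ℝ} (ht : 0 ≤ t) (f : H) :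
    (⟪f, S (2 * t) f⟫_ℂ).re = ‖S t f‖ ^ 2 := by
  rw [two_mul, hS.add t t ht ht, mul_apply_eq_comp]
  have h1 : ⟪f, S t (S t f)⟫_ℂ = ⟪S t f, S t f⟫_ℂ :=
    ((hS.selfAdjoint t ht).isSymmetric f (S t f)).symm
  rw [h1, inner_self_eq_norm_sq_to_K]
  norm_cast

theorem heat_sq_le (hS : IsHeatSemigroup Δ S) {t : ℝ} (ht : 0 ≤ t) (f : H) (hf : ‖f‖ = 1) :
    (⟪f, S t f⟫_ℂ).re ^ 2 ≤ (⟪f, S (2 * t) f⟫_ℂ).re := by
  rw [heat_sq hS ht]
  apply sq_le_sq'
  · have := abs_le.1 ((Complex.abs_re_le_norm (⟪f, S t f⟫_ℂ)).trans (norm_inner_le_norm f (S t f)))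
    rw [hf, one_mul] at this
    exact this.1
  · have := abs_le.1 ((Complex.abs_re_le_norm (⟪f, S t f⟫_ℂ)).trans (norm_inner_le_norm f (S t f)))
    rw [hf, one_mul] at this
    exact this.2

theorem heat_nonneg (hS : IsHeatSemigroup Δ S) {t : ℝ} (ht : 0 ≤ t) (f : H) :
    0 ≤ (⟪f, S t f⟫_ℂ).re := by
  have := heat_sq hS (t := t / 2) (by positivity) f
  rw [mul_div_cancel₀ t (two_ne_zero)] at this
  rw [this]; positivity

theorem heat_pow_le (hS : IsHeatSemigroup Δ S) {s : ℝ} (hs : 0 ≤ s) (f : H) (hf : ‖f‖ = 1)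
    (k : ℕ) : (⟪f, S (s / 2 ^ k) f⟫_ℂ).re ^ (2 ^ k) ≤ (⟪f, S s f⟫_ℂ).re := by
  induction k with
  | zero => simp
  | succ k ih =>
    refine le_trans ?_ ih
    have h1 := heat_sq_le hS (t := s / 2 ^ (k + 1)) (by positivity) f hf
    have h2 : 2 * (s / 2 ^ (k + 1)) = s / 2 ^ k := by rw [pow_succ]; field_simp
    rw [h2] at h1
    rw [show (2 : ℕ) ^ (k + 1) = 2 * 2 ^ k by ring, pow_mul]
    exact pow_le_pow_left₀ (sq_nonneg _) h1 _

theorem heat_lower (hS : IsHeatSemigroup Δ S) {s : ℝ} (hs : 0 < s) {f g : H} (hf : ‖f‖ = 1)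
    (hfg : (f, g) ∈ Δ.graph) : Real.exp (-(s * (⟪f, g⟫_ℂ).re)) ≤ ‖S s f‖ := by
  have h1 := (hS.gen f g).1 hfg
  -- `(1 - φ t)/t → E`
  have h2 : Tendsto (fun t : ℝ => t⁻¹ * (1 - (⟪f, S t f⟫_ℂ).re)) (𝓝[>] 0) (𝓝 (⟪f, g⟫_ℂ).re) := by
    have h3 : Tendsto (fun t : ℝ => (⟪f, (t : ℂ)⁻¹ • (f - S t f)⟫_ℂ).re) (𝓝[>] 0)
        (𝓝 (⟪f, g⟫_ℂ).re) := by
      have hc : Continuous fun v : H => (⟪f, v⟫_ℂ).re := by fun_prop
      exact (hc.tendsto g).comp h1
    refine h3.congr fun t => ?_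
    rw [inner_smul_right, inner_sub_right, inner_self_eq_norm_sq_to_K, hf, ← Complex.ofReal_inv,
      Complex.re_ofReal_mul, Complex.sub_re]
    simp
  have h4 : Tendsto (fun x : ℝ => x * ((⟪f, S (s / x) f⟫_ℂ).re - 1)) atTop
      (𝓝 (-(s * (⟪f, g⟫_ℂ).re))) := by
    have h5 : Tendsto (fun x : ℝ => s / x) atTop (𝓝[>] 0) := by
      rw [tendsto_nhdsWithin_iff]
      refine ⟨tendsto_const_nhds.div_atTop tendsto_id, ?_⟩
      filter_upwards [eventually_gt_atTop 0] with x hx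
      exact div_pos hs hx
    have h6 := (h2.comp h5).const_mul (-s)
    rw [neg_mul] at h6
    refine h6.congr' ?_
    filter_upwards [eventually_gt_atTop 0] with x hx
    simp only [Function.comp]
    field_simp
    ring
  have h7 := Real.tendsto_one_add_rpow_exp_of_tendsto h4
  have h8 : Tendsto (fun k : ℕ => (2 : ℝ) ^ k) atTop atTop :=
    tendsto_pow_atTop_atTop_of_one_lt one_lt_two
  have h9 := h7.comp h8
  have h10 : Real.exp (-(s * (⟪f, g⟫_ℂ).re)) ≤ (⟪f, S s f⟫_ℂ).re := by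
    refine le_of_tendsto' h9 fun k => ?_
    simp only [Function.comp]
    have h11 : (1 + ((⟪f, S (s / 2 ^ k) f⟫_ℂ).re - 1)) = (⟪f, S (s / 2 ^ k) f⟫_ℂ).re := by ring
    rw [h11]
    have h12 : ((2 : ℝ) ^ k) = ((2 ^ k : ℕ) : ℝ) := by push_cast; ring
    rw [h12, Real.rpow_natCast, ← h12]
    exact heat_pow_le hS hs.le f hf k
  refine h10.trans ?_
  have h13 := (Complex.re_le_norm (⟪f, S s f⟫_ℂ)).trans (norm_inner_le_norm f (S s f))
  rwa [hf, one_mul] at h13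

/-- The heat semigroup of a self-adjoint operator is not compact at any time if there is a
weakly null sequence of unit vectors with bounded energy. -/
theorem not_compact_of_seq (hS : IsHeatSemigroup Δ S) (f g : ℕ → H)
    (hfg : ∀ k, (f k, g k) ∈ Δ.graph) (hf : ∀ k, ‖f k‖ = 1) (C : ℝ)
    (hC : ∀ k, (⟪f k, g k⟫_ℂ).re ≤ C)
    (hweak : ∀ z, Tendsto (fun k => ⟪z, f k⟫_ℂ) atTop (𝓝 0)) {s : ℝ} (hs : 0 < s) :
    ¬ IsCompactOperator (S s) := by
  intro hcomp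
  obtain ⟨K, hK, hKsub⟩ := hcomp.image_closedBall_subset_compact (f := (S s).toLinearMap) 1
  have hmem : ∀ k, S s (f k) ∈ K := fun k =>
    hKsub ⟨f k, by simp [hf k], rfl⟩
  obtain ⟨y, -, φ, hφ, hy⟩ := hK.tendsto_subseq hmem
  have hy0 : y = 0 := by
    have h1 : ∀ z, ⟪z, y⟫_ℂ = 0 := by
      intro z
      have h2 : Tendsto (fun k => ⟪z, S s (f (φ k))⟫_ℂ) atTop (𝓝 ⟪z, y⟫_ℂ) :=
        ((continuous_const.inner continuous_id).tendsto y).comp hy
      have h3 : Tendsto (fun k => ⟪z, S s (f (φ k))⟫_ℂ) atTop (𝓝 0) := by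
        have h4 := (hweak (S s z)).comp hφ.tendsto_atTop
        refine h4.congr fun k => ?_
        exact (hS.selfAdjoint s hs.le).isSymmetric z (f (φ k))
      exact tendsto_nhds_unique h2 h3
    simpa using h1 y
  subst hy0
  have h5 : Tendsto (fun k => ‖S s (f (φ k))‖) atTop (𝓝 0) := by
    simpa using hy.norm
  have h6 : Real.exp (-(s * C)) ≤ 0 := by
    refine ge_of_tendsto' h5 fun k => ?_
    refine le_trans ?_ (heat_lower hS hs (hf (φ k)) (hfg (φ k)))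
    apply Real.exp_le_exp.2
    have := hC (φ k)
    nlinarith
  exact absurd (Real.exp_pos _) (not_lt.2 h6)

end Pool.Agent.Lib.MP_58f2bb_an
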