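import Pool.Agent.Lib.MP_58f2bb_an.Unbounded

/-!
# The bounded operator `(1 + Δ)⁻¹`
-/

noncomputable section

set_option linter.unusedSectionVars false

open scoped InnerProductSpace ComplexConjugate Topology
open Filter

namespace Pool.Agent.Lib.MP_58f2bb_an

variable {H : Type*} [NormedAddCommGroup H] [InnerProductSpace ℂ H] [CompleteSpace H]

open LinearPMap

/-- data of a self-adjoint nonnegative operator. -/
structure NonnegSA (Δ : H →ₗ.[ℂ] H) : Prop where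
  sa : IsSelfAdjoint Δ
  nonneg : ∀ {x y}, (x, y) ∈ Δ.graph → 0 ≤ (⟪x, y⟫_ℂ).re

theorem NonnegSA.symm {Δ : H →ₗ.[ℂ] H} (h : NonnegSA Δ) {x y x' y' : H}
    (h1 : (x, y) ∈ Δ.graph) (h2 : (x', y') ∈ Δ.graph) : ⟪y, x'⟫_ℂ = ⟪x, y'⟫_ℂ := by
  have h3 : (x', y') ∈ Δ†.graph := by
    rw [LinearPMap.isSelfAdjoint_def.1 h.sa]; exact h2
  exact (adjoint_graph_iff h.sa.dense_domain).1 h3 _ _ h1

theorem NonnegSA.norm_sq_le {Δ : H →ₗ.[ℂ] H} (h : NonnegSA Δ) {x y : H}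
    (h1 : (x, y) ∈ Δ.graph) : ‖x‖ ^ 2 + ‖y‖ ^ 2 ≤ ‖x + y‖ ^ 2 := by
  have := h.nonneg h1
  rw [@norm_add_sq ℂ]
  have h2 : RCLike.re (⟪x, y⟫_ℂ) = (⟪x, y⟫_ℂ).re := rfl
  rw [h2]
  linarith

/-- `(x, y) ↦ x + y` on the graph. -/
def sumMap (Δ : H →ₗ.[ℂ] H) : Δ.graph →L[ℂ] H :=
  (ContinuousLinearMap.fst ℂ H H + ContinuousLinearMap.snd ℂ H H).comp Δ.graph.subtypeL

theorem sumMap_apply (Δ : H →ₗ.[ℂ] H) (g : Δ.graph) : sumMap Δ g = g.1.1 + g.1.2 := rfl

theorem NonnegSA.norm_le {Δ : H →ₗ.[ℂ] H} (h : NonnegSA Δ) (g : Δ.graph) :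
    ‖g‖ ≤ ‖sumMap Δ g‖ := by
  have h1 := h.norm_sq_le (x := g.1.1) (y := g.1.2) g.2
  rw [sumMap_apply]
  change ‖(g.1 : H × H)‖ ≤ _
  rw [Prod.norm_def]
  apply max_le
  · apply le_of_sq_le_sq _ (norm_nonneg _)
    nlinarith [sq_nonneg ‖g.1.2‖]
  · apply le_of_sq_le_sq _ (norm_nonneg _)
    nlinarith [sq_nonneg ‖g.1.1‖]

theorem NonnegSA.surj {Δ : H →ₗ.[ℂ] H} (h : NonnegSA Δ) : Function.Surjective (sumMap Δ) := by
  have hcl : IsClosed (Δ.graph : Set (H × H)) := h.sa.isClosed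
  have : CompleteSpace Δ.graph := hcl.completeSpace_coe
  have hanti : AntilipschitzWith 1 (sumMap Δ) := by
    apply AddMonoidHomClass.antilipschitz_of_bound
    intro g
    simpa using h.norm_le g
  have hr : IsClosed (Set.range (sumMap Δ)) := hanti.isClosed_range (sumMap Δ).uniformContinuous
  have hr' : IsClosed ((LinearMap.range (sumMap Δ).toLinearMap : Submodule ℂ H) : Set H) := hr
  have htop : LinearMap.range (sumMap Δ).toLinearMap = ⊤ := by
    have : CompleteSpace (LinearMap.range (sumMap Δ).toLinearMap) := hr'.completeSpace_coe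
    rw [← Submodule.orthogonal_eq_bot_iff, Submodule.eq_bot_iff]
    intro z hz
    have hz' : (z, -z) ∈ Δ†.graph := by
      rw [adjoint_graph_iff h.sa.dense_domain]
      intro u w huw
      have := (Submodule.mem_orthogonal _ _).1 hz (u + w) ⟨⟨(u, w), huw⟩, rfl⟩
      rw [inner_add_left] at this
      rw [inner_neg_right]
      linear_combination this
    rw [LinearPMap.isSelfAdjoint_def.1 h.sa] at hz'
    have h1 := h.nonneg hz'
    rw [inner_neg_right, Complex.neg_re] at h1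
    have h3 : (⟪z, z⟫_ℂ).re = ‖z‖ ^ 2 := by
      rw [inner_self_eq_norm_sq_to_K]; norm_cast
    rw [h3] at h1
    have h4 : ‖z‖ ^ 2 = 0 := le_antisymm (by linarith) (sq_nonneg _)
    simpa using h4
  intro y
  have : y ∈ LinearMap.range (sumMap Δ).toLinearMap := by rw [htop]; trivial
  obtain ⟨g, hg⟩ := this
  exact ⟨g, hg⟩

/-- The resolvent `(1 + Δ)⁻¹`. -/
theorem NonnegSA.exists_resolvent {Δ : H →ₗ.[ℂ] H} (h : NonnegSA Δ) :
    ∃ B : H →L[ℂ] H, (∀ u, (B u, u - B u) ∈ Δ.graph) ∧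
      (∀ x y, (x, y) ∈ Δ.graph → B (x + y) = x) ∧ ‖B‖ ≤ 1 ∧ B.IsPositive := by
  have hinj : Function.Injective (sumMap Δ) := by
    rw [injective_iff_map_eq_zero]
    intro g hg
    have := h.norm_le g
    rw [hg, norm_zero] at this
    exact norm_le_zero_iff.1 this
  let e := LinearEquiv.ofBijective (sumMap Δ).toLinearMap ⟨hinj, h.surj⟩
  let B0 : H →ₗ[ℂ] H := (LinearMap.fst ℂ H H) ∘ₗ Δ.graph.subtype ∘ₗ e.symm.toLinearMap
  have hB0 : ∀ u, ‖B0 u‖ ≤ 1 * ‖u‖ := by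
    intro u
    have h1 := h.norm_le (e.symm u)
    have h2 : sumMap Δ (e.symm u) = u := e.apply_symm_apply u
    rw [h2] at h1
    rw [one_mul]
    refine le_trans ?_ h1
    exact le_max_left _ _
  let B : H →L[ℂ] H := B0.mkContinuous 1 hB0
  have hB : ∀ u, (B u, u - B u) ∈ Δ.graph := by
    intro u
    have h2 : (e.symm u).1.1 + (e.symm u).1.2 = u := e.apply_symm_apply u
    have h3 : (e.symm u).1.2 = u - (e.symm u).1.1 := eq_sub_of_add_eq' h2
    have h4 := (e.symm u).2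
    rw [show ((e.symm u).1) = ((e.symm u).1.1, u - (e.symm u).1.1) by rw [← h3]] at h4
    exact h4
  have hB' : ∀ x y, (x, y) ∈ Δ.graph → B (x + y) = x := by
    intro x y hxy
    have h2 : e ⟨(x, y), hxy⟩ = x + y := rfl
    have : e.symm (x + y) = ⟨(x, y), hxy⟩ := by rw [← h2, LinearEquiv.symm_apply_apply]
    change (e.symm (x + y)).1.1 = x
    rw [this]
  refine ⟨B, hB, hB', LinearMap.mkContinuous_norm_le _ zero_le_one _, ?_⟩
  rw [ContinuousLinearMap.isPositive_def']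
  constructor
  · rw [ContinuousLinearMap.isSelfAdjoint_iff_isSymmetric]
    intro u v
    change ⟪B u, v⟫_ℂ = ⟪u, B v⟫_ℂ
    have h1 := h.symm (hB u) (hB v)
    rw [inner_sub_left, inner_sub_right] at h1
    linear_combination -h1
  · intro u
    rw [ContinuousLinearMap.reApplyInnerSelf_apply]
    have h1 := h.nonneg (hB u)
    rw [inner_sub_right, Complex.sub_re] at h1
    have h3 : (⟪B u, B u⟫_ℂ).re = ‖B u‖ ^ 2 := by
      rw [inner_self_eq_norm_sq_to_K]; norm_cast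
    change 0 ≤ (⟪B u, u⟫_ℂ).re
    nlinarith [sq_nonneg ‖B u‖]

end Pool.Agent.Lib.MP_58f2bb_an
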