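import Pool.Agent.Lib.MP_58f2bb_an.Bounds

/-!
# The resolvent loop equation
-/

noncomputable section

set_option linter.unusedSectionVars false
set_option linter.unusedVariables false
set_option linter.unusedSimpArgs false

open scoped TensorProduct InnerProductSpace ComplexConjugate Topology ENNReal
open MeasureTheory Filter

namespace Pool.Agent.Lib.MP_58f2bb_an

variable {m n : ℕ} [NeZero m]

/-- entries of the functional calculus are bounded. -/
theorem fc_entry_le (x : Coord m n) (f : ℝ → ℂ) (M : ℝ) (hf : ∀ t, ‖f t‖ ≤ M) (a b : Fin n) :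
    ‖fc x f a b‖ ≤ M := by
  set U : Matrix (Fin n) (Fin n) ℂ :=
    ((hermTuple_isHermitian x 0).eigenvectorUnitary : Matrix (Fin n) (Fin n) ℂ) with hU
  have h1 : fc x f a b = ∑ j, U a j * f (eig x j) * conj (U b j) := by
    unfold fc
    rw [Unitary.conjStarAlgAut_apply, Matrix.mul_apply]
    refine Finset.sum_congr rfl fun j _ => ?_
    rw [Matrix.mul_diagonal, Matrix.star_apply]
    rfl
  have h2 : ∀ a, ∑ j, ‖U a j‖ ^ 2 = 1 := by
    intro a
    have h3 : U * star U = 1 := Unitary.mul_star_self_of_mem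
      (hermTuple_isHermitian x 0).eigenvectorUnitary.2
    have h4 := congrFun (congrFun h3 a) a
    rw [Matrix.mul_apply, Matrix.one_apply_eq] at h4
    have h5 : ∀ j, U a j * (star U) j a = ((‖U a j‖ ^ 2 : ℝ) : ℂ) := by
      intro j
      rw [Matrix.star_apply]
      have := Complex.mul_conj' (U a j)
      push_cast
      exact this
    simp only [h5] at h4
    exact_mod_cast h4
  have hM : 0 ≤ M := (norm_nonneg _).trans (hf 0)
  rw [h1]
  calc ‖∑ j, U a j * f (eig x j) * conj (U b j)‖ ≤ ∑ j, ‖U a j * f (eig x j) * conj (U b j)‖ :=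
        norm_sum_le _ _
    _ ≤ ∑ j, M * ((1 / 2) * ‖U a j‖ ^ 2 + (1 / 2) * ‖U b j‖ ^ 2) := by
        gcongr with j
        rw [norm_mul, norm_mul, RCLike.norm_conj]
        have h6 := hf (eig x j)
        calc ‖U a j‖ * ‖f (eig x j)‖ * ‖U b j‖ ≤ ‖U a j‖ * M * ‖U b j‖ := by gcongr
          _ = M * (‖U a j‖ * ‖U b j‖) := by ring
          _ ≤ _ := by
            gcongr
            nlinarith [sq_nonneg (‖U a j‖ - ‖U b j‖)]
    _ = M := by
        rw [← Finset.mul_sum, Finset.sum_add_distrib, ← Finset.mul_sum, ← Finset.mul_sum, h2, h2]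
        ring

theorem sub_ofReal_ne {z : ℂ} (hz : z.im ≠ 0) (t : ℝ) : z - t ≠ 0 := by
  intro h
  have := congrArg Complex.im h
  simp at this
  exact hz this

theorem norm_inv_le {z : ℂ} (hz : z.im ≠ 0) (t : ℝ) : ‖(z - t)⁻¹‖ ≤ |z.im|⁻¹ := by
  rw [norm_inv]
  apply inv_anti₀ (abs_pos.2 hz)
  have := Complex.abs_im_le_norm (z - t)
  simpa using this

/-- resolvent of the first matrix. -/
def Rz (z : ℂ) (x : Coord m n) : Matrix (Fin n) (Fin n) ℂ := fc x fun t => (z - t)⁻¹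

theorem sub_mul_Rz {z : ℂ} (hz : z.im ≠ 0) (x : Coord m n) :
    (z • 1 - hermTuple x 0) * Rz z x = 1 := by
  have h1 : z • (1 : Matrix (Fin n) (Fin n) ℂ) - hermTuple x 0 = fc x fun t => z - t := by
    have h2 : fc x (fun t => z - (t : ℂ)) + fc x (fun t => (t : ℂ)) = z • fc x (fun _ => 1) := by
      rw [fc_add, fc_smul]; congr 1; ext t; ring
    rw [← fc_id x, ← fc_one x, ← h2]
    abel
  rw [h1, Rz, fc_mul, ← fc_one x]
  congr 1
  ext t
  exact mul_inv_cancel₀ (sub_ofReal_ne hz t)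

theorem Rz_mul_sub {z : ℂ} (hz : z.im ≠ 0) (x : Coord m n) :
    Rz z x * (z • 1 - hermTuple x 0) = 1 :=
  mul_eq_one_comm.1 (sub_mul_Rz hz x)

theorem MPG.Rz {z : ℂ} (hz : z.im ≠ 0) : MPG fun x : Coord m n => Rz z x := by
  intro a b
  constructor
  · have h1 : (fun x : Coord m n => MP_58f2bb_an.Rz z x a b) =
        fun x => (Matrix.det (z • 1 - MP_58f2bb_an.hermTuple x 0))⁻¹ *
          Matrix.adjugate (z • 1 - MP_58f2bb_an.hermTuple x 0) a b := by
      ext x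
      have h2 : MP_58f2bb_an.Rz z x = (z • 1 - MP_58f2bb_an.hermTuple x 0)⁻¹ :=
        (Matrix.inv_eq_left_inv (Rz_mul_sub hz x)).symm
      rw [h2, Matrix.inv_def, Matrix.smul_apply, smul_eq_mul, Ring.inverse_eq_inv']
    rw [h1]
    have h3 : Continuous fun x : Coord m n =>
        z • (1 : Matrix (Fin n) (Fin n) ℂ) - MP_58f2bb_an.hermTuple x 0 := by
      refine continuous_const.sub ?_
      exact continuous_matrix fun i j => (PG.hermTuple 0 i j).1
    refine Continuous.mul (Continuous.inv₀ h3.matrix_det fun x => ?_)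
      (h3.matrix_adjugate.matrix_elem a b)
    have h4 := congrArg Matrix.det (sub_mul_Rz hz x)
    rw [Matrix.det_mul, Matrix.det_one] at h4
    intro h5
    rw [h5, zero_mul] at h4
    exact zero_ne_one h4
  · refine ⟨|z.im|⁻¹, 0, by positivity, fun x => ?_⟩
    rw [pow_zero, mul_one]
    exact fc_entry_le x _ _ (fun t => norm_inv_le hz t) a b

theorem hasLineDeriv_Rz {z : ℂ} (hz : z.im ≠ 0) (x : Coord m n) (j k a b : Fin n) :
    HasLineDerivAt ℝ (fun x : Coord m n => Rz z x a b) ((Rz z x * mu j k * Rz z x) a b) x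
      (eb 0 j k) := by
  have hid : ∀ t : ℝ, Rz z (x + t • eb 0 j k) - Rz z x =
      (t : ℂ) • (Rz z (x + t • eb 0 j k) * mu j k * Rz z x) := by
    intro t
    have h1 := Rz_mul_sub hz (x + t • eb 0 j k)
    have h2 := sub_mul_Rz hz x
    have h3 : hermTuple (x + t • eb 0 j k) 0 = hermTuple x 0 + (t : ℂ) • mu j k := by
      rw [hermTuple_line, if_pos rfl]
    calc Rz z (x + t • eb 0 j k) - Rz z x
        = Rz z (x + t • eb 0 j k) * ((z • 1 - hermTuple x 0) * Rz z x) -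
          (Rz z (x + t • eb 0 j k) * (z • 1 - hermTuple (x + t • eb 0 j k) 0)) * Rz z x := by
          rw [h1, h2, mul_one, one_mul]
      _ = Rz z (x + t • eb 0 j k) * (hermTuple (x + t • eb 0 j k) 0 - hermTuple x 0) *
            Rz z x := by noncomm_ring
      _ = _ := by rw [h3, add_sub_cancel_left, Matrix.mul_smul, Matrix.smul_mul]
  unfold HasLineDerivAt
  rw [hasDerivAt_iff_tendsto_slope_zero]
  have hcont : Tendsto (fun t : ℝ => ((Rz z (x + t • eb 0 j k) * mu j k * Rz z x :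
      Matrix (Fin n) (Fin n) ℂ)) a b) (𝓝[≠] 0) (𝓝 ((Rz z x * mu j k * Rz z x) a b)) := by
    have h1 : MPG fun y : Coord m n => Rz z y * (mu j k * Rz z x) := (MPG.Rz hz).mul (MPG.const _)
    have h4 : Continuous fun t : ℝ => (x + t • eb 0 j k : Coord m n) := by fun_prop
    have h2 : Continuous fun t : ℝ => ((Rz z (x + t • eb 0 j k) * (mu j k * Rz z x) :
        Matrix (Fin n) (Fin n) ℂ)) a b := (h1 a b).1.comp h4
    have h3 := h2.tendsto 0
    simp only [zero_smul, add_zero, ← mul_assoc] at h3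
    exact h3.mono_left nhdsWithin_le_nhds
  refine hcont.congr' ?_
  filter_upwards [self_mem_nhdsWithin] with t ht
  have h1 := congrFun (congrFun (hid t) a) b
  rw [Matrix.sub_apply, Matrix.smul_apply, smul_eq_mul] at h1
  rw [zero_add, zero_smul, add_zero, h1, Complex.real_smul, Complex.ofReal_inv, ← mul_assoc,
    inv_mul_cancel₀ (by exact_mod_cast ht), one_mul]

/-- Stieltjes transform of the first matrix. -/
def Gz (z : ℂ) (x : Coord m n) : ℂ := (n : ℂ)⁻¹ * Matrix.trace (Rz z x)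

theorem Gz_eq (z : ℂ) (x : Coord m n) : Gz z x = (n : ℂ)⁻¹ * ∑ j, (z - eig x j)⁻¹ := by
  rw [Gz, Rz, trace_fc]

/-- `P'`. -/
def dP (z : ℂ) : ℂ := z ^ 3 - 2 * z

/-- The defect in the quadratic equation for the Stieltjes transform. -/
def Dz (z : ℂ) (x : Coord m n) : ℂ :=
  Gz z x ^ 2 - dP z * Gz z x + (z ^ 2 + z * mk x 1 + mk x 2 - 2)

theorem norm_ntrace_fc_le (hn : 1 ≤ n) (x : Coord m n) (f : ℝ → ℂ) (M : ℝ)
    (hf : ∀ t, ‖f t‖ ≤ M) : ‖(n : ℂ)⁻¹ * Matrix.trace (fc x f)‖ ≤ M := by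
  have hn0 : (0 : ℝ) < n := by exact_mod_cast hn
  rw [trace_fc, norm_mul, norm_inv, Complex.norm_natCast]
  calc (n : ℝ)⁻¹ * ‖∑ j, f (eig x j)‖ ≤ (n : ℝ)⁻¹ * ∑ j : Fin n, M := by
        gcongr
        exact (norm_sum_le _ _).trans (Finset.sum_le_sum fun j _ => hf _)
    _ = M := by simp [hn0.ne']

theorem conj_Rz {z : ℂ} (x : Coord m n) : (Rz z x).conjTranspose = Rz (conj z) x := by
  rw [Rz, fc_star]
  unfold Rz
  congr 1
  ext t
  simp

theorem conj_Gz {z : ℂ} (x : Coord m n) : conj (Gz z x) = Gz (conj z) x := by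
  rw [Gz, Gz, ← conj_Rz, Matrix.trace_conjTranspose]
  simp

theorem conj_Dz {z : ℂ} (x : Coord m n) : conj (Dz z x) = Dz (conj z) x := by
  simp only [Dz, dP, map_add, map_sub, map_mul, map_pow, conj_Gz, Complex.conj_ofReal, map_ofNat]

theorem norm_Gz_le (hn : 1 ≤ n) {z : ℂ} (hz : z.im ≠ 0) (x : Coord m n) :
    ‖Gz z x‖ ≤ |z.im|⁻¹ := norm_ntrace_fc_le hn x _ _ fun t => norm_inv_le hz t

theorem PG.Gz {z : ℂ} (hz : z.im ≠ 0) : PG fun x : Coord m n => Gz z x :=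
  (MPG.Rz hz).trace.const_mul _

theorem PG.Dz {z : ℂ} (hz : z.im ≠ 0) : PG fun x : Coord m n => Dz z x := by
  have h1 : PG fun x : Coord m n => MP_58f2bb_an.Gz z x ^ 2 - dP z * MP_58f2bb_an.Gz z x := by
    simp only [sq]
    exact ((PG.Gz hz).mul (PG.Gz hz)).sub ((PG.Gz hz).const_mul _)
  have h2 : PG fun x : Coord m n =>
      (z ^ 2 + z * MP_58f2bb_an.mk x 1 + MP_58f2bb_an.mk x 2 - 2 : ℂ) :=
    (((PG.const _).add ((PG.mk 1).const_mul z)).add (PG.mk 2)).sub (PG.const 2)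
  exact h1.add h2

theorem trace_Rz_DP (hn : 1 ≤ n) {z : ℂ} (hz : z.im ≠ 0) (x : Coord m n) :
    (n : ℂ)⁻¹ * Matrix.trace (Rz z x * DP (hermTuple x) 0) =
      dP z * Gz z x - (z ^ 2 + z * mk x 1 + mk x 2 - 2) := by
  have h1 : Rz z x * DP (hermTuple x) 0 = fc x fun t => (z - t)⁻¹ * ((t : ℂ) ^ 3 - 2 * t) := by
    have h2 : DP (hermTuple x) 0 = fc x fun t => ((t : ℂ) ^ 3 - 2 * t) := by
      rw [DP, if_pos rfl, fc_pow, ← fc_id x, sub_eq_add_neg, ← neg_smul, fc_smul, fc_add]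
      congr 1; ext t; ring
    rw [h2, Rz, fc_mul]
  have hn0 : (n : ℂ) ≠ 0 := by exact_mod_cast (by omega : n ≠ 0)
  have hone : (1 : ℂ) = (n : ℂ)⁻¹ * ∑ j : Fin n, 1 := by simp [hn0]
  rw [h1, trace_fc, Gz_eq, mk, mk]
  push_cast
  have e1 : dP z * ((n : ℂ)⁻¹ * ∑ j, (z - eig x j)⁻¹) -
      (z ^ 2 + z * ((n : ℂ)⁻¹ * ∑ j, (eig x j : ℂ) ^ 1) + (n : ℂ)⁻¹ * ∑ j, (eig x j : ℂ) ^ 2 - 2) =
      (n : ℂ)⁻¹ * (∑ j, (dP z * (z - eig x j)⁻¹ - (z * (eig x j : ℂ) ^ 1 + (eig x j : ℂ) ^ 2 +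
        (z ^ 2 - 2)))) := by
    rw [Finset.sum_sub_distrib, Finset.sum_add_distrib, Finset.sum_add_distrib, ← Finset.mul_sum,
      ← Finset.mul_sum, Finset.sum_const, Finset.card_univ, Fintype.card_fin, nsmul_eq_mul]
    field_simp
    ring
  rw [e1]
  congr 1
  refine Finset.sum_congr rfl fun j _ => ?_
  have := sub_ofReal_ne hz (eig x j)
  rw [dP]
  field_simp
  ring

/-- the derivative of the defect. -/
def Dz' (z : ℂ) (j k : Fin n) (x : Coord m n) : ℂ :=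
  (2 * Gz z x - dP z) * ((n : ℂ)⁻¹ * Matrix.trace (Rz z x * mu j k * Rz z x)) +
    z * ((n : ℂ)⁻¹ * Matrix.trace (mu j k)) +
    (n : ℂ)⁻¹ * (2 * Matrix.trace (mu j k * hermTuple x 0))

theorem hasLineDeriv_Dz {z : ℂ} (hz : z.im ≠ 0) (x : Coord m n) (j k : Fin n) :
    HasLineDerivAt ℝ (fun x : Coord m n => Dz z x) (Dz' z j k x) x (eb 0 j k) := by
  have hG : HasLineDerivAt ℝ (fun x : Coord m n => Gz z x)
      ((n : ℂ)⁻¹ * Matrix.trace (Rz z x * mu j k * Rz z x)) x (eb 0 j k) :=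
    HasDerivAt.const_mul _ (hasDerivAt_trace fun a b => hasLineDeriv_Rz hz x j k a b)
  have h1 : HasLineDerivAt ℝ (fun x : Coord m n => (mk x 1 : ℂ))
      ((n : ℂ)⁻¹ * Matrix.trace (mu j k)) x (eb 0 j k) := by
    have h2 := HasDerivAt.const_mul (n : ℂ)⁻¹ (hasLineDerivAt_trace_wv x 0 j k [0])
    have h3 : dw (hermTuple x) 0 (mu j k) [0] = mu j k := by simp [dw_cons]
    rw [h3] at h2
    have h4 : (fun x : Coord m n => (mk x 1 : ℂ)) =
        fun x => (n : ℂ)⁻¹ * Matrix.trace (wv (hermTuple x) [0]) := by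
      ext x; rw [← tpe_X, ← tpe_replicate]; rfl
    rw [h4]
    exact h2
  have h2 : HasLineDerivAt ℝ (fun x : Coord m n => (mk x 2 : ℂ))
      ((n : ℂ)⁻¹ * (2 * Matrix.trace (mu j k * hermTuple x 0))) x (eb 0 j k) := by
    have h2 := HasDerivAt.const_mul (n : ℂ)⁻¹ (hasLineDerivAt_trace_wv x 0 j k [0, 0])
    have h3 : Matrix.trace (dw (hermTuple x) 0 (mu j k) [0, 0]) =
        2 * Matrix.trace (mu j k * hermTuple x 0) := by
      simp only [dw_cons, dw_nil, wv_cons, wv_nil, mul_one, mul_zero, add_zero, if_true,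
        Matrix.trace_add]
      rw [Matrix.trace_mul_comm (hermTuple x 0) (mu j k)]; ring
    rw [h3] at h2
    have h4 : (fun x : Coord m n => (mk x 2 : ℂ)) =
        fun x => (n : ℂ)⁻¹ * Matrix.trace (wv (hermTuple x) [0, 0]) := by
      ext x; rw [← tpe_X, ← tpe_replicate]; rfl
    rw [h4]
    exact h2
  unfold Dz
  have h3 := HasDerivAt.add (HasDerivAt.sub (HasDerivAt.mul hG hG) (HasDerivAt.const_mul (dP z) hG))
    (HasDerivAt.sub_const (2 : ℂ)
      (HasDerivAt.add (HasDerivAt.const_add (z ^ 2) (HasDerivAt.const_mul z h1)) h2))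
  simp only [zero_smul, add_zero] at h3
  unfold HasLineDerivAt
  convert h3 using 1
  · ext t
    simp only [sq, Pi.mul_apply, Pi.add_apply, Pi.sub_apply]
  · unfold Dz'; ring

theorem PG.Dz' {z : ℂ} (hz : z.im ≠ 0) (j k : Fin n) :
    PG fun x : Coord m n => MP_58f2bb_an.Dz' z j k x := by
  unfold MP_58f2bb_an.Dz'
  refine PG.add (PG.add (PG.mul ?_ ?_) (PG.const _)) ?_
  · exact ((PG.Gz hz).const_mul 2).sub (PG.const _)
  · exact (((MPG.Rz hz).mul (MPG.const _)).mul (MPG.Rz hz)).trace.const_mul _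
  · exact ((((MPG.const _).mul (MPG.hermTuple 0)).trace).const_mul 2).const_mul _

/-- the gradient term. -/
theorem grad_Dz {z w : ℂ} (x : Coord m n) :
    ∑ j, ∑ k, Matrix.trace (mu j k * Rz z x) * Dz' w j k x =
      (2 * Gz w x - dP w) * ((n : ℂ)⁻¹ * Matrix.trace (Rz z x * (Rz w x * Rz w x))) +
        w * Gz z x + (n : ℂ)⁻¹ * (2 * Matrix.trace (Rz z x * hermTuple x 0)) := by
  have h1 : ∀ j k, Matrix.trace (mu j k * Rz z x) * Dz' w j k x =
      (2 * Gz w x - dP w) * (n : ℂ)⁻¹ *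
        (Matrix.trace (mu j k * Rz z x) * Matrix.trace (mu j k * (Rz w x * Rz w x))) +
      w * (n : ℂ)⁻¹ * (Matrix.trace (mu j k * Rz z x) * Matrix.trace (mu j k * 1)) +
      (n : ℂ)⁻¹ * 2 * (Matrix.trace (mu j k * Rz z x) *
        Matrix.trace (mu j k * hermTuple x 0)) := by
    intro j k
    have h2 : Matrix.trace (Rz w x * mu j k * Rz w x) =
        Matrix.trace (mu j k * (Rz w x * Rz w x)) := by
      rw [mul_assoc, Matrix.trace_mul_comm, mul_assoc]
    rw [Dz', h2, mul_one]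
    ring
  simp only [h1, Finset.sum_add_distrib, ← Finset.mul_sum, sum_trace_mu]
  simp only [mul_one, Gz]
  ring

/-- `L²` smallness of the resolvent defect. -/
theorem Dz_L2 {z : ℂ} (hz : z.im ≠ 0) : ∃ C : ℝ, ∀ n : ℕ, 1 ≤ n →
    ∫ x, ‖Dz z x‖ ^ 2 ∂(law (crit m) n) ≤ C / n ^ 2 := by
  set η := |z.im| with hη
  have hη0 : 0 < η := abs_pos.2 hz
  have hz' : (conj z).im ≠ 0 := by simpa using hz
  refine ⟨(2 * η⁻¹ + ‖dP (conj z)‖) * (η⁻¹ * (η⁻¹ * η⁻¹)) + ‖z‖ * η⁻¹ + 2 * (‖z‖ * η⁻¹ + 1),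
    fun n hn => ?_⟩
  have hprob := isProbability_law (m := m) hn
  have hn0 : (n : ℂ) ≠ 0 := by exact_mod_cast (by omega : n ≠ 0)
  have hn1 : (0 : ℝ) < n := by exact_mod_cast hn
  have key := loop_matrix hn (0 : Fin m) (p := fun x => Rz z x)
    (p' := fun j k x => Rz z x * mu j k * Rz z x) (F := fun x => Dz (conj z) x)
    (F' := fun j k x => Dz' (conj z) j k x) (MPG.Rz hz)
    (fun j k => ((MPG.Rz hz).mul (MPG.const _)).mul (MPG.Rz hz)) (PG.Dz hz')
    (fun j k => PG.Dz' hz' j k) (fun x j k a b => hasLineDeriv_Rz hz x j k a b)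
    (fun x j k => hasLineDeriv_Dz hz' x j k)
  -- simplify
  have e1 : ∀ x : Coord m n, (∑ j, ∑ k, Matrix.trace (mu j k * (Rz z x * mu j k * Rz z x))) =
      (n : ℂ) ^ 2 * Gz z x ^ 2 := by
    intro x
    have : ∀ j k : Fin n, mu j k * (Rz z x * mu j k * Rz z x) =
        mu j k * Rz z x * mu j k * Rz z x := fun j k => by simp only [mul_assoc]
    simp only [this, sum_trace_mu₂, Gz]
    field_simp
  have e2 : ∀ x : Coord m n, Matrix.trace (Rz z x * DP (hermTuple x) 0) =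
      (n : ℂ) * (dP z * Gz z x - (z ^ 2 + z * mk x 1 + mk x 2 - 2)) := by
    intro x
    rw [← trace_Rz_DP hn hz x, ← mul_assoc, mul_inv_cancel₀ hn0, one_mul]
  simp only [e1, e2, grad_Dz] at key
  set gr : Coord m n → ℂ := fun x => (2 * Gz (conj z) x - dP (conj z)) *
    ((n : ℂ)⁻¹ * Matrix.trace (Rz z x * (Rz (conj z) x * Rz (conj z) x))) +
        conj z * Gz z x + (n : ℂ)⁻¹ * (2 * Matrix.trace (Rz z x * hermTuple x 0)) with hgr
  have pG := PG.Gz (m := m) (n := n) hz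
  have pD := PG.Dz (m := m) (n := n) hz'
  have p1 : PG fun x : Coord m n => (n : ℂ) ^ 2 * Gz z x ^ 2 * Dz (conj z) x := by
    simp only [sq (Gz z _)]
    exact ((pG.mul pG).const_mul _).mul pD
  have p2 : PG fun x : Coord m n => (n : ℂ) * (dP z * Gz z x -
      (z ^ 2 + z * mk x 1 + mk x 2 - 2)) * Dz (conj z) x :=
    (((pG.const_mul _).sub ((((PG.const _).add ((PG.mk 1).const_mul z)).add (PG.mk 2)).sub
      (PG.const 2))).const_mul _).mul pD
  have e3 : Ex m n (fun x => Dz z x * Dz (conj z) x) = -((n : ℂ)⁻¹ ^ 2 * Ex m n gr) := by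
    have e4 : ∀ x : Coord m n, Dz z x * Dz (conj z) x =
        (n : ℂ)⁻¹ ^ 2 * ((n : ℂ) ^ 2 * Gz z x ^ 2 * Dz (conj z) x) -
        (n : ℂ)⁻¹ * ((n : ℂ) * (dP z * Gz z x - (z ^ 2 + z * mk x 1 + mk x 2 - 2)) *
          Dz (conj z) x) := by
      intro x
      rw [show Dz z x = Gz z x ^ 2 - dP z * Gz z x + (z ^ 2 + z * mk x 1 + mk x 2 - 2) from rfl]
      field_simp
      ring
    simp only [e4]
    rw [Ex_sub hn (p1.const_mul _) (p2.const_mul _), Ex_const_mul, Ex_const_mul]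
    have e5 : Ex m n (fun x => (n : ℂ) * (dP z * Gz z x - (z ^ 2 + z * mk x 1 + mk x 2 - 2)) *
          Dz (conj z) x) = (n : ℂ)⁻¹ * (Ex m n (fun x => (n : ℂ) ^ 2 * Gz z x ^ 2 *
            Dz (conj z) x) + Ex m n gr) := by
      rw [hgr, key, ← mul_assoc, inv_mul_cancel₀ hn0, one_mul]
    rw [e5]
    ring
  have hgr_bd : ∀ x, ‖gr x‖ ≤ (2 * η⁻¹ + ‖dP (conj z)‖) * (η⁻¹ * (η⁻¹ * η⁻¹)) + ‖z‖ * η⁻¹ +
      2 * (‖z‖ * η⁻¹ + 1) := by
    intro x
    have hη' : |(conj z).im| = η := by simp [hη]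
    have b1 : ‖Gz z x‖ ≤ η⁻¹ := norm_Gz_le hn hz x
    have b2 : ‖Gz (conj z) x‖ ≤ η⁻¹ := by rw [← hη']; exact norm_Gz_le hn hz' x
    have b3 : ‖(n : ℂ)⁻¹ * Matrix.trace (Rz z x * (Rz (conj z) x * Rz (conj z) x))‖ ≤
        η⁻¹ * (η⁻¹ * η⁻¹) := by
      have : Rz z x * (Rz (conj z) x * Rz (conj z) x) =
          fc x fun t => (z - t)⁻¹ * ((conj z - t)⁻¹ * (conj z - t)⁻¹) := by
        unfold Rz; rw [fc_mul, fc_mul]
      rw [this]
      apply norm_ntrace_fc_le hn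
      intro t
      rw [norm_mul, norm_mul]
      have c1 := norm_inv_le hz t
      have c2 := norm_inv_le hz' t
      rw [hη'] at c2
      gcongr
    have b4 : ‖(n : ℂ)⁻¹ * (2 * Matrix.trace (Rz z x * hermTuple x 0))‖ ≤
        2 * (‖z‖ * η⁻¹ + 1) := by
      have : Rz z x * hermTuple x 0 = fc x fun t => z * (z - t)⁻¹ - 1 := by
        unfold Rz
        conv_lhs => rw [← fc_id x]
        rw [fc_mul]
        congr 1
        ext t
        have := sub_ofReal_ne hz t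
        field_simp
        ring
      rw [this, ← mul_assoc, mul_comm ((n : ℂ)⁻¹) 2, mul_assoc, norm_mul]
      have b5 := norm_ntrace_fc_le hn x (fun t => z * (z - t)⁻¹ - 1) (‖z‖ * η⁻¹ + 1) (by
        intro t
        refine (norm_sub_le _ _).trans ?_
        rw [norm_mul, norm_one]
        have c1 := norm_inv_le hz t
        gcongr)
      have : ‖(2 : ℂ)‖ = 2 := by simp
      rw [this]
      gcongr
    rw [hgr]
    simp only
    refine (norm_add_le _ _).trans (add_le_add ((norm_add_le _ _).trans (add_le_add ?_ ?_)) b4)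
    · rw [norm_mul]
      have : ‖2 * Gz (conj z) x - dP (conj z)‖ ≤ 2 * η⁻¹ + ‖dP (conj z)‖ := by
        refine (norm_sub_le _ _).trans ?_
        rw [norm_mul]
        have : ‖(2 : ℂ)‖ = 2 := by simp
        rw [this]
        gcongr
      gcongr
    · rw [norm_mul, RCLike.norm_conj]
      gcongr
  have e6 : ((∫ x, ‖Dz z x‖ ^ 2 ∂(law (crit m) n) : ℝ) : ℂ) =
      Ex m n (fun x => Dz z x * Dz (conj z) x) := by
    unfold Ex
    rw [← integral_complex_ofReal]
    congr 1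
    ext x
    simp only
    rw [← conj_Dz, Complex.mul_conj']
    push_cast
    rfl
  rw [e3] at e6
  have e7 := congrArg norm e6
  rw [Complex.norm_real, Real.norm_eq_abs, norm_neg, norm_mul, norm_pow, norm_inv,
    Complex.norm_natCast] at e7
  have e8 : ‖Ex m n gr‖ ≤ (2 * η⁻¹ + ‖dP (conj z)‖) * (η⁻¹ * (η⁻¹ * η⁻¹)) + ‖z‖ * η⁻¹ +
      2 * (‖z‖ * η⁻¹ + 1) := by
    unfold Ex
    have := norm_integral_le_of_norm_le_const (μ := law (crit m) n)
      (Filter.Eventually.of_forall hgr_bd)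
    simpa using this
  calc _ ≤ |∫ x, ‖Dz z x‖ ^ 2 ∂(law (crit m) n)| := le_abs_self _
    _ = (n : ℝ)⁻¹ ^ 2 * ‖Ex m n gr‖ := e7
    _ ≤ (n : ℝ)⁻¹ ^ 2 * _ := mul_le_mul_of_nonneg_left e8 (by positivity)
    _ = _ := by rw [inv_pow, inv_mul_eq_div]

end Pool.Agent.Lib.MP_58f2bb_an
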