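import Pool.Agent.Lib.MP_58f2bb_an.Closable
import Pool.Agent.Lib.MP_58f2bb_an.Gns
import Pool.Agent.Lib.MP_58f2bb_an.Model
import Pool.Agent.Lib.MP_58f2bb_an.NonCompact

/-!
# Test polynomials with bounded energy
-/

noncomputable section

set_option linter.unusedSectionVars false
set_option linter.unusedVariables false
set_option linter.unusedSimpArgs false

open scoped TensorProduct InnerProductSpace ComplexConjugate Topology ENNReal LinearPMap
open MeasureTheory Filter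

namespace Pool.Agent.Lib.MP_58f2bb_an

variable {m : ℕ} [NeZero m]

/-- Chebyshev polynomials of the first variable. -/
def Uc (m : ℕ) [NeZero m] (k : ℕ) : NCPoly m := Polynomial.aeval (X 0) (cu k)

theorem Uc_zero : Uc m 0 = 1 := by simp [Uc, cu]

theorem Uc_one : Uc m 1 = X 0 := by simp [Uc, cu]

theorem Uc_succ_succ (k : ℕ) : Uc m (k + 2) = X 0 * Uc m (k + 1) - Uc m k := by
  simp [Uc, cu]

theorem Uc_comm (k : ℕ) : Uc m k * X 0 = X 0 * Uc m k := by
  unfold Uc
  have := congrArg (Polynomial.aeval (X (0 : Fin m))) (mul_comm (cu k) Polynomial.X)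
  simpa only [map_mul, Polynomial.aeval_X] using this

theorem adj_Uc (k : ℕ) : adj (Uc m k) = Uc m k ∧ adj (Uc m (k + 1)) = Uc m (k + 1) := by
  induction k with
  | zero => exact ⟨by rw [Uc_zero, adj_one], by rw [zero_add, Uc_one, adj_X]⟩
  | succ k ih =>
    refine ⟨ih.2, ?_⟩
    rw [Uc_succ_succ, adj_sub, adj_mul, ih.1, ih.2, adj_X, Uc_comm]

theorem tau_aeval (q : Polynomial ℂ) :
    tau (Polynomial.aeval (X (0 : Fin m)) q) = bl (ee 1) (Polynomial.aeval Xj q (ee 1)) := by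
  induction q using Polynomial.induction_on' with
  | add p q hp hq => simp only [map_add, LinearMap.add_apply, hp, hq]
  | monomial n c =>
    rw [Polynomial.aeval_monomial, Polynomial.aeval_monomial, ← Algebra.smul_def, map_smul,
      tau_X_pow_zero, Module.End.mul_apply, Module.algebraMap_end_apply, map_smul, bl_ee]
    rfl

theorem tau_Uc (j k : ℕ) : tau (Uc m j * Uc m k) = bl (Xj (ee j)) (Xj (ee k)) := by
  rw [Uc, Uc, ← map_mul, tau_aeval, map_mul, Module.End.mul_apply, ← bl_aeval, cu_ee1, cu_ee1]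

section Transfer

variable {E : Type*} [NormedAddCommGroup E] [InnerProductSpace ℂ E] {e : ℕ → E}

theorem inner_jv (he : Orthonormal ℂ e) (j k : ℕ) :
    ⟪jv e j, jv e k⟫_ℂ = bl (Xj (ee j)) (Xj (ee k)) := by
  have h1 : ∀ (j : ℕ) (v : ℕ →₀ ℂ), ⟪e j, Finsupp.linearCombination ℂ e v⟫_ℂ = bl (ee j) v := by
    intro j v
    rw [he.inner_right_finsupp, bl_ee]
  have h2 : ∀ k, jv e k = Finsupp.linearCombination ℂ e (Xj (ee k)) := by
    intro k
    rw [Xj_ee, map_add, jv]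
    have h3 : ∀ l, Finsupp.linearCombination ℂ e (ee l) = e l := by
      intro l; rw [ee, Finsupp.linearCombination_single, one_smul]
    rcases k with _ | k
    · simp [em, h3]
    · simp [em, h3]
  have h4 : ∀ (j : ℕ) (v : ℕ →₀ ℂ), ⟪em e (j + 2), Finsupp.linearCombination ℂ e v⟫_ℂ =
      bl (ee (j + 1)) v := fun j v => h1 (j + 1) v
  have h5 : ∀ (j : ℕ) (v : ℕ →₀ ℂ), ⟪em e j, Finsupp.linearCombination ℂ e v⟫_ℂ =
      bl (if j = 0 then 0 else ee (j - 1)) v := by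
    intro j v
    rcases j with _ | j
    · simp [em]
    · simpa [em] using h1 j v
  rw [h2 k, jv, inner_add_left, h4, h5, Xj_ee j, map_add bl, LinearMap.add_apply]

variable {H : Type*} [NormedAddCommGroup H] [InnerProductSpace ℂ H] [CompleteSpace H]
variable {a : Fin m → H →L[ℂ] H} {Ω : H}

theorem Good.gram (h : Good a Ω) (he : Orthonormal ℂ e) (j k : ℕ) :
    ⟪cls a Ω (Uc m j), cls a Ω (Uc m k)⟫_ℂ = ⟪jv e j, jv e k⟫_ℂ := by
  rw [h.inner_cls, (adj_Uc j).1, tau_Uc, inner_jv he]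

/-- formal combinations to polynomials. -/
def al (m : ℕ) [NeZero m] : (ℕ →₀ ℂ) →ₗ[ℂ] NCPoly m := Finsupp.linearCombination ℂ (Uc m)

/-- formal combinations to the model. -/
def be (e : ℕ → E) : (ℕ →₀ ℂ) →ₗ[ℂ] E := Finsupp.linearCombination ℂ (jv e)

theorem al_ee (k : ℕ) : al m (ee k) = Uc m k := by
  rw [al, ee, Finsupp.linearCombination_single, one_smul]

omit [NormedAddCommGroup H] [InnerProductSpace ℂ H] [CompleteSpace H] in
theorem be_ee (k : ℕ) : be e (ee k) = jv e k := by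
  rw [be, ee, Finsupp.linearCombination_single, one_smul]

theorem ee_induction {motive : (ℕ →₀ ℂ) → Prop} (p : ℕ →₀ ℂ) (zero : motive 0)
    (add : ∀ p q, motive p → motive q → motive (p + q))
    (smul : ∀ (c : ℂ) k, motive (c • ee k)) : motive p := by
  induction p using Finsupp.induction_linear with
  | zero => exact zero
  | add p q hp hq => exact add p q hp hq
  | single k c =>
    have : Finsupp.single k c = c • ee k := by simp [ee]
    rw [this]; exact smul c k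

theorem Good.transfer (h : Good a Ω) (he : Orthonormal ℂ e) (s t : ℕ →₀ ℂ) :
    ⟪cls a Ω (al m s), cls a Ω (al m t)⟫_ℂ = ⟪be e s, be e t⟫_ℂ := by
  induction s using ee_induction with
  | zero => simp
  | add s s' hs hs' => simp only [map_add, inner_add_left, hs, hs']
  | smul c j =>
    induction t using ee_induction with
    | zero => simp
    | add s s' hs hs' => simp only [map_add, inner_add_right, hs, hs']
    | smul b k =>
      simp only [map_smul, inner_smul_left, inner_smul_right, al_ee, be_ee, h.gram he]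

theorem Good.transfer₂ (h : Good a Ω) (he : Orthonormal ℂ e) (s t : (ℕ →₀ ℂ) ⊗[ℂ] (ℕ →₀ ℂ)) :
    ⟪cls₂ a Ω (TensorProduct.map (al m) (al m) s), cls₂ a Ω (TensorProduct.map (al m) (al m) t)⟫_ℂ =
      ⟪TensorProduct.map (be e) (be e) s, TensorProduct.map (be e) (be e) t⟫_ℂ := by
  induction s using TensorProduct.induction_on with
  | zero => simp
  | add s s' hs hs' => simp only [map_add, inner_add_left, hs, hs']
  | tmul p q =>
    induction t using TensorProduct.induction_on with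
    | zero => simp
    | add s s' hs hs' => simp only [map_add, inner_add_right, hs, hs']
    | tmul u v =>
      simp only [TensorProduct.map_tmul]
      rw [h.inner_cls₂, TensorProduct.inner_tmul, ← h.inner_cls, ← h.inner_cls,
        h.transfer he, h.transfer he]

theorem Good.norm_transfer₂ (h : Good a Ω) (he : Orthonormal ℂ e)
    (s : (ℕ →₀ ℂ) ⊗[ℂ] (ℕ →₀ ℂ)) :
    ‖cls₂ a Ω (TensorProduct.map (al m) (al m) s)‖ ^ 2 =
      ‖TensorProduct.map (be e) (be e) s‖ ^ 2 := by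
  rw [← inner_self_eq_norm_sq (𝕜 := ℂ), ← inner_self_eq_norm_sq (𝕜 := ℂ), h.transfer₂ he]

end Transfer

/-! ### Free difference quotients of Chebyshev polynomials -/

/-- formal free difference quotients. -/
def Dt (k : ℕ) : (ℕ →₀ ℂ) ⊗[ℂ] (ℕ →₀ ℂ) :=
  ∑ p ∈ Finset.HasAntidiagonal.antidiagonal k, ee p.1 ⊗ₜ[ℂ] ee p.2

/-- shifted Chebyshev polynomials. -/
def Um (m : ℕ) [NeZero m] : ℕ → NCPoly m
  | 0 => 0
  | k + 1 => Uc m k

theorem X_mul_Uc (k : ℕ) : X 0 * Uc m k = Uc m (k + 1) + Um m k := by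
  rcases k with _ | k
  · simp [Um, Uc_zero, Uc_one]
  · rw [Um, Uc_succ_succ]; abel

theorem fdq_Uc (k : ℕ) :
    fdq 0 (Uc m k) = ∑ p ∈ Finset.HasAntidiagonal.antidiagonal k, Um m p.1 ⊗ₜ[ℂ] Uc m p.2 ∧
    fdq 0 (Uc m (k + 1)) = ∑ p ∈ Finset.HasAntidiagonal.antidiagonal (k + 1),
      Um m p.1 ⊗ₜ[ℂ] Uc m p.2 := by
  induction k with
  | zero =>
    constructor
    · rw [Uc_zero, fdq_one]; simp [Um]
    · rw [zero_add, Uc_one, fdq_X, if_pos rfl, Finset.Nat.sum_antidiagonal_succ]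
      simp [Um, Uc_zero]
  | succ k ih =>
    refine ⟨ih.2, ?_⟩
    rw [Uc_succ_succ, map_sub, fdq_mul, fdq_X, if_pos rfl, ih.1]
    have h1 : fdq 0 (Uc m (k + 1)) = ∑ p ∈ Finset.HasAntidiagonal.antidiagonal k,
        Uc m p.1 ⊗ₜ[ℂ] Uc m p.2 := by
      rw [ih.2, Finset.Nat.sum_antidiagonal_succ]
      simp [Um]
    rw [h1, Finset.Nat.sum_antidiagonal_succ, Finset.Nat.sum_antidiagonal_succ, Finset.mul_sum]
    have h2 : ∀ p : ℕ × ℕ, (X (0 : Fin m) ⊗ₜ[ℂ] (1 : NCPoly m)) * (Uc m p.1 ⊗ₜ[ℂ] Uc m p.2) =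
        Uc m (p.1 + 1) ⊗ₜ[ℂ] Uc m p.2 + Um m p.1 ⊗ₜ[ℂ] Uc m p.2 := by
      intro p
      rw [Algebra.TensorProduct.tmul_mul_tmul, one_mul, X_mul_Uc, TensorProduct.add_tmul]
    simp only [h2, Finset.sum_add_distrib]
    simp only [Um, TensorProduct.zero_tmul, zero_add, Algebra.TensorProduct.tmul_mul_tmul,
      one_mul, Uc_zero]
    abel

theorem fdq_Uc_succ (k : ℕ) :
    fdq 0 (Uc m (k + 1)) = TensorProduct.map (al m) (al m) (Dt k) := by
  rw [(fdq_Uc k).2, Finset.Nat.sum_antidiagonal_succ, Dt, map_sum]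
  simp only [Um, TensorProduct.zero_tmul, zero_add, TensorProduct.map_tmul, al_ee]

theorem fdq_Uc_ne {i : Fin m} (hi : i ≠ 0) (k : ℕ) :
    fdq i (Uc m k) = 0 ∧ fdq i (Uc m (k + 1)) = 0 := by
  induction k with
  | zero => exact ⟨by rw [Uc_zero, fdq_one], by rw [zero_add, Uc_one, fdq_X, if_neg hi.symm]⟩
  | succ k ih =>
    refine ⟨ih.2, ?_⟩
    rw [Uc_succ_succ, map_sub, fdq_mul, fdq_X, if_neg hi.symm, ih.1, ih.2]
    simp

/-! ### The test polynomials -/

/-- signed sums. -/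
def SS (n : ℕ) : ℕ →₀ ℂ := ∑ j ∈ Finset.range n, (-1 : ℂ) ^ j • ee (2 * j + 1)

/-- formal free difference quotients of signed sums. -/
def DS (n : ℕ) : (ℕ →₀ ℂ) ⊗[ℂ] (ℕ →₀ ℂ) := ∑ j ∈ Finset.range n, (-1 : ℂ) ^ j • Dt (2 * j)

/-- test vector. -/
def FF (N : ℕ) : ℕ →₀ ℂ := ∑ k ∈ Finset.range N, (SS (2 * N + k + 1) - SS (N + k + 1))

/-- its formal free difference quotient. -/
def DF (N : ℕ) : (ℕ →₀ ℂ) ⊗[ℂ] (ℕ →₀ ℂ) :=
  ∑ k ∈ Finset.range N, (DS (2 * N + k + 1) - DS (N + k + 1))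

theorem fdq_SS (n : ℕ) : fdq 0 (al m (SS n)) = TensorProduct.map (al m) (al m) (DS n) := by
  rw [SS, DS, map_sum, map_sum, map_sum]
  refine Finset.sum_congr rfl fun j _ => ?_
  rw [map_smul, map_smul, map_smul, al_ee, fdq_Uc_succ]

theorem fdq_FF (N : ℕ) : fdq 0 (al m (FF N)) = TensorProduct.map (al m) (al m) (DF N) := by
  rw [FF, DF, map_sum, map_sum, map_sum]
  refine Finset.sum_congr rfl fun j _ => ?_
  rw [map_sub, map_sub, map_sub, fdq_SS, fdq_SS]

theorem fdq_al_ne {i : Fin m} (hi : i ≠ 0) (s : ℕ →₀ ℂ) : fdq i (al m s) = 0 := by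
  induction s using ee_induction with
  | zero => simp
  | add s s' hs hs' => rw [map_add, map_add, hs, hs', add_zero]
  | smul c k => rw [map_smul, map_smul, al_ee, (fdq_Uc_ne hi k).1, smul_zero]

section Transfer2

variable {E : Type*} [NormedAddCommGroup E] [InnerProductSpace ℂ E] {e : ℕ → E}

theorem be_SS (n : ℕ) : be e (SS n) = gg e 0 - gg e n := by
  rw [SS, map_sum]
  simp only [map_smul, be_ee, signed_jv]
  rw [Finset.sum_range_sub']

theorem be_FF (N : ℕ) : be e (FF N) = fv e N := by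
  rw [FF, map_sum, fv]
  refine Finset.sum_congr rfl fun j _ => ?_
  rw [map_sub, be_SS, be_SS]
  abel

theorem be_DS (n : ℕ) : TensorProduct.map (be e) (be e) (DS n) = ww e n - ww e 0 := by
  rw [DS, map_sum]
  have h1 : ∀ j, TensorProduct.map (be e) (be e) ((-1 : ℂ) ^ j • Dt (2 * j)) =
      ww e (j + 1) - ww e j := by
    intro j
    rw [map_smul, Dt, map_sum, ← signed_sum_jv]
    simp only [TensorProduct.map_tmul, be_ee]
  simp only [h1]
  rw [Finset.sum_range_sub]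

theorem be_DF (N : ℕ) : TensorProduct.map (be e) (be e) (DF N) =
    ∑ k ∈ Finset.range N, (ww e (2 * N + k + 1) - ww e (N + k + 1)) := by
  rw [DF, map_sum]
  refine Finset.sum_congr rfl fun j _ => ?_
  rw [map_sub, be_DS, be_DS]
  abel

end Transfer2

/-! ### Noncompactness -/

variable {H : Type*} [NormedAddCommGroup H] [InnerProductSpace ℂ H] [CompleteSpace H]
variable {a : Fin m → H →L[ℂ] H} {Ω : H}

/-- an orthonormal sequence. -/
theorem exists_orthonormal : ∃ e : ℕ → lp (fun _ : ℕ => ℂ) 2, Orthonormal ℂ e :=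
  ⟨_, (default : HilbertBasis ℕ ℂ (lp (fun _ : ℕ => ℂ) 2)).orthonormal⟩

theorem Good.inner_FF (h : Good a Ω) {N M : ℕ} (hNM : 3 * N ≤ M) :
    ⟪cls a Ω (al m (FF N)), cls a Ω (al m (FF M))⟫_ℂ = 0 := by
  obtain ⟨e, he⟩ := exists_orthonormal
  rw [h.transfer he, be_FF, be_FF, inner_fv he hNM]

theorem Good.norm_FF (h : Good a Ω) (N : ℕ) : ‖cls a Ω (al m (FF N))‖ ^ 2 = 2 * N := by
  obtain ⟨e, he⟩ := exists_orthonormal
  rw [← inner_self_eq_norm_sq (𝕜 := ℂ), h.transfer he, be_FF, inner_self_eq_norm_sq, norm_fv he]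

theorem Good.energy_FF (h : Good a Ω) {N : ℕ} (hN : 1 ≤ N) :
    (⟪cls a Ω (al m (FF N)), cls a Ω (Lp (al m (FF N)))⟫_ℂ).re ≤ 225 * N := by
  obtain ⟨e, he⟩ := exists_orthonormal
  rw [h.energy, Finset.sum_eq_single (0 : Fin m)]
  · rw [Complex.ofReal_re, fdq_FF, h.norm_transfer₂ he, be_DF]
    exact norm_sum_ww_le he hN
  · intro i _ hi
    rw [fdq_al_ne hi]
    simp
  · intro h0; exact absurd (Finset.mem_univ _) h0

/-- normalisation. -/
def nrm (N : ℕ) : ℝ := (√(2 * N : ℝ))⁻¹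

theorem nrm_sq {N : ℕ} (hN : 1 ≤ N) : nrm N ^ 2 * (2 * N) = 1 := by
  have hN' : (1 : ℝ) ≤ N := by exact_mod_cast hN
  rw [nrm, inv_pow, Real.sq_sqrt (by positivity)]
  field_simp

theorem not_compact (h : Good a Ω) {Δ : H →ₗ.[ℂ] H} (hΔ : IsFreeLaplacian a Ω Δ)
    {S : ℝ → H →L[ℂ] H} (hS : IsHeatSemigroup Δ S) {s : ℝ} (hs : 0 < s) :
    ¬ IsCompactOperator (S s) := by
  set f : ℕ → H := fun k => (nrm (3 ^ k) : ℂ) • cls a Ω (al m (FF (3 ^ k))) with hf
  set g : ℕ → H := fun k => (nrm (3 ^ k) : ℂ) • cls a Ω (Lp (al m (FF (3 ^ k)))) with hg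
  have hpos : ∀ k, 1 ≤ 3 ^ k := fun k => Nat.one_le_pow _ _ (by norm_num)
  have hnorm : ∀ k, ‖f k‖ = 1 := by
    intro k
    have h1 : ‖f k‖ ^ 2 = 1 := by
      rw [hf]
      simp only
      rw [norm_smul, mul_pow, h.norm_FF, Complex.norm_real, Real.norm_eq_abs, sq_abs]
      exact nrm_sq (hpos k)
    nlinarith [norm_nonneg (f k)]
  have horth : Orthonormal ℂ f := by
    refine ⟨hnorm, ?_⟩
    have h1 : ∀ j k, j < k → ⟪f j, f k⟫_ℂ = 0 := by
      intro j k hjk
      simp only [hf]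
      rw [inner_smul_left, inner_smul_right, h.inner_FF, mul_zero, mul_zero]
      calc 3 * 3 ^ j = 3 ^ (j + 1) := by ring
        _ ≤ 3 ^ k := Nat.pow_le_pow_right (by norm_num) hjk
    intro j k hjk
    rcases lt_or_gt_of_ne hjk with h2 | h2
    · exact h1 j k h2
    · change ⟪f j, f k⟫_ℂ = 0
      rw [← inner_conj_symm, h1 k j h2, map_zero]
  refine not_compact_of_seq hS f g (fun k => ?_) hnorm (225 / 2) (fun k => ?_) (fun z => ?_) hs
  · exact Δ.graph.smul_mem _ (hΔ.mem_graph h _)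
  · simp only [hf, hg]
    rw [inner_smul_left, inner_smul_right, Complex.conj_ofReal, ← mul_assoc,
      ← Complex.ofReal_mul, Complex.re_ofReal_mul]
    have h1 := h.energy_FF (hpos k)
    have h2 := nrm_sq (hpos k)
    have h3 : (0 : ℝ) ≤ nrm (3 ^ k) * nrm (3 ^ k) := mul_self_nonneg _
    calc _ ≤ nrm (3 ^ k) * nrm (3 ^ k) * (225 * ((3 ^ k : ℕ) : ℝ)) := by gcongr
      _ = 225 / 2 * (nrm (3 ^ k) ^ 2 * (2 * ((3 ^ k : ℕ) : ℝ))) := by ring
      _ = 225 / 2 := by rw [h2, mul_one]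
      _ ≤ _ := le_rfl
  · have h1 := horth.inner_products_summable (x := z)
    have h2 : Tendsto (fun k => ‖⟪f k, z⟫_ℂ‖ ^ 2) atTop (𝓝 0) := h1.tendsto_atTop_zero
    have h3 : Tendsto (fun k => ‖⟪f k, z⟫_ℂ‖) atTop (𝓝 0) := by
      have := (Real.continuous_sqrt.tendsto 0).comp h2
      simpa [Function.comp_def] using this
    rw [tendsto_zero_iff_norm_tendsto_zero]
    refine h3.congr fun k => ?_
    rw [← inner_conj_symm, RCLike.norm_conj]

end Pool.Agent.Lib.MP_58f2bb_an
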