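import Pool.Agent.Lib.MP_58f2bb_an.Defs

/-!
# Words, Hermitian coordinates, derivative of words
-/

noncomputable section

set_option linter.unusedSectionVars false

open scoped TensorProduct InnerProductSpace ComplexConjugate Topology ENNReal
open MeasureTheory Filter

namespace Pool.Agent.Lib.MP_58f2bb_an

variable {m n : ℕ}

/-- value of a word. -/
def wv {A : Type*} [Monoid A] (a : Fin m → A) (w : List (Fin m)) : A := (w.map a).prod

@[simp] theorem wv_nil {A : Type*} [Monoid A] (a : Fin m → A) : wv a [] = 1 := rfl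

@[simp] theorem wv_cons {A : Type*} [Monoid A] (a : Fin m → A) (j : Fin m) (w : List (Fin m)) :
    wv a (j :: w) = a j * wv a w := by simp [wv]

@[simp] theorem wv_append {A : Type*} [Monoid A] (a : Fin m → A) (u w : List (Fin m)) :
    wv a (u ++ w) = wv a u * wv a w := by simp [wv]

theorem ev_mono {A : Type*} [Ring A] [Algebra ℂ A] (a : Fin m → A) (w : FreeMonoid (Fin m)) :
    ev a (mono w) = wv a w.toList := by
  rw [ev, mono, MonoidAlgebra.lift_single, one_smul, wv, FreeMonoid.lift_apply]

theorem ev_X {A : Type*} [Ring A] [Algebra ℂ A] (a : Fin m → A) (i : Fin m) :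
    ev a (X i) = a i := by
  rw [X, ev_mono]; simp

/-! ### Hermitian coordinates -/

theorem herm_apply (x : Fin n → Fin n → ℝ) (j k : Fin n) :
    herm x j k = (1 + Complex.I) / 2 * x j k + (1 - Complex.I) / 2 * x k j := by
  simp only [herm, Matrix.of_apply]
  push_cast
  ring

theorem herm_add (x y : Fin n → Fin n → ℝ) : herm (x + y) = herm x + herm y := by
  ext j k
  simp only [herm_apply, Matrix.add_apply, Pi.add_apply]
  push_cast
  ring

theorem herm_smul (t : ℝ) (x : Fin n → Fin n → ℝ) : herm (t • x) = (t : ℂ) • herm x := by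
  ext j k
  simp only [herm_apply, Matrix.smul_apply, Pi.smul_apply, smul_eq_mul]
  push_cast
  ring

theorem herm_isHermitian (x : Fin n → Fin n → ℝ) : (herm x).IsHermitian := by
  ext j k
  rw [Matrix.conjTranspose_apply, herm_apply, herm_apply]
  rw [← starRingEnd_apply]
  simp only [map_add, map_mul, map_div₀, map_one, map_sub, Complex.conj_I,
    Complex.conj_ofReal, map_ofNat]
  ring

/-- matrix units in Hermitian coordinates. -/
def mu (j k : Fin n) : Matrix (Fin n) (Fin n) ℂ := herm (Pi.single j (Pi.single k 1))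

/-- basis of the coordinate space. -/
def eb (i : Fin m) (j k : Fin n) : Fin m → Fin n → Fin n → ℝ :=
  Pi.single i (Pi.single j (Pi.single k 1))

theorem hermTuple_line (x : Fin m → Fin n → Fin n → ℝ) (t : ℝ) (i : Fin m) (j k : Fin n)
    (l : Fin m) : hermTuple (x + t • eb i j k) l =
      hermTuple x l + (t : ℂ) • (if l = i then mu j k else 0) := by
  simp only [hermTuple, Pi.add_apply, Pi.smul_apply, herm_add, herm_smul, eb, mu]
  split_ifs with h
  · subst h; simp
  · rw [Pi.single_eq_of_ne h]
    congr 2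
    ext a b
    simp [herm_apply]

theorem mu_eq (j k : Fin n) : mu j k = ((1 + Complex.I) / 2) • Matrix.single j k (1 : ℂ) +
    ((1 - Complex.I) / 2) • Matrix.single k j (1 : ℂ) := by
  ext a b
  simp only [mu, herm_apply, Matrix.add_apply, Matrix.smul_apply, Matrix.single_apply,
    Pi.single_apply, smul_eq_mul]
  congr 2
  · by_cases h1 : a = j
    · subst h1; by_cases h2 : b = k
      · subst h2; simp
      · simp [h2, Ne.symm h2]
    · simp [h1, Ne.symm h1]
  · by_cases h1 : b = j
    · subst h1; by_cases h2 : a = k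
      · subst h2; simp
      · simp [h2, Ne.symm h2]
    · simp [h1, Ne.symm h1]

theorem trace_single_mul' (j k : Fin n) (X : Matrix (Fin n) (Fin n) ℂ) :
    Matrix.trace (Matrix.single j k (1 : ℂ) * X) = X k j := by
  rw [Matrix.trace_single_mul]; simp

theorem trace_mu_mul (j k : Fin n) (X : Matrix (Fin n) (Fin n) ℂ) :
    Matrix.trace (mu j k * X) = (1 + Complex.I) / 2 * X k j + (1 - Complex.I) / 2 * X j k := by
  rw [mu_eq, add_mul, Matrix.trace_add, Matrix.smul_mul, Matrix.smul_mul, Matrix.trace_smul,
    Matrix.trace_smul, trace_single_mul', trace_single_mul', smul_eq_mul, smul_eq_mul]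

/-- First contraction identity. -/
theorem sum_trace_mu (X Y : Matrix (Fin n) (Fin n) ℂ) :
    ∑ j, ∑ k, Matrix.trace (mu j k * X) * Matrix.trace (mu j k * Y) = Matrix.trace (X * Y) := by
  have h1 : ∀ j k, Matrix.trace (mu j k * X) * Matrix.trace (mu j k * Y) =
      (Complex.I / 2) * (X k j * Y k j) + (- Complex.I / 2) * (X j k * Y j k) +
      (1 / 2) * (X k j * Y j k) + (1 / 2) * (X j k * Y k j) := by
    intro j k
    rw [trace_mu_mul, trace_mu_mul]
    have : Complex.I * Complex.I = -1 := Complex.I_mul_I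
    linear_combination ((X k j * Y k j) / 4 + (X j k * Y j k) / 4 - (X k j * Y j k) / 4
      - (X j k * Y k j) / 4) * this
  simp only [h1, Finset.sum_add_distrib, ← Finset.mul_sum]
  have h2 : ∑ j, ∑ k, X k j * Y k j = ∑ j, ∑ k, X j k * Y j k := Finset.sum_comm
  have h3 : ∑ j, ∑ k, X k j * Y j k = ∑ j, ∑ k, X j k * Y k j := Finset.sum_comm
  have h4 : Matrix.trace (X * Y) = ∑ j, ∑ k, X j k * Y k j := by
    simp [Matrix.trace, Matrix.mul_apply]
  rw [h2, h3, h4]
  ring

theorem trace_single4 (j k j' k' : Fin n) (X Y : Matrix (Fin n) (Fin n) ℂ) :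
    Matrix.trace (Matrix.single j k (1 : ℂ) * X * Matrix.single j' k' (1 : ℂ) * Y) =
      X k j' * Y k' j := by
  rw [Matrix.trace]
  simp only [Matrix.diag_apply, Matrix.mul_apply, Matrix.single_apply]
  simp [Finset.sum_ite_eq, ite_and, mul_ite, ite_mul]

/-- Second contraction identity. -/
theorem sum_trace_mu₂ (X Y : Matrix (Fin n) (Fin n) ℂ) :
    ∑ j, ∑ k, Matrix.trace (mu j k * X * mu j k * Y) = Matrix.trace X * Matrix.trace Y := by
  have h1 : ∀ j k, Matrix.trace (mu j k * X * mu j k * Y) =
      (Complex.I / 2) * (X k j * Y k j) + (- Complex.I / 2) * (X j k * Y j k) +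
      (1 / 2) * (X k k * Y j j) + (1 / 2) * (X j j * Y k k) := by
    intro j k
    rw [mu_eq]
    simp only [add_mul, mul_add, Matrix.trace_add, Matrix.smul_mul, Matrix.mul_smul,
      Matrix.trace_smul, trace_single4, smul_eq_mul]
    have : Complex.I * Complex.I = -1 := Complex.I_mul_I
    linear_combination ((X k j * Y k j) / 4 + (X j k * Y j k) / 4 - (X k k * Y j j) / 4
      - (X j j * Y k k) / 4) * this
  simp only [h1, Finset.sum_add_distrib, ← Finset.mul_sum]
  have h2 : ∑ j, ∑ k, X k j * Y k j = ∑ j, ∑ k, X j k * Y j k := Finset.sum_comm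
  have h3 : ∑ j, ∑ k, X k k * Y j j = ∑ j, ∑ k, X j j * Y k k := Finset.sum_comm
  have h4 : Matrix.trace X * Matrix.trace Y = ∑ j, ∑ k, X j j * Y k k := by
    simp [Matrix.trace, Finset.sum_mul_sum]
  simp only [← Finset.mul_sum] at h2 h3 h4 ⊢
  rw [h2, h3, h4]
  ring

/-! ### Derivatives of words -/

/-- the derivative of `w` at `a` in the direction `E` of the `i`-th variable. -/
def dw {A : Type*} [Ring A] (a : Fin m → A) (i : Fin m) (E : A) (w : List (Fin m)) : A :=
  ((splits i w).map fun s => wv a s.1 * E * wv a s.2).sum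

@[simp] theorem dw_nil {A : Type*} [Ring A] (a : Fin m → A) (i : Fin m) (E : A) :
    dw a i E [] = 0 := rfl

theorem list_sum_map_mul_left {A ι : Type*} [Ring A] (c : A) (l : List ι) (f : ι → A) :
    (l.map fun s => c * f s).sum = c * (l.map f).sum := by
  induction l with
  | nil => simp
  | cons a l ih => simp [ih, mul_add]

theorem dw_cons {A : Type*} [Ring A] (a : Fin m → A) (i : Fin m) (E : A) (j : Fin m)
    (w : List (Fin m)) :
    dw a i E (j :: w) = (if j = i then E else 0) * wv a w + a j * dw a i E w := by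
  unfold dw
  rw [splits, List.map_append, List.sum_append]
  congr 1
  · split_ifs <;> simp
  · rw [List.map_map, ← list_sum_map_mul_left]
    congr 1
    apply List.map_congr_left
    intro s _
    simp [mul_assoc]

theorem hasDerivAt_matrix_mul {F G : ℝ → Matrix (Fin n) (Fin n) ℂ}
    {F' G' : Matrix (Fin n) (Fin n) ℂ} {t : ℝ}
    (hF : ∀ a b, HasDerivAt (fun s => F s a b) (F' a b) t)
    (hG : ∀ a b, HasDerivAt (fun s => G s a b) (G' a b) t) (a b : Fin n) :
    HasDerivAt (fun s => (F s * G s) a b) ((F' * G t + F t * G') a b) t := by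
  simp only [Matrix.mul_apply, Matrix.add_apply]
  rw [← Finset.sum_add_distrib]
  apply HasDerivAt.fun_sum
  intro c _
  exact (hF a c).mul (hG c b)

theorem hasDerivAt_wv (x : Fin m → Fin n → Fin n → ℝ) (i : Fin m) (j k : Fin n)
    (w : List (Fin m)) (a b : Fin n) :
    HasDerivAt (fun t : ℝ => wv (hermTuple (x + t • eb i j k)) w a b)
      (dw (hermTuple x) i (mu j k) w a b) 0 := by
  induction w generalizing a b with
  | nil => simpa using hasDerivAt_const (0 : ℝ) ((1 : Matrix (Fin n) (Fin n) ℂ) a b)
  | cons l w ih =>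
    have h0 : hermTuple (x + (0 : ℝ) • eb i j k) = hermTuple x := by simp
    have h1 : ∀ a b, HasDerivAt (fun t : ℝ => hermTuple (x + t • eb i j k) l a b)
        ((if l = i then mu j k else 0) a b) 0 := by
      intro a b
      simp only [hermTuple_line, Matrix.add_apply, Matrix.smul_apply, smul_eq_mul]
      have h2 : HasDerivAt (fun t : ℝ => (t : ℂ)) 1 0 := Complex.ofRealCLM.hasDerivAt
      simpa using (h2.mul_const _).const_add (hermTuple x l a b)
    have := hasDerivAt_matrix_mul h1 (fun a b => ih a b) a b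
    simp only [wv_cons]
    convert this using 1
    rw [dw_cons, h0]

end Pool.Agent.Lib.MP_58f2bb_an
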